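import Mathlib

/-!
# Multilinear forms and derivations
-/

set_option linter.unusedSectionVars false
set_option linter.deprecated false

namespace Pool.Agent.V7H7.MS

open Module

noncomputable section

variable {V : Type} [AddCommGroup V] [Module ℂ V] {g : ℕ}

/-- The multilinear forms in `g` variables. -/
abbrev MF (V : Type) [AddCommGroup V] [Module ℂ V] (g : ℕ) : Type :=
  MultilinearMap ℂ (fun _ : Fin g => V) ℂ

/-- The action of an endomorphism on the variable `k`. -/
def tk (k : Fin g) (X : End ℂ V) : End ℂ (MF V g) :=
  MultilinearMap.compLinearMapₗ (Function.update (fun _ => LinearMap.id) k X)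

theorem tk_apply (k : Fin g) (X : End ℂ V) (f : MF V g) (v : Fin g → V) :
    tk k X f v = f (Function.update v k (X (v k))) := by
  unfold tk
  rw [MultilinearMap.compLinearMapₗ_apply, MultilinearMap.compLinearMap_apply]
  congr 1
  funext l
  by_cases h : l = k
  · subst h
    rw [Function.update_self, Function.update_self]
  · rw [Function.update_of_ne h, Function.update_of_ne h, LinearMap.id_apply]

theorem tk_add (k : Fin g) (X Y : End ℂ V) : tk k (X + Y) = tk k X + tk k Y := by
  refine LinearMap.ext fun f => MultilinearMap.ext fun v => ?_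
  rw [LinearMap.add_apply, MultilinearMap.add_apply, tk_apply, tk_apply, tk_apply,
    LinearMap.add_apply, MultilinearMap.map_update_add]

theorem tk_smul (k : Fin g) (c : ℂ) (X : End ℂ V) : tk k (c • X) = c • tk k X := by
  refine LinearMap.ext fun f => MultilinearMap.ext fun v => ?_
  rw [LinearMap.smul_apply, MultilinearMap.smul_apply, tk_apply, tk_apply,
    LinearMap.smul_apply, MultilinearMap.map_update_smul]

theorem tk_one (k : Fin g) : tk k (1 : End ℂ V) = 1 := by
  refine LinearMap.ext fun f => MultilinearMap.ext fun v => ?_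
  rw [tk_apply, Module.End.one_apply, Module.End.one_apply, Function.update_eq_self]

theorem tk_mul (k : Fin g) (X Y : End ℂ V) : tk k X * tk k Y = tk k (Y * X) := by
  refine LinearMap.ext fun f => MultilinearMap.ext fun v => ?_
  rw [Module.End.mul_apply, tk_apply, tk_apply, tk_apply, Function.update_self,
    Function.update_idem, Module.End.mul_apply]

theorem tk_comm {k l : Fin g} (h : k ≠ l) (X Y : End ℂ V) : tk k X * tk l Y = tk l Y * tk k X := by
  refine LinearMap.ext fun f => MultilinearMap.ext fun v => ?_
  rw [Module.End.mul_apply, Module.End.mul_apply, tk_apply, tk_apply, tk_apply, tk_apply,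
    Function.update_of_ne h.symm, Function.update_of_ne h, Function.update_comm h]

/-- The derivation of the forms defined by an endomorphism. -/
def der : End ℂ V →ₗ[ℂ] End ℂ (MF V g) where
  toFun X := ∑ k, tk k X
  map_add' X Y := by
    rw [← Finset.sum_add_distrib]
    exact Finset.sum_congr rfl fun k _ => tk_add k X Y
  map_smul' c X := by
    rw [RingHom.id_apply, Finset.smul_sum]
    exact Finset.sum_congr rfl fun k _ => tk_smul k c X

theorem der_def (X : End ℂ V) : (der X : End ℂ (MF V g)) = ∑ k, tk k X := rfl

theorem der_apply (X : End ℂ V) (f : MF V g) (v : Fin g → V) :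
    der X f v = ∑ k, f (Function.update v k (X (v k))) := by
  rw [der_def, LinearMap.sum_apply, MultilinearMap.sum_apply]
  exact Finset.sum_congr rfl fun k _ => tk_apply k X f v

theorem tk_comm_gen {k l : Fin g} (X Y : End ℂ V) :
    tk k X * tk l Y - tk l Y * tk k X = if k = l then tk k (Y * X - X * Y) else 0 := by
  by_cases h : k = l
  · subst h
    rw [if_pos rfl, tk_mul, tk_mul]
    have h1 : tk k (Y * X) = tk k (Y * X - X * Y) + tk k (X * Y) := by
      rw [← tk_add, sub_add_cancel]
    rw [h1, add_sub_cancel_right]
  · rw [if_neg h, tk_comm h, sub_self]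

theorem der_bracket (X Y : End ℂ V) :
    (der X : End ℂ (MF V g)) * der Y - der Y * der X = der (Y * X - X * Y) := by
  rw [der_def, der_def, der_def, Finset.sum_mul_sum, Finset.sum_mul_sum,
    Finset.sum_comm (f := fun i j => tk i Y * tk j X), ← Finset.sum_sub_distrib]
  refine Finset.sum_congr rfl fun k _ => ?_
  rw [← Finset.sum_sub_distrib]
  have h1 : ∀ l ∈ Finset.univ, (tk k X * tk l Y - tk l Y * tk k X : End ℂ (MF V g)) =
      if k = l then tk k (Y * X - X * Y) else 0 := fun l _ => tk_comm_gen X Y
  rw [Finset.sum_congr rfl h1, Finset.sum_ite_eq, if_pos (Finset.mem_univ k)]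

theorem der_swap (X Y : End ℂ V) (f : MF V g) :
    der X (der Y f) = der Y (der X f) + der (Y * X - X * Y) f := by
  rw [← der_bracket, LinearMap.sub_apply, Module.End.mul_apply, Module.End.mul_apply]
  abel

/-- The antisymmetric forms. -/
def Wg (V : Type) [AddCommGroup V] [Module ℂ V] (g : ℕ) : Submodule ℂ (MF V g) where
  carrier := {f | ∀ (σ : Equiv.Perm (Fin g)) (v : Fin g → V),
    f (fun k => v (σ k)) = ((Equiv.Perm.sign σ : ℤ) : ℂ) * f v}
  add_mem' := by
    intro f f' hf hf' σ v
    rw [MultilinearMap.add_apply, MultilinearMap.add_apply, hf, hf', mul_add]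
  zero_mem' := by
    intro σ v
    rw [MultilinearMap.zero_apply, MultilinearMap.zero_apply, mul_zero]
  smul_mem' := by
    intro c f hf σ v
    rw [MultilinearMap.smul_apply, MultilinearMap.smul_apply, hf, smul_eq_mul, smul_eq_mul]
    ring

theorem mem_Wg {f : MF V g} : f ∈ Wg V g ↔ ∀ (σ : Equiv.Perm (Fin g)) (v : Fin g → V),
    f (fun k => v (σ k)) = ((Equiv.Perm.sign σ : ℤ) : ℂ) * f v := Iff.rfl

theorem der_mem {f : MF V g} (hf : f ∈ Wg V g) (X : End ℂ V) : der X f ∈ Wg V g := by
  intro σ v
  rw [der_apply, der_apply, Finset.mul_sum]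
  conv_rhs => rw [← Equiv.sum_comp σ]
  refine Finset.sum_congr rfl fun k _ => ?_
  rw [← hf σ]
  congr 1
  funext l
  by_cases h : l = k
  · subst h
    rw [Function.update_self, Function.update_self]
  · rw [Function.update_of_ne h, Function.update_of_ne (fun h' => h (σ.injective h'))]

end

end Pool.Agent.V7H7.MS
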