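import Mathlib
import Pool.Agent.V7H7.MS.Der

/-!
# The determinant form of an idempotent
-/

set_option linter.unusedSectionVars false
set_option linter.deprecated false

namespace Pool.Agent.V7H7.MS

open Module

noncomputable section

variable {V : Type} [AddCommGroup V] [Module ℂ V] {g : ℕ}

/-- If an endomorphism may be applied to each variable, it may be applied to all. -/
theorem tk_all {e : End ℂ V} {f : MF V g} (hf : ∀ k, tk k e f = f) (v : Fin g → V) :
    f (fun k => e (v k)) = f v := by
  classical
  have key : ∀ s : Finset (Fin g), f (fun k => if k ∈ s then e (v k) else v k) = f v := by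
    intro s
    induction s using Finset.induction_on with
    | empty => simp
    | insert a s ha ih =>
      rw [← ih]
      have h1 := congrArg (fun f' : MF V g => f' (fun k => if k ∈ s then e (v k) else v k)) (hf a)
      beta_reduce at h1
      rw [tk_apply] at h1
      rw [← h1]
      congr 1
      funext k
      by_cases hk : k = a
      · subst hk
        rw [Function.update_self, if_pos (Finset.mem_insert_self _ _), if_neg ha]
      · rw [Function.update_of_ne hk]
        by_cases hs : k ∈ s
        · rw [if_pos hs, if_pos (Finset.mem_insert_of_mem hs)]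
        · rw [if_neg hs, if_neg (fun h => (Finset.mem_insert.1 h).elim hk hs)]
  have h2 := key Finset.univ
  simpa using h2

section det

variable (e : End ℂ V) (b : Basis (Fin g) ℂ (LinearMap.range e))

/-- The determinant form of the range of an idempotent. -/
def u0 : MF V g := (b.det).toMultilinearMap.compLinearMap (fun _ => e.rangeRestrict)

theorem u0_apply (v : Fin g → V) : u0 e b v = b.det (fun k => e.rangeRestrict (v k)) := rfl

theorem u0_mem : u0 e b ∈ Wg V g := by
  intro σ v
  rw [u0_apply, u0_apply]
  have h1 := (b.det).map_perm (fun k => e.rangeRestrict (v k)) σ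
  rw [Units.smul_def, zsmul_eq_mul] at h1
  exact h1

variable {e}
variable (he : e * e = e)
include he

theorem e_e (v : V) : e (e v) = e v := by
  rw [← Module.End.mul_apply, he]

theorem e_range {v : V} (hv : v ∈ LinearMap.range e) : e v = v := by
  obtain ⟨w, rfl⟩ := hv
  exact e_e he w

theorem tk_u0 (k : Fin g) : tk k e (u0 e b) = u0 e b := by
  refine MultilinearMap.ext fun v => ?_
  rw [tk_apply, u0_apply, u0_apply]
  congr 1
  funext l
  by_cases h : l = k
  · subst h
    rw [Function.update_self]
    exact Subtype.ext (e_e he _)
  · rw [Function.update_of_ne h]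

theorem u0_b : u0 e b (fun k => (b k : V)) = 1 := by
  rw [u0_apply]
  have h1 : (fun k => e.rangeRestrict (b k : V)) = b := by
    funext k
    exact Subtype.ext (e_range he (b k).2)
  rw [h1, Basis.det_self]

theorem u0_ne : u0 e b ≠ 0 := by
  intro h
  have h1 := u0_b b he
  rw [h, MultilinearMap.zero_apply] at h1
  exact zero_ne_one h1

/-- The forms which live on the range of the idempotent. -/
theorem eq_u0 {f : MF V g} (hf : f ∈ Wg V g) (hk : ∀ k, tk k e f = f) :
    f = f (fun k => (b k : V)) • u0 e b := by
  let f' : (LinearMap.range e) [⋀^Fin g]→ₗ[ℂ] ℂ :=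
    { (f.compLinearMap (fun _ => (LinearMap.range e).subtype)) with
      map_eq_zero_of_eq' := by
        intro v i j hv hij
        change f (fun k => (v k : V)) = 0
        have h1 := hf (Equiv.swap i j) (fun k => (v k : V))
        rw [Equiv.Perm.sign_swap hij] at h1
        have h2 : (fun k => ((v (Equiv.swap i j k) : LinearMap.range e) : V)) =
            fun k => (v k : V) := by
          funext k
          by_cases hki : k = i
          · subst hki
            rw [Equiv.swap_apply_left, hv]
          · by_cases hkj : k = j
            · subst hkj
              rw [Equiv.swap_apply_right, hv]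
            · rw [Equiv.swap_apply_of_ne_of_ne hki hkj]
        rw [h2] at h1
        push_cast at h1
        linear_combination (1 / 2 : ℂ) * h1 }
  have hf' : ∀ v, f' v = f (fun k => (v k : V)) := fun v => rfl
  have h1 := AlternatingMap.eq_smul_basis_det b f'
  refine MultilinearMap.ext fun v => ?_
  rw [← tk_all hk v, MultilinearMap.smul_apply, u0_apply]
  have h2 := congrArg (fun F : (LinearMap.range e) [⋀^Fin g]→ₗ[ℂ] ℂ =>
    F (fun k => e.rangeRestrict (v k))) h1
  beta_reduce at h2
  rw [hf', AlternatingMap.smul_apply] at h2
  exact h2

/-- Endomorphisms which commute with the idempotent act on the determinant form by scalars. -/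
theorem der_u0_comm {X : End ℂ V} (hX : X * e = e * X) :
    ∃ c : ℂ, der X (u0 e b) = c • u0 e b := by
  refine ⟨_, eq_u0 b he (der_mem (u0_mem e b) X) fun k => ?_⟩
  have h1 : tk k e * der X = (der X : End ℂ (MF V g)) * tk k e := by
    rw [der_def, Finset.mul_sum, Finset.sum_mul]
    refine Finset.sum_congr rfl fun l _ => ?_
    by_cases h : k = l
    · subst h
      rw [tk_mul, tk_mul, hX]
    · exact tk_comm h e X
  rw [← Module.End.mul_apply, h1, Module.End.mul_apply, tk_u0 b he]

theorem der_u0_zero {X : End ℂ V} (hX : e * X = 0) : der X (u0 e b) = 0 := by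
  rw [der_def, LinearMap.sum_apply]
  refine Finset.sum_eq_zero fun k _ => ?_
  conv_lhs => rw [← tk_u0 b he k, ← Module.End.mul_apply, tk_mul, hX]
  have h1 : tk k (0 : End ℂ V) = 0 := by
    have h2 := tk_smul k (0 : ℂ) (0 : End ℂ V)
    rwa [zero_smul, zero_smul] at h2
  rw [h1, LinearMap.zero_apply]

theorem der_e_u0 : der e (u0 e b) = (g : ℂ) • u0 e b := by
  rw [der_def, LinearMap.sum_apply, Finset.sum_congr rfl fun k _ => tk_u0 b he k,
    Finset.sum_const, Finset.card_univ, Fintype.card_fin, ← Nat.cast_smul_eq_nsmul ℂ]

/-- The component of degree one is determined by the action on the determinant form. -/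
theorem up_zero {Y : End ℂ V} (h1 : e * Y = Y) (h2 : Y * e = 0) (h : der Y (u0 e b) = 0) :
    Y = 0 := by
  classical
  refine LinearMap.ext fun x => ?_
  have hx : Y x ∈ LinearMap.range e := ⟨Y x, by rw [← Module.End.mul_apply, h1]⟩
  have hb : ∀ l, Y (b l : V) = 0 := by
    intro l
    rw [← e_range he (b l).2, ← Module.End.mul_apply, h2, LinearMap.zero_apply]
  have key : ∀ k, b.repr ⟨Y x, hx⟩ k = 0 := by
    intro k
    have h3 := congrArg (fun F : MF V g => F (Function.update (fun l => (b l : V)) k x)) h
    beta_reduce at h3
    rw [MultilinearMap.zero_apply, der_apply, Finset.sum_eq_single k] at h3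
    · rw [Function.update_idem, Function.update_self, u0_apply] at h3
      have h4 : (fun l => e.rangeRestrict (Function.update (fun l => (b l : V)) k (Y x) l)) =
          Function.update b k ⟨Y x, hx⟩ := by
        funext l
        by_cases hl : l = k
        · subst hl
          rw [Function.update_self, Function.update_self]
          exact Subtype.ext (e_range he hx)
        · rw [Function.update_of_ne hl, Function.update_of_ne hl]
          exact Subtype.ext (e_range he (b l).2)
      rw [h4] at h3
      have h5 : (⟨Y x, hx⟩ : LinearMap.range e) = ∑ i, b.repr ⟨Y x, hx⟩ i • b i :=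
        (b.sum_repr _).symm
      rw [h5, AlternatingMap.map_update_sum, Finset.sum_eq_single k] at h3
      · rw [AlternatingMap.map_update_smul, Function.update_eq_self, Basis.det_self,
          smul_eq_mul, mul_one] at h3
        exact h3
      · intro i _ hi
        rw [AlternatingMap.map_update_smul, AlternatingMap.map_update_self _ _ (Ne.symm hi),
          smul_zero]
      · intro h6
        exact absurd (Finset.mem_univ k) h6
    · intro l _ hl
      rw [Function.update_of_ne hl, hb]
      exact MultilinearMap.map_coord_zero _ l (Function.update_self _ _ _)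
    · intro h6
      exact absurd (Finset.mem_univ k) h6
  have h7 : (⟨Y x, hx⟩ : LinearMap.range e) = 0 := by
    rw [← b.sum_repr ⟨Y x, hx⟩]
    exact Finset.sum_eq_zero fun i _ => by rw [key i, zero_smul]
  exact congrArg Subtype.val h7

end det

end

end Pool.Agent.V7H7.MS
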