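import Mathlib
import Pool.Agent.V7H7.MS.Ext

/-!
# The module generated by the determinant form
-/

set_option linter.unusedSectionVars false
set_option linter.deprecated false

namespace Pool.Agent.V7H7.MS

open Module

noncomputable section

variable {V : Type} [AddCommGroup V] [Module ℂ V] {g : ℕ} {L : Submodule ℂ (End ℂ V)}
  {e : End ℂ V} (b : Basis (Fin g) ℂ (LinearMap.range e))

/-- The elements of degree one of a space of endomorphisms. -/
def Up (L : Submodule ℂ (End ℂ V)) (e : End ℂ V) : Submodule ℂ (End ℂ V) where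
  carrier := {Y | Y ∈ L ∧ e * Y = Y ∧ Y * e = 0}
  add_mem' := by
    rintro X Y ⟨h1, h2, h3⟩ ⟨h4, h5, h6⟩
    exact ⟨L.add_mem h1 h4, by rw [mul_add, h2, h5], by rw [add_mul, h3, h6, add_zero]⟩
  zero_mem' := ⟨L.zero_mem, mul_zero _, zero_mul _⟩
  smul_mem' := by
    rintro c X ⟨h1, h2, h3⟩
    exact ⟨L.smul_mem c h1, by rw [mul_smul_comm, h2], by rw [smul_mul_assoc, h3, smul_zero]⟩

theorem mem_Up {Y : End ℂ V} : Y ∈ Up L e ↔ Y ∈ L ∧ e * Y = Y ∧ Y * e = 0 := Iff.rfl

/-- The components of the module generated by the determinant form. -/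
def Fk (L : Submodule ℂ (End ℂ V)) (e : End ℂ V) (b : Basis (Fin g) ℂ (LinearMap.range e)) :
    ℕ → Submodule ℂ (MF V g)
  | 0 => Submodule.span ℂ {u0 e b}
  | k + 1 => Submodule.span ℂ {f | ∃ Y ∈ Up L e, ∃ f' ∈ Fk L e b k, f = der Y f'}

theorem Fk_zero : Fk L e b 0 = Submodule.span ℂ {u0 e b} := rfl

theorem Fk_succ (k : ℕ) : Fk L e b (k + 1) =
    Submodule.span ℂ {f | ∃ Y ∈ Up L e, ∃ f' ∈ Fk L e b k, f = der Y f'} := rfl

theorem u0_Fk : u0 e b ∈ Fk L e b 0 := Submodule.subset_span rfl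

/-- Induction on a component. -/
theorem Fk_ind {k : ℕ} {p : Submodule ℂ (MF V g)}
    (h : ∀ Y ∈ Up L e, ∀ f' ∈ Fk L e b k, der Y f' ∈ p) : Fk L e b (k + 1) ≤ p := by
  rw [Fk_succ, Submodule.span_le]
  rintro _ ⟨Y, hY, f', hf', rfl⟩
  exact h Y hY f' hf'

theorem der_Fk {k : ℕ} {Y : End ℂ V} (hY : Y ∈ Up L e) {f : MF V g} (hf : f ∈ Fk L e b k) :
    der Y f ∈ Fk L e b (k + 1) := Submodule.subset_span ⟨Y, hY, f, hf, rfl⟩

variable (he : e * e = e)
include he

theorem Fk_mem (k : ℕ) : Fk L e b k ≤ Wg V g := by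
  induction k with
  | zero =>
    rw [Fk_zero, Submodule.span_singleton_le_iff_mem]
    exact u0_mem e b
  | succ k ih => exact Fk_ind b fun Y _ f' hf' => der_mem (ih hf') Y

/-- The degree. -/
theorem Fk_deg (k : ℕ) : ∀ f ∈ Fk L e b k, der e f = ((g : ℂ) - k) • f := by
  induction k with
  | zero =>
    intro f hf
    obtain ⟨c, rfl⟩ := Submodule.mem_span_singleton.1 hf
    rw [map_smul, der_e_u0 b he, Nat.cast_zero, sub_zero, smul_comm]
  | succ k ih =>
    intro f hf
    have h1 : Fk L e b (k + 1) ≤ LinearMap.ker (der e - ((g : ℂ) - (k + 1 : ℕ)) • 1) := by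
      refine Fk_ind b fun Y hY f' hf' => ?_
      rw [LinearMap.mem_ker, LinearMap.sub_apply, LinearMap.smul_apply, Module.End.one_apply,
        der_swap, ih f' hf', hY.2.1, hY.2.2, zero_sub, map_neg, LinearMap.neg_apply, map_smul]
      push_cast
      module
    have h2 := h1 hf
    rw [LinearMap.mem_ker, LinearMap.sub_apply, LinearMap.smul_apply, Module.End.one_apply,
      sub_eq_zero] at h2
    exact h2

variable (hBr : ∀ A ∈ L, ∀ B ∈ L, A * B - B * A ∈ L)
include hBr

theorem Fk_deg0 {X : End ℂ V} (hX : X ∈ L) (hXe : X * e = e * X) (k : ℕ) :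
    ∀ f ∈ Fk L e b k, der X f ∈ Fk L e b k := by
  induction k with
  | zero =>
    intro f hf
    obtain ⟨c, rfl⟩ := Submodule.mem_span_singleton.1 hf
    obtain ⟨d, hd⟩ := der_u0_comm b he hXe
    rw [map_smul, hd]
    exact Submodule.smul_mem _ _ (Submodule.smul_mem _ _ (u0_Fk b))
  | succ k ih =>
    intro f hf
    have h1 : Fk L e b (k + 1) ≤ (Fk L e b (k + 1)).comap (der X) := by
      refine Fk_ind b fun Y hY f' hf' => ?_
      rw [Submodule.mem_comap, der_swap]
      refine Submodule.add_mem _ (der_Fk b hY (ih f' hf')) (der_Fk b ?_ hf')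
      refine ⟨hBr Y hY.1 X hX, ?_, ?_⟩
      · rw [mul_sub, ← mul_assoc, hY.2.1, ← mul_assoc, ← hXe, mul_assoc, hY.2.1]
      · rw [sub_mul, mul_assoc, hXe, ← mul_assoc, hY.2.2, zero_mul, mul_assoc, hY.2.2, mul_zero,
          sub_zero]
    exact h1 hf

theorem Fk_dn {X : End ℂ V} (hX : X ∈ L) (h1 : X * e = X) (h2 : e * X = 0) (k : ℕ) :
    ∀ f ∈ Fk L e b k, (k = 0 → der X f = 0) ∧ (∀ j, k = j + 1 → der X f ∈ Fk L e b j) := by
  induction k with
  | zero =>
    intro f hf
    obtain ⟨c, rfl⟩ := Submodule.mem_span_singleton.1 hf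
    exact ⟨fun _ => by rw [map_smul, der_u0_zero b he h2, smul_zero], fun j hj => by omega⟩
  | succ k ih =>
    intro f hf
    refine ⟨fun h => by omega, fun j hj => ?_⟩
    obtain rfl : k = j := by omega
    have h3 : Fk L e b (k + 1) ≤ (Fk L e b k).comap (der X) := by
      refine Fk_ind b fun Y hY f' hf' => ?_
      rw [Submodule.mem_comap, der_swap]
      have h4 : Y * X - X * Y ∈ L := hBr Y hY.1 X hX
      have h5 : (Y * X - X * Y) * e = e * (Y * X - X * Y) := by
        rw [sub_mul, mul_sub, mul_assoc, h1, mul_assoc, hY.2.2, mul_zero, ← mul_assoc, hY.2.1,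
          ← mul_assoc, h2, zero_mul]
      refine Submodule.add_mem _ ?_ (Fk_deg0 b he hBr h4 h5 k f' hf')
      rcases k with _ | k
      · rw [(ih f' hf').1 rfl, map_zero]
        exact Submodule.zero_mem _
      · exact der_Fk b hY ((ih f' hf').2 k rfl)
    exact h3 hf

variable (hec : ∀ X ∈ L, e * X * (1 - e) ∈ L ∧ (1 - e) * X * e ∈ L)
include hec

/-- The module generated by the determinant form is stable. -/
theorem Fk_stable {X : End ℂ V} (hX : X ∈ L) :
    ∀ f ∈ ⨆ k, Fk L e b k, der X f ∈ ⨆ k, Fk L e b k := by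
  have hup : e * X * (1 - e) ∈ Up L e := by
    refine ⟨(hec X hX).1, ?_, ?_⟩
    · rw [← mul_assoc, ← mul_assoc, he]
    · rw [mul_assoc, sub_mul, one_mul, he, sub_self, mul_zero]
  have hd1 : (1 - e) * X * e * e = (1 - e) * X * e := by rw [mul_assoc, he]
  have hd2 : e * ((1 - e) * X * e) = 0 := by
    rw [← mul_assoc, ← mul_assoc, mul_sub, mul_one, he, sub_self, zero_mul, zero_mul]
  have h0 : X - e * X * (1 - e) - (1 - e) * X * e ∈ L :=
    L.sub_mem (L.sub_mem hX hup.1) (hec X hX).2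
  have h0e : (X - e * X * (1 - e) - (1 - e) * X * e) * e =
      e * (X - e * X * (1 - e) - (1 - e) * X * e) := by
    have e1 : (X - e * X * (1 - e) - (1 - e) * X * e) * e = e * X * e := by
      rw [sub_mul, sub_mul, hd1, hup.2.2]
      noncomm_ring
    have e2 : e * (X - e * X * (1 - e) - (1 - e) * X * e) = e * X * e := by
      rw [mul_sub, mul_sub, hd2, hup.2.1]
      noncomm_ring
    rw [e1, e2]
  have hX' : X = e * X * (1 - e) + (X - e * X * (1 - e) - (1 - e) * X * e) + (1 - e) * X * e := by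
    abel
  have h1 : (⨆ k, Fk L e b k) ≤ (⨆ k, Fk L e b k).comap (der X) := by
    refine iSup_le fun k f hf => ?_
    rw [Submodule.mem_comap, hX', map_add, map_add, LinearMap.add_apply, LinearMap.add_apply]
    refine Submodule.add_mem _ (Submodule.add_mem _ ?_ ?_) ?_
    · exact Submodule.mem_iSup_of_mem (k + 1) (der_Fk b hup hf)
    · exact Submodule.mem_iSup_of_mem k (Fk_deg0 b he hBr h0 h0e k f hf)
    · rcases k with _ | k
      · rw [(Fk_dn b he hBr (hec X hX).2 hd1 hd2 0 f hf).1 rfl]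
        exact Submodule.zero_mem _
      · exact Submodule.mem_iSup_of_mem k
          ((Fk_dn b he hBr (hec X hX).2 hd1 hd2 (k + 1) f hf).2 k rfl)
  exact fun f hf => h1 hf

omit hBr hec in
/-- The elements of degree one. -/
theorem Fk_one {f : MF V g} (hf : f ∈ ⨆ k, Fk L e b k) (hd : der e f = ((g : ℂ) - 1) • f) :
    f ∈ Fk L e b 1 := by
  classical
  obtain ⟨s, hs, rfl⟩ := (Submodule.mem_iSup_iff_exists_finsupp _ _).1 hf
  have h1 : ∀ k : ℕ, s k ∈ Module.End.eigenspace (der e : End ℂ (MF V g)) ((g : ℂ) - k) := fun k =>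
    Module.End.mem_eigenspace_iff.2 (Fk_deg b he k _ (hs k))
  have h2 : s.sum (fun _ x => x) = s 1 + (s.erase 1).sum (fun _ x => x) := by
    by_cases hm : 1 ∈ s.support
    · exact (Finsupp.add_sum_erase s 1 _ hm).symm
    · rw [Finsupp.notMem_support_iff.1 hm, zero_add, Finsupp.erase_of_notMem_support hm]
  have h3 : (s.erase 1).sum (fun _ x => x) ∈
      ⨆ μ : ℂ, ⨆ (_ : μ ≠ (g : ℂ) - 1), Module.End.eigenspace (der e : End ℂ (MF V g)) μ := by
    refine Submodule.sum_mem _ fun k hk => ?_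
    have hk1 : k ≠ 1 := by
      rintro rfl
      rw [Finsupp.support_erase] at hk
      exact absurd rfl (Finset.mem_erase.1 hk).1
    have h4 : (g : ℂ) - k ≠ (g : ℂ) - 1 := by
      intro h5
      have h6 : (k : ℂ) = 1 := by linear_combination -h5
      exact hk1 (by exact_mod_cast h6)
    refine Submodule.mem_iSup_of_mem ((g : ℂ) - k) (Submodule.mem_iSup_of_mem h4 ?_)
    rw [Finsupp.erase_ne hk1]
    exact h1 k
  have h4 : (s.erase 1).sum (fun _ x => x) ∈
      Module.End.eigenspace (der e : End ℂ (MF V g)) ((g : ℂ) - 1) := by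
    have h5 : (s.erase 1).sum (fun _ x => x) = s.sum (fun _ x => x) - s 1 := by
      rw [h2, add_sub_cancel_left]
    rw [h5]
    refine Submodule.sub_mem _ (Module.End.mem_eigenspace_iff.2 hd) ?_
    have h6 := h1 1
    rwa [Nat.cast_one] at h6
  have h5 := (Module.End.eigenspaces_iSupIndep (der e : End ℂ (MF V g))
    ((g : ℂ) - 1)).le_bot ⟨h4, h3⟩
  rw [Submodule.mem_bot] at h5
  rw [h2, h5, add_zero]
  exact hs 1

omit hBr hec in
/-- The elements of degree one come from the space of endomorphisms. -/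
theorem up_of_mem {Y : End ℂ V} (h1 : e * Y = Y) (h2 : Y * e = 0)
    (hY : der Y (u0 e b) ∈ ⨆ k, Fk L e b k) : Y ∈ L := by
  have h3 : der e (der Y (u0 e b)) = ((g : ℂ) - 1) • der Y (u0 e b) := by
    rw [der_swap, der_e_u0 b he, h1, h2, zero_sub, map_neg, LinearMap.neg_apply, map_smul]
    module
  have h4 := Fk_one b he hY h3
  have h5 : Fk L e b 1 ≤ (Up L e).map ((LinearMap.applyₗ (u0 e b)) ∘ₗ
      (der : End ℂ V →ₗ[ℂ] End ℂ (MF V g))) := by
    refine Fk_ind b fun Y hY f' hf' => ?_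
    obtain ⟨c, rfl⟩ := Submodule.mem_span_singleton.1 hf'
    refine ⟨c • Y, Submodule.smul_mem _ _ hY, ?_⟩
    rw [LinearMap.comp_apply, map_smul, LinearMap.applyₗ_apply_apply, LinearMap.smul_apply,
      map_smul]
  obtain ⟨Y', hY', h6⟩ := h5 h4
  rw [LinearMap.comp_apply, LinearMap.applyₗ_apply_apply] at h6
  have h7 : Y - Y' = 0 := by
    refine up_zero b he ?_ ?_ ?_
    · rw [mul_sub, h1, hY'.2.1]
    · rw [sub_mul, h2, hY'.2.2, sub_zero]
    · rw [map_sub, LinearMap.sub_apply, h6, sub_self]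
  rw [sub_eq_zero.1 h7]
  exact hY'.1

end

end Pool.Agent.V7H7.MS
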