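import Mathlib
import Pool.Agent.V7H7.MS.Der

/-!
# Semisimple endomorphisms and projections on eigenspaces
-/

set_option linter.unusedSectionVars false
set_option linter.deprecated false

namespace Pool.Agent.V7H7.MS

open Module Polynomial

noncomputable section

section proj

variable {M : Type} [AddCommGroup M] [Module ℂ M] [FiniteDimensional ℂ M]

/-- The projection on an eigenspace of a semisimple endomorphism. -/
theorem exists_pr {F : End ℂ M} (hF : F.IsSemisimple) (c : ℂ) :
    ∃ p : End ℂ M, (∀ T : End ℂ M, T * F = F * T → T * p = p * T) ∧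
      (∀ f, F f = c • f → p f = f) ∧ ∀ f, F (p f) = c • p f := by
  let K := LinearMap.ker (F - c • 1)
  have hKm : ∀ v, v ∈ K ↔ F v = c • v := by
    intro v
    rw [LinearMap.mem_ker, LinearMap.sub_apply, LinearMap.smul_apply, Module.End.one_apply,
      sub_eq_zero]
  let R := LinearMap.range (F - c • 1)
  have hcompl : IsCompl K R := by
    obtain ⟨q, hq, hKq⟩ := Module.End.isSemisimple_iff.1 hF K (by
      intro v hv
      rw [Submodule.mem_comap, hKm]
      rw [hKm] at hv
      rw [hv, map_smul, hv])
    have hqF : ∀ v ∈ q, (F - c • 1) v ∈ q := by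
      intro v hv
      rw [LinearMap.sub_apply, LinearMap.smul_apply, Module.End.one_apply]
      exact q.sub_mem (hq hv) (q.smul_mem c hv)
    have hRq : R = q := by
      apply le_antisymm
      · rintro _ ⟨v, rfl⟩
        obtain ⟨k, hk, w, hw, rfl⟩ := Submodule.mem_sup.1
          (show v ∈ K ⊔ q by rw [hKq.sup_eq_top]; trivial)
        rw [map_add, LinearMap.mem_ker.1 hk, zero_add]
        exact hqF w hw
      · have hinj : Function.Injective ((F - c • 1).restrict hqF) := by
          rw [← LinearMap.ker_eq_bot, LinearMap.ker_eq_bot']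
          intro v hv
          have h1 : (v : M) ∈ K := by
            rw [LinearMap.mem_ker]
            exact congrArg Subtype.val hv
          have h2 := hKq.inf_eq_bot.le ⟨h1, v.2⟩
          exact Subtype.ext h2
        have hsurj := LinearMap.surjective_of_injective hinj
        intro v hv
        obtain ⟨w, hw⟩ := hsurj ⟨v, hv⟩
        exact ⟨w, congrArg Subtype.val hw⟩
    rw [hRq]
    exact hKq
  let p : End ℂ M := K.subtype.comp (K.projectionOnto R hcompl)
  have hpK : ∀ w ∈ K, p w = w := by
    intro w hw
    have h1 := Submodule.projectionOnto_apply_left hcompl ⟨w, hw⟩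
    exact congrArg Subtype.val h1
  have hpR : ∀ w ∈ R, p w = 0 := by
    intro w hw
    change K.subtype (K.projectionOnto R hcompl w) = 0
    rw [(Submodule.projectionOnto_apply_eq_zero_iff hcompl).2 hw, map_zero]
  refine ⟨p, fun T hT => ?_, fun f hf => hpK f ((hKm f).2 hf), fun f => ?_⟩
  · refine LinearMap.ext fun v => ?_
    obtain ⟨k, hk, w, hw, rfl⟩ := Submodule.mem_sup.1
      (show v ∈ K ⊔ R by rw [hcompl.sup_eq_top]; trivial)
    rw [Module.End.mul_apply, Module.End.mul_apply, map_add, map_add, map_add, map_add, hpK k hk,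
      hpR w hw]
    have h1 : T k ∈ K := by
      rw [hKm] at hk ⊢
      rw [← Module.End.mul_apply, ← hT, Module.End.mul_apply, hk, map_smul]
    have h2 : T w ∈ R := by
      obtain ⟨x, rfl⟩ := hw
      refine ⟨T x, ?_⟩
      have h3 : (F - c • 1) * T = T * (F - c • 1) := by
        rw [sub_mul, mul_sub, hT, smul_mul_assoc, mul_smul_comm, one_mul, mul_one]
      exact LinearMap.congr_fun h3 x
    rw [hpK _ h1, hpR _ h2, map_zero]
  · exact (hKm _).1 (SetLike.coe_mem (K.projectionOnto R hcompl f))

/-- The projection on the common eigenspace of commuting semisimple endomorphisms. -/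
theorem exists_prs {ι : Type} (s : Finset ι) (F : ι → End ℂ M) (c : ι → ℂ)
    (hF : ∀ i ∈ s, (F i).IsSemisimple) (hc : ∀ i ∈ s, ∀ j ∈ s, F i * F j = F j * F i) :
    ∃ p : End ℂ M, (∀ T : End ℂ M, (∀ i ∈ s, T * F i = F i * T) → T * p = p * T) ∧
      (∀ f, (∀ i ∈ s, F i f = c i • f) → p f = f) ∧ ∀ i ∈ s, ∀ f, F i (p f) = c i • p f := by
  classical
  induction s using Finset.induction_on with
  | empty =>
    refine ⟨1, fun T _ => by rw [mul_one, one_mul], fun f _ => rfl, fun i hi => ?_⟩
    exact absurd hi (Finset.notMem_empty i)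
  | insert a s ha ih =>
    obtain ⟨p, h1, h2, h3⟩ := ih (fun i hi => hF i (Finset.mem_insert_of_mem hi))
      (fun i hi j hj => hc i (Finset.mem_insert_of_mem hi) j (Finset.mem_insert_of_mem hj))
    obtain ⟨q, k1, k2, k3⟩ := exists_pr (hF a (Finset.mem_insert_self _ _)) (c a)
    refine ⟨q * p, fun T hT => ?_, fun f hf => ?_, fun i hi f => ?_⟩
    · rw [← mul_assoc, k1 T (hT a (Finset.mem_insert_self _ _)), mul_assoc,
        h1 T (fun i hi => hT i (Finset.mem_insert_of_mem hi)), mul_assoc]
    · rw [Module.End.mul_apply, h2 f (fun i hi => hf i (Finset.mem_insert_of_mem hi)),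
        k2 f (hf a (Finset.mem_insert_self _ _))]
    · rw [Module.End.mul_apply]
      rcases Finset.mem_insert.1 hi with rfl | hi'
      · exact k3 _
      · have h4 := k1 (F i) (hc i hi a (Finset.mem_insert_self _ _))
        have h5 := LinearMap.congr_fun h4 (p f)
        rw [Module.End.mul_apply, Module.End.mul_apply] at h5
        rw [h5, h3 i hi', map_smul]

end proj

section der

variable {V : Type} [AddCommGroup V] [Module ℂ V] [FiniteDimensional ℂ V] {g : ℕ}

theorem tk_pow (k : Fin g) (z : End ℂ V) (n : ℕ) : tk k (z ^ n) = tk k z ^ n := by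
  induction n with
  | zero => rw [pow_zero, pow_zero, tk_one]
  | succ n ih => rw [pow_succ, pow_succ', ← ih, tk_mul]

theorem tk_aeval (k : Fin g) (z : End ℂ V) (p : ℂ[X]) :
    aeval (tk k z : End ℂ (MF V g)) p = tk k (aeval z p) := by
  have h0 : (tk k (0 : End ℂ V) : End ℂ (MF V g)) = 0 := by
    have h2 := tk_smul (g := g) k (0 : ℂ) (0 : End ℂ V)
    rwa [zero_smul, zero_smul] at h2
  induction p using Polynomial.induction_on' with
  | add p q hp hq => rw [map_add, map_add, hp, hq, tk_add]
  | monomial n c =>
    rw [aeval_monomial, aeval_monomial, Algebra.algebraMap_eq_smul_one,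
      Algebra.algebraMap_eq_smul_one, smul_mul_assoc, smul_mul_assoc, one_mul, one_mul, tk_smul,
      tk_pow]

theorem ss_tk {z : End ℂ V} (hz : z.IsSemisimple) (k : Fin g) :
    (tk k z : End ℂ (MF V g)).IsSemisimple := by
  refine Module.End.isSemisimple_of_squarefree_aeval_eq_zero hz.minpoly_squarefree ?_
  rw [tk_aeval, minpoly.aeval]
  have h2 := tk_smul (g := g) k (0 : ℂ) (0 : End ℂ V)
  rwa [zero_smul, zero_smul] at h2

/-- The derivation of a semisimple endomorphism is semisimple. -/
theorem ss_der {z : End ℂ V} (hz : z.IsSemisimple) : (der z : End ℂ (MF V g)).IsSemisimple := by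
  classical
  rw [der_def]
  have key : ∀ s : Finset (Fin g), (∑ k ∈ s, tk k z : End ℂ (MF V g)).IsSemisimple := by
    intro s
    induction s using Finset.induction_on with
    | empty =>
      rw [Finset.sum_empty]
      exact Module.End.isSemisimple_zero
    | insert a s ha ih =>
      rw [Finset.sum_insert ha]
      refine Module.End.IsSemisimple.add_of_commute ?_ (ss_tk hz a) ih
      refine Commute.sum_right _ _ _ fun k hk => ?_
      have hak : a ≠ k := by
        rintro rfl
        exact ha hk
      exact tk_comm hak z z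
  exact key _

end der

end

end Pool.Agent.V7H7.MS
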