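import Mathlib
import Pool.Agent.N865.GSA
import Pool.Agent.R918.Weyl
import Pool.Agent.V7H7.MS.Der

/-!
# Completely reducible linear Lie algebras
-/

set_option linter.unusedSectionVars false
set_option linter.deprecated false

namespace Pool.Agent.V7H7.MS

open Module LieAlgebra LieModule Pool.Agent.N183.U8 Pool.Agent.N865.GSA

attribute [local instance 100] LieRing.ofAssociativeRing

noncomputable section

variable {V : Type} [AddCommGroup V] [Module ℂ V] [FiniteDimensional ℂ V]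
  {L : Submodule ℂ (End ℂ V)}

/-- The Lie algebra. -/
def LA (L : Submodule ℂ (End ℂ V)) (hBr : Br L) : LieSubalgebra ℂ (End ℂ V) :=
  { L with
    lie_mem' := by
      intro x y hx hy
      rw [LieRing.of_associative_ring_bracket]
      exact hBr x hx y hy }

variable (hBr : Br L) (hCR : CR L)

theorem la_faithful (x : LA L hBr) (hx : ∀ v : V, ⁅x, v⁆ = 0) : x = 0 := by
  apply Subtype.ext
  exact LinearMap.ext fun v => hx v

include hCR in
theorem la_cr (N : LieSubmodule ℂ (LA L hBr) V) :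
    ∃ N' : LieSubmodule ℂ (LA L hBr) V, N ⊓ N' = ⊥ ∧ N ⊔ N' = ⊤ := by
  obtain ⟨W, hW, hW'⟩ := hCR N.toSubmodule (fun A hA u hu =>
    N.lie_mem (x := (⟨A, hA⟩ : LA L hBr)) hu)
  let N' : LieSubmodule ℂ (LA L hBr) V :=
    { W with
      lie_mem := by
        intro x m hm
        exact hW x x.2 m hm }
  refine ⟨N', ?_, ?_⟩
  · apply LieSubmodule.toSubmodule_injective
    have := hW'.inf_eq_bot
    simpa using this
  · apply LieSubmodule.toSubmodule_injective
    have := hW'.sup_eq_top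
    simpa using this

theorem la_trace (x y : LA L hBr) : traceForm ℂ (LA L hBr) V x y =
    LinearMap.trace ℂ V ((x : End ℂ V) * (y : End ℂ V)) := rfl

include hCR in
theorem der_nondeg {x : LA L hBr} (hx : x ∈ Der (LA L hBr))
    (h : ∀ y ∈ Der (LA L hBr), LinearMap.trace ℂ V ((x : End ℂ V) * (y : End ℂ V)) = 0) :
    x = 0 :=
  inf_perp V (la_faithful hBr) (la_cr hBr hCR) (Der (LA L hBr)) x hx
    ((mem_perp V _ x).2 ⟨hx, h⟩)

include hCR in
/-- Functionals on the derived algebra. -/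
theorem exists_der (X : End ℂ V) : ∃ k ∈ Der (LA L hBr), ∀ y ∈ Der (LA L hBr),
    LinearMap.trace ℂ V (X * (y : End ℂ V)) =
      LinearMap.trace ℂ V ((k : End ℂ V) * (y : End ℂ V)) := by
  let D := (Der (LA L hBr)).toSubmodule
  let B : D →ₗ[ℂ] D →ₗ[ℂ] ℂ := LinearMap.mk₂ ℂ (fun x y =>
    LinearMap.trace ℂ V (((x : LA L hBr) : End ℂ V) * ((y : LA L hBr) : End ℂ V)))
    (fun x x' y => by
      rw [← map_add, ← add_mul]
      rfl)
    (fun c x y => by
      rw [← map_smul, ← smul_mul_assoc]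
      rfl)
    (fun x y y' => by
      rw [← map_add, ← mul_add]
      rfl)
    (fun c x y => by
      rw [← map_smul, ← mul_smul_comm]
      rfl)
  have hB : ∀ x y, B x y =
    LinearMap.trace ℂ V (((x : LA L hBr) : End ℂ V) * ((y : LA L hBr) : End ℂ V)) := fun _ _ => rfl
  have hinj : Function.Injective B := by
    rw [← LinearMap.ker_eq_bot, LinearMap.ker_eq_bot']
    intro x hx
    refine Subtype.ext (der_nondeg hBr hCR x.2 fun y hy => ?_)
    exact LinearMap.congr_fun hx ⟨y, hy⟩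
  have hsurj : Function.Surjective B := by
    have : finrank ℂ D = finrank ℂ (D →ₗ[ℂ] ℂ) :=
      (Subspace.dual_finrank_eq (K := ℂ) (V := D)).symm
    exact (LinearMap.injective_iff_surjective_of_finrank_eq_finrank this).1 hinj
  let F : D →ₗ[ℂ] ℂ := (LinearMap.trace ℂ V) ∘ₗ (LinearMap.mulLeft ℂ X) ∘ₗ
    (LA L hBr).toSubmodule.subtype ∘ₗ D.subtype
  obtain ⟨k, hk⟩ := hsurj F
  refine ⟨k, k.2, fun y hy => ?_⟩
  have h1 := LinearMap.congr_fun hk ⟨y, hy⟩
  exact h1.symm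

theorem trace_lie (a b c : End ℂ V) : LinearMap.trace ℂ V ((a * b - b * a) * c) =
    LinearMap.trace ℂ V (a * (b * c - c * b)) := by
  rw [sub_mul, mul_sub, map_sub, map_sub, mul_assoc, mul_assoc, LinearMap.trace_mul_comm ℂ b,
    mul_assoc]

include hCR in
/-- The Lie algebra is the sum of its centre and the derived algebra. -/
theorem center_add_der (x : LA L hBr) : ∃ z : LA L hBr, ∃ d ∈ Der (LA L hBr), x = z + d ∧
    ∀ y : LA L hBr, ⁅z, y⁆ = 0 := by
  obtain ⟨k, hk, hk'⟩ := exists_der hBr hCR (x : End ℂ V)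
  refine ⟨x - k, k, hk, by abel, fun y => ?_⟩
  refine der_nondeg hBr hCR (LieSubmodule.lie_mem_lie (LieSubmodule.mem_top _)
    (LieSubmodule.mem_top _)) fun d hd => ?_
  have h1 : ⁅y, d⁆ ∈ Der (LA L hBr) := lie_mem_right ℂ _ _ y d hd
  have h2 := hk' _ h1
  have h3 : ((⁅x - k, y⁆ : LA L hBr) : End ℂ V) =
      ((x : End ℂ V) - (k : End ℂ V)) * (y : End ℂ V) -
        (y : End ℂ V) * ((x : End ℂ V) - (k : End ℂ V)) := rfl
  have h4 : ((⁅y, d⁆ : LA L hBr) : End ℂ V) =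
      (y : End ℂ V) * (d : End ℂ V) - (d : End ℂ V) * (y : End ℂ V) := rfl
  rw [h3, trace_lie, ← h4, sub_mul, map_sub, h2, sub_self]

include hCR in
/-- The derived algebra is semisimple. -/
theorem der_radical : HasTrivialRadical ℂ (Der (LA L hBr)) := by
  rw [hasTrivialRadical_iff_no_abelian_ideals]
  intro A hA
  let J : LieIdeal ℂ (LA L hBr) :=
    { carrier := {x | ∃ h : x ∈ Der (LA L hBr), (⟨x, h⟩ : Der (LA L hBr)) ∈ A}
      add_mem' := by
        rintro x y ⟨hx, hx'⟩ ⟨hy, hy'⟩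
        exact ⟨add_mem hx hy, add_mem hx' hy'⟩
      zero_mem' := ⟨zero_mem _, zero_mem A⟩
      smul_mem' := by
        rintro c x ⟨hx, hx'⟩
        exact ⟨(Der (LA L hBr)).smul_mem c hx, A.smul_mem c hx'⟩
      lie_mem := by
        rintro x m ⟨hm, hm'⟩
        obtain ⟨z, d, hd, rfl, hz⟩ := center_add_der hBr hCR x
        refine ⟨lie_mem_right ℂ _ _ _ m hm, ?_⟩
        have h1 : ⁅z + d, m⁆ = ⁅d, m⁆ := by rw [add_lie, hz, zero_add]
        have h2 : (⟨⁅z + d, m⁆, lie_mem_right ℂ _ _ _ m hm⟩ : Der (LA L hBr)) =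
            ⁅(⟨d, hd⟩ : Der (LA L hBr)), (⟨m, hm⟩ : Der (LA L hBr))⁆ := Subtype.ext h1
        rw [h2]
        exact A.lie_mem hm' }
  have hJ : ∀ x, x ∈ J ↔ ∃ h : x ∈ Der (LA L hBr), (⟨x, h⟩ : Der (LA L hBr)) ∈ A := fun _ => Iff.rfl
  have hJab : IsLieAbelian J := by
    refine ⟨fun x y => ?_⟩
    obtain ⟨x, hx⟩ := x
    obtain ⟨y, hy⟩ := y
    obtain ⟨hx1, hx2⟩ := (hJ x).1 hx
    obtain ⟨hy1, hy2⟩ := (hJ y).1 hy
    have h1 := hA.trivial (⟨⟨x, hx1⟩, hx2⟩ : A) (⟨⟨y, hy1⟩, hy2⟩ : A)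
    have h2 := congrArg (fun a : A => (((a : Der (LA L hBr)) : LA L hBr))) h1
    exact Subtype.ext h2
  have hJs : IsSolvable J := LieAlgebra.ofAbelianIsSolvable J
  have h1 := solvable_ideal_zero V (la_faithful hBr) (la_cr hBr hCR) J (fun x hx => ((hJ x).1 hx).1)
  rw [LieSubmodule.eq_bot_iff]
  intro m hm
  exact Subtype.ext (h1 (m : LA L hBr) ((hJ _).2 ⟨m.2, hm⟩))

end

end Pool.Agent.V7H7.MS
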