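import Mathlib
import Pool.Agent.V7H7.MS.Red
import Pool.Agent.V7H7.MS.Fil
import Pool.Agent.V7H7.MS.Pz

/-!
# Equivariant projections
-/

set_option linter.unusedSectionVars false
set_option linter.deprecated false

namespace Pool.Agent.V7H7.MS

open Module LieAlgebra LieModule Pool.Agent.N183.U8 Pool.Agent.N865.GSA

attribute [local instance 100] LieRing.ofAssociativeRing

noncomputable section

variable {V : Type} [AddCommGroup V] [Module ℂ V] [FiniteDimensional ℂ V]
  {L : Submodule ℂ (End ℂ V)} {g : ℕ}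

/-- The representation on the forms. -/
def repD (hBr : Br L) (g : ℕ) : Der (LA L hBr) →ₗ⁅ℂ⁆ End ℂ (MF V g) :=
  { toFun := fun x => -der ((x : LA L hBr) : End ℂ V)
    map_add' := by
      intro x y
      rw [← neg_add, ← map_add]
      rfl
    map_smul' := by
      intro c x
      rw [RingHom.id_apply, smul_neg, ← map_smul]
      rfl
    map_lie' := by
      intro x y
      have h1 := der_bracket (g := g) ((x : LA L hBr) : End ℂ V) ((y : LA L hBr) : End ℂ V)
      have h2 : (((⁅x, y⁆ : Der (LA L hBr)) : LA L hBr) : End ℂ V) =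
          ((x : LA L hBr) : End ℂ V) * ((y : LA L hBr) : End ℂ V) -
            ((y : LA L hBr) : End ℂ V) * ((x : LA L hBr) : End ℂ V) := rfl
      change -der (((⁅x, y⁆ : Der (LA L hBr)) : LA L hBr) : End ℂ V) =
        (-der ((x : LA L hBr) : End ℂ V)) * (-der ((y : LA L hBr) : End ℂ V)) -
          (-der ((y : LA L hBr) : End ℂ V)) * (-der ((x : LA L hBr) : End ℂ V))
      have h3 : ∀ a c : End ℂ (MF V g), a * c - c * a = (-a) * (-c) - (-c) * (-a) := by
        intro a c
        refine LinearMap.ext fun f => ?_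
        simp only [LinearMap.sub_apply, Module.End.mul_apply, LinearMap.neg_apply, map_neg,
          neg_neg]
      refine Eq.trans ?_ (h3 _ _)
      rw [h1, h2, ← map_neg, neg_sub] }

/-- Equivariant projections for the derived algebra. -/
theorem weyl_der (hBr : Br L) (hCR : CR L) (N : Submodule ℂ (MF V g))
    (hN : ∀ X ∈ L, ∀ f ∈ N, der X f ∈ N) : ∃ π : End ℂ (MF V g),
      (∀ x ∈ Der (LA L hBr), ∀ f, π (der (x : End ℂ V) f) = der (x : End ℂ V) (π f)) ∧
        (∀ f, π f ∈ N) ∧ ∀ f ∈ N, π f = f := by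
  let i1 : LieRingModule (Der (LA L hBr)) (MF V g) :=
    LieRingModule.compLieHom (MF V g) (repD hBr g)
  let i2 : LieModule ℂ (Der (LA L hBr)) (MF V g) := LieModule.compLieHom (MF V g) (repD hBr g)
  have := der_radical hBr hCR
  have hact : ∀ (x : Der (LA L hBr)) (f : MF V g),
      ⁅x, f⁆ = -der ((x : LA L hBr) : End ℂ V) f := fun x f => rfl
  let N' : LieSubmodule ℂ (Der (LA L hBr)) (MF V g) :=
    { N with
      lie_mem := by
        intro x f hf
        rw [hact]
        exact N.neg_mem (hN _ (x : LA L hBr).2 f hf) }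
  obtain ⟨π, h1, h2, h3⟩ := Pool.Agent.R918.Weyl.exists_projection (K := ℂ)
    (L := Der (LA L hBr)) (M := MF V g) N'
  refine ⟨π, fun x hx f => ?_, h2, h3⟩
  have h4 := h1 ⟨x, hx⟩ f
  rw [hact, hact, map_neg] at h4
  exact neg_injective h4

/-- The central elements of the Lie algebra. -/
def Zc (L : Submodule ℂ (End ℂ V)) : Submodule ℂ (End ℂ V) where
  carrier := {z | z ∈ L ∧ ∀ X ∈ L, z * X = X * z}
  add_mem' := by
    rintro a b ⟨h1, h2⟩ ⟨h3, h4⟩
    exact ⟨L.add_mem h1 h3, fun X hX => by rw [add_mul, mul_add, h2 X hX, h4 X hX]⟩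
  zero_mem' := ⟨L.zero_mem, fun X _ => by rw [zero_mul, mul_zero]⟩
  smul_mem' := by
    rintro c a ⟨h1, h2⟩
    exact ⟨L.smul_mem c h1, fun X hX => by rw [smul_mul_assoc, mul_smul_comm, h2 X hX]⟩

/-- A nilpotent endomorphism which commutes with `L` and with the commutant of `L` is zero. -/
theorem nil_zero (hCR : CR L) {C : End ℂ V} (hn : IsNilpotent C) (h1 : ∀ X ∈ L, C * X = X * C)
    (h2 : ∀ a : End ℂ V, (∀ X ∈ L, a * X = X * a) → C * a = a * C) : C = 0 := by
  obtain ⟨U, hU, hU'⟩ := hCR (LinearMap.ker C) (fun A hA u hu => by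
    rw [LinearMap.mem_ker] at hu ⊢
    rw [← Module.End.mul_apply, h1 A hA, Module.End.mul_apply, hu, map_zero])
  set K := LinearMap.ker C with hK
  have hKs : ∀ A ∈ L, ∀ u ∈ K, A u ∈ K := fun A hA u hu => by
    rw [hK, LinearMap.mem_ker] at hu ⊢
    rw [← Module.End.mul_apply, h1 A hA, Module.End.mul_apply, hu, map_zero]
  let p : End ℂ V := K.subtype.comp (K.projectionOnto U hU')
  have hpK : ∀ w ∈ K, p w = w := by
    intro w hw
    have h1 := Submodule.projectionOnto_apply_left hU' ⟨w, hw⟩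
    exact congrArg Subtype.val h1
  have hpU : ∀ w ∈ U, p w = 0 := by
    intro w hw
    change K.subtype (K.projectionOnto U hU' w) = 0
    rw [(Submodule.projectionOnto_apply_eq_zero_iff hU').2 hw, map_zero]
  have hpk : ∀ w, p w = 0 → w ∈ U := by
    intro w hw
    have h3 : K.projectionOnto U hU' w = 0 := Subtype.ext hw
    exact (Submodule.projectionOnto_apply_eq_zero_iff hU').1 h3
  have hp : ∀ X ∈ L, p * X = X * p := by
    intro X hX
    refine LinearMap.ext fun v => ?_
    obtain ⟨k, hk, w, hw, rfl⟩ := Submodule.mem_sup.1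
      (show v ∈ K ⊔ U by rw [hU'.sup_eq_top]; trivial)
    rw [Module.End.mul_apply, Module.End.mul_apply, map_add, map_add, map_add, map_add, hpK k hk,
      hpU w hw, hpK _ (hKs X hX k hk), hpU _ (hU X hX w hw), map_zero]
  have hpC := h2 p hp
  have hCU : ∀ w ∈ U, C w ∈ U := by
    intro w hw
    apply hpk
    rw [← Module.End.mul_apply, ← hpC, Module.End.mul_apply, hpU w hw, map_zero]
  have hU0 : ∀ w ∈ U, w = 0 := by
    obtain ⟨n, hn⟩ := hn
    have h3 : ∀ n : ℕ, ∀ w ∈ U, (C ^ n) w = 0 → w = 0 := by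
      intro n
      induction n with
      | zero =>
        intro w _ h
        rwa [pow_zero, Module.End.one_apply] at h
      | succ n ih =>
        intro w hw h
        rw [pow_succ, Module.End.mul_apply] at h
        have h4 := ih (C w) (hCU w hw) h
        have h5 := hU'.inf_eq_bot.le ⟨(LinearMap.mem_ker.2 h4 : w ∈ K), hw⟩
        exact h5
    exact fun w hw => h3 n w hw (by rw [hn, LinearMap.zero_apply])
  refine LinearMap.ext fun v => ?_
  obtain ⟨k, hk, w, hw, rfl⟩ := Submodule.mem_sup.1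
    (show v ∈ K ⊔ U by rw [hU'.sup_eq_top]; trivial)
  rw [hU0 w hw, add_zero, LinearMap.zero_apply]
  exact LinearMap.mem_ker.1 hk

open Algebra in
/-- An endomorphism which commutes with `L` and with the commutant of `L` is semisimple. -/
theorem ss_of_central (hCR : CR L) {C : End ℂ V} (h1 : ∀ X ∈ L, C * X = X * C)
    (h2 : ∀ a : End ℂ V, (∀ X ∈ L, a * X = X * a) → C * a = a * C) : C.IsSemisimple := by
  obtain ⟨n, hn, s, hs, hnil, hss, hC⟩ := C.exists_isNilpotent_isSemisimple
  have key : ∀ T : End ℂ V, C * T = T * C → n * T = T * n := by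
    intro T hT
    exact (commute_of_mem_adjoin_singleton_of_commute hn (show Commute T C from hT.symm)).symm
  have h3 : n = 0 := nil_zero hCR hnil (fun X hX => key X (h1 X hX)) fun a ha => key a (h2 a ha)
  rw [hC, h3, zero_add]
  exact hss

/-- The projection on the common eigenspace of the centre. -/
theorem exists_pz (hCR : CR L) {N : Submodule ℂ (MF V g)} {u : MF V g}
    (hz : ∀ z ∈ Zc L, ∃ c : ℂ, ∀ f ∈ N, der z f = c • f) (hu : u ∈ N) :
    ∃ p : End ℂ (MF V g), (∀ X ∈ L, der X * p = p * der X) ∧ p u = u ∧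
      ∀ z ∈ Zc L, ∃ c : ℂ, (∀ f ∈ N, der z f = c • f) ∧ ∀ f, der z (p f) = c • p f := by
  classical
  have hss : ∀ z ∈ Zc L, z.IsSemisimple := fun z hz =>
    ss_of_central hCR hz.2 fun a ha => (ha z hz.1).symm
  let bz := Module.finBasis ℂ (Zc L)
  choose c hc using hz
  obtain ⟨p, k1, k2, k3⟩ := exists_prs (M := MF V g) (Finset.univ : Finset (Fin (finrank ℂ (Zc L))))
    (fun i => der (bz i : End ℂ V)) (fun i => c (bz i) (bz i).2)
    (fun i _ => ss_der (hss _ (bz i).2)) (fun i _ j _ => by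
      have h4 := der_bracket (g := g) (bz i : End ℂ V) (bz j : End ℂ V)
      rw [(bz j).2.2 _ (bz i).2.1, sub_self, map_zero] at h4
      exact sub_eq_zero.1 h4)
  refine ⟨p, fun X hX => k1 _ fun i _ => ?_, k2 u fun i _ => hc _ _ u hu, fun z hz => ?_⟩
  · have h4 := der_bracket (g := g) X (bz i : End ℂ V)
    rw [(bz i).2.2 _ hX, sub_self, map_zero] at h4
    exact sub_eq_zero.1 h4
  · have h4 : z ∈ Submodule.span ℂ (Set.range fun i => (bz i : End ℂ V)) := by
      have h5 : Submodule.span ℂ (Set.range fun i => (bz i : End ℂ V)) =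
          (Submodule.span ℂ (Set.range bz)).map (Zc L).subtype := by
        rw [Submodule.map_span, ← Set.range_comp]
        rfl
      rw [h5, bz.span_eq]
      exact ⟨⟨z, hz⟩, trivial, rfl⟩
    clear hz
    induction h4 using Submodule.span_induction with
    | mem w hw =>
      obtain ⟨i, rfl⟩ := hw
      exact ⟨c (bz i) (bz i).2, hc _ _, fun f => k3 i (Finset.mem_univ i) f⟩
    | zero =>
      exact ⟨0, fun f _ => by rw [map_zero, zero_smul, LinearMap.zero_apply],
        fun f => by rw [map_zero, zero_smul, LinearMap.zero_apply]⟩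
    | add a b _ _ ha hb =>
      obtain ⟨ca, ha1, ha2⟩ := ha
      obtain ⟨cb, hb1, hb2⟩ := hb
      exact ⟨ca + cb, fun f hf => by rw [map_add, LinearMap.add_apply, ha1 f hf, hb1 f hf, add_smul],
        fun f => by rw [map_add, LinearMap.add_apply, ha2, hb2, add_smul]⟩
    | smul r a _ ha =>
      obtain ⟨ca, ha1, ha2⟩ := ha
      exact ⟨r * ca, fun f hf => by rw [map_smul, LinearMap.smul_apply, ha1 f hf, smul_smul],
        fun f => by rw [map_smul, LinearMap.smul_apply, ha2, smul_smul]⟩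

/-- **Equivariant projections** on the module generated by the determinant form. -/
theorem exists_pi (hBr : Br L) (hCR : CR L) {N : Submodule ℂ (MF V g)} {u : MF V g}
    (hN : ∀ X ∈ L, ∀ f ∈ N, der X f ∈ N)
    (hz : ∀ z ∈ Zc L, ∃ c : ℂ, ∀ f ∈ N, der z f = c • f) (hu : u ∈ N) :
    ∃ π : End ℂ (MF V g), (∀ X ∈ L, π * der X = der X * π) ∧ (∀ f, π f ∈ N) ∧ π u = u := by
  obtain ⟨ps, h1, h2, h3⟩ := weyl_der (g := g) hBr hCR N hN
  obtain ⟨p, hpX, hpu, hpz⟩ := exists_pz hCR hz hu
  refine ⟨ps * p, fun X hX => ?_, fun f => h2 _, by rw [Module.End.mul_apply, hpu, h3 u hu]⟩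
  obtain ⟨z, d, hd, hzd, hzc⟩ := center_add_der hBr hCR ⟨X, hX⟩
  have hzZ : (z : End ℂ V) ∈ Zc L := by
    refine ⟨z.2, fun Y hY => ?_⟩
    have h4 := congrArg (fun y : LA L hBr => (y : End ℂ V)) (hzc ⟨Y, hY⟩)
    exact sub_eq_zero.1 h4
  have hX' : X = (z : End ℂ V) + (d : End ℂ V) :=
    congrArg (fun y : LA L hBr => (y : End ℂ V)) hzd
  have hd' : ∀ f, ps (p (der (d : End ℂ V) f)) = der (d : End ℂ V) (ps (p f)) := by
    intro f
    rw [← h1 d hd, ← Module.End.mul_apply p, ← hpX _ d.2, Module.End.mul_apply]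
  have hz' : ∀ f, ps (p (der (z : End ℂ V) f)) = der (z : End ℂ V) (ps (p f)) := by
    intro f
    obtain ⟨c, hc1, hc2⟩ := hpz _ hzZ
    rw [hc1 _ (h2 _), ← Module.End.mul_apply p, ← hpX _ z.2, Module.End.mul_apply, hc2, map_smul]
  refine LinearMap.ext fun f => ?_
  rw [Module.End.mul_apply, Module.End.mul_apply, Module.End.mul_apply, Module.End.mul_apply, hX',
    map_add, LinearMap.add_apply, LinearMap.add_apply, map_add, map_add, hd', hz']

end

end Pool.Agent.V7H7.MS
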