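import Mathlib
import Pool.Agent.V7H7.MS.Wey

/-!
# Extremal vectors in the middle exterior power
-/

set_option linter.unusedSectionVars false
set_option linter.deprecated false

namespace Pool.Agent.V7H7.MS

open Module LieAlgebra LieModule Pool.Agent.N183.U8 Pool.Agent.N865.GSA

attribute [local instance 100] LieRing.ofAssociativeRing

noncomputable section

variable {V : Type} [AddCommGroup V] [Module ℂ V] [FiniteDimensional ℂ V]
  {L : Submodule ℂ (End ℂ V)} {g : ℕ}

/-- Endomorphisms whose derivations commute with the endomorphisms of the `L`-module of the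
antisymmetric forms. -/
def Bic (L : Submodule ℂ (End ℂ V)) (g : ℕ) (X : End ℂ V) : Prop :=
  ∀ T : End ℂ (MF V g), (∀ Y ∈ L, T * der Y = der Y * T) → (∀ f, T f ∈ Wg V g) →
    ∀ f ∈ Wg V g, T (der X f) = der X (T f)

theorem bic_of_mem {X : End ℂ V} (hX : X ∈ L) : Bic L g X := by
  intro T hT _ f _
  exact LinearMap.congr_fun (hT X hX) f

/-- The components of the elements of `L`. -/
theorem comp_mem (hBr : Br L) {e : End ℂ V} (he : e * e = e) (heL : (2 : ℂ) • e - 1 ∈ L) :
    ∀ X ∈ L, e * X * (1 - e) ∈ L ∧ (1 - e) * X * e ∈ L := by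
  have h1 : ∀ X ∈ L, e * X - X * e ∈ L := by
    intro X hX
    have h2 := hBr _ heL X hX
    have h3 : e * X - X * e = (1 / 2 : ℂ) • (((2 : ℂ) • e - 1) * X - X * ((2 : ℂ) • e - 1)) := by
      rw [sub_mul, mul_sub, one_mul, mul_one, smul_mul_assoc, mul_smul_comm]
      module
    rw [h3]
    exact L.smul_mem _ h2
  intro X hX
  have h2 := h1 X hX
  have h3 := h1 _ h2
  have e1 : e * X - X * e = e * X * (1 - e) - (1 - e) * X * e := by
    noncomm_ring
  have e2 : e * (e * X - X * e) - (e * X - X * e) * e = e * X * (1 - e) + (1 - e) * X * e := by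
    have h4 : e * (e * X) = e * X := by rw [← mul_assoc, he]
    have h5 : X * e * e = X * e := by rw [mul_assoc, he]
    rw [mul_sub, sub_mul, h4, h5]
    noncomm_ring
  rw [e2] at h3
  rw [e1] at h2
  constructor
  · have h6 : e * X * (1 - e) = (1 / 2 : ℂ) • ((e * X * (1 - e) - (1 - e) * X * e) +
        (e * X * (1 - e) + (1 - e) * X * e)) := by module
    rw [h6]
    exact L.smul_mem _ (L.add_mem h2 h3)
  · have h6 : (1 - e) * X * e = (1 / 2 : ℂ) • ((e * X * (1 - e) + (1 - e) * X * e) -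
        (e * X * (1 - e) - (1 - e) * X * e)) := by module
    rw [h6]
    exact L.smul_mem _ (L.sub_mem h3 h2)

theorem zc_comm {e : End ℂ V} (heL : (2 : ℂ) • e - 1 ∈ L) {z : End ℂ V} (hz : z ∈ Zc L) :
    z * e = e * z := by
  have h1 := hz.2 _ heL
  rw [mul_sub, sub_mul, mul_one, one_mul, mul_smul_comm, smul_mul_assoc, sub_left_inj] at h1
  exact smul_right_injective _ (two_ne_zero : (2 : ℂ) ≠ 0) h1

/-- The centre acts by scalars on the module generated by the determinant form. -/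
theorem zc_scalar {e : End ℂ V} (he : e * e = e) (heL : (2 : ℂ) • e - 1 ∈ L)
    (b : Basis (Fin g) ℂ (LinearMap.range e)) {z : End ℂ V} (hz : z ∈ Zc L) :
    ∃ c : ℂ, ∀ f ∈ ⨆ k, Fk L e b k, der z f = c • f := by
  obtain ⟨c, hc⟩ := der_u0_comm b he (zc_comm heL hz)
  refine ⟨c, ?_⟩
  have key : ∀ k, ∀ f ∈ Fk L e b k, der z f = c • f := by
    intro k
    induction k with
    | zero =>
      intro f hf
      obtain ⟨d, rfl⟩ := Submodule.mem_span_singleton.1 hf
      rw [map_smul, hc, smul_comm]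
    | succ k ih =>
      intro f hf
      have h1 : Fk L e b (k + 1) ≤ LinearMap.ker (der z - c • 1) := by
        refine Fk_ind b fun Y hY f' hf' => ?_
        rw [LinearMap.mem_ker, LinearMap.sub_apply, LinearMap.smul_apply, Module.End.one_apply,
          der_swap, ih f' hf', ← hz.2 Y hY.1, sub_self, map_zero, LinearMap.zero_apply, add_zero,
          map_smul, sub_self]
      have h2 := h1 hf
      rw [LinearMap.mem_ker, LinearMap.sub_apply, LinearMap.smul_apply, Module.End.one_apply,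
        sub_eq_zero] at h2
      exact h2
  intro f hf
  have h1 : (⨆ k, Fk L e b k) ≤ LinearMap.ker (der z - c • 1) := by
    refine iSup_le fun k f hf => ?_
    rw [LinearMap.mem_ker, LinearMap.sub_apply, LinearMap.smul_apply, Module.End.one_apply,
      key k f hf, sub_self]
  have h2 := h1 hf
  rw [LinearMap.mem_ker, LinearMap.sub_apply, LinearMap.smul_apply, Module.End.one_apply,
    sub_eq_zero] at h2
  exact h2

/-- **Extremal vectors.** -/
theorem extremal (hBr : Br L) (hCR : CR L) {e : End ℂ V} (he : e * e = e)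
    (heL : (2 : ℂ) • e - 1 ∈ L) (hg : finrank ℂ (LinearMap.range e) = g) {X : End ℂ V}
    (hX : Bic L g X) : e * X * (1 - e) ∈ L := by
  let b : Basis (Fin g) ℂ (LinearMap.range e) := Module.finBasisOfFinrankEq ℂ _ hg
  have hst : ∀ Y ∈ L, ∀ f ∈ ⨆ k, Fk L e b k, der Y f ∈ ⨆ k, Fk L e b k := fun Y hY =>
    Fk_stable b he hBr (comp_mem hBr he heL) hY
  have hu : u0 e b ∈ ⨆ k, Fk L e b k := Submodule.mem_iSup_of_mem 0 (u0_Fk b)
  obtain ⟨π, h1, h2, h3⟩ := exists_pi hBr hCR hst (fun z hz => zc_scalar he heL b hz) hu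
  have hW : (⨆ k, Fk L e b k) ≤ Wg V g := iSup_le fun k => Fk_mem b he k
  have h4 := hX π h1 (fun f => hW (h2 f)) (u0 e b) (u0_mem e b)
  rw [h3] at h4
  have h5 : der X (u0 e b) ∈ ⨆ k, Fk L e b k := by
    rw [← h4]
    exact h2 _
  have h6 : X = e * X * e + e * X * (1 - e) + (1 - e) * X := by noncomm_ring
  obtain ⟨c, hc⟩ := der_u0_comm (g := g) b he (X := e * X * e) (by
    rw [mul_assoc, he, ← mul_assoc, ← mul_assoc, he])
  have h7 : der ((1 - e) * X) (u0 e b) = 0 := der_u0_zero b he (by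
    rw [← mul_assoc, mul_sub, mul_one, he, sub_self, zero_mul])
  refine up_of_mem b he (Y := e * X * (1 - e)) ?_ ?_ ?_
  · rw [← mul_assoc, ← mul_assoc, he]
  · rw [mul_assoc, sub_mul, one_mul, he, sub_self, mul_zero]
  · have h8 : der (e * X * (1 - e)) (u0 e b) = der X (u0 e b) - c • u0 e b := by
      conv_rhs => rw [h6]
      rw [map_add, map_add, LinearMap.add_apply, LinearMap.add_apply, hc, h7]
      abel
    rw [h8]
    exact Submodule.sub_mem _ h5 (Submodule.smul_mem _ _ hu)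

/-- The idempotent of an involution. -/
def ed (D : End ℂ V) : End ℂ V := (1 / 2 : ℂ) • (1 + D)

theorem ed_sq {D : End ℂ V} (hD : D * D = 1) : ed D * ed D = ed D := by
  unfold ed
  rw [smul_mul_smul_comm, mul_add, add_mul, add_mul, hD, one_mul, mul_one, one_mul]
  module

theorem ed_two (D : End ℂ V) : (2 : ℂ) • ed D - 1 = D := by
  unfold ed
  module

theorem one_sub_ed (D : End ℂ V) : 1 - ed D = ed (-D) := by
  unfold ed
  module

/-- The bracket with an involution. -/
theorem inv_bracket (hBr : Br L) (hCR : CR L) {D : End ℂ V} (hD : D * D = 1) (hDL : D ∈ L)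
    (h1 : finrank ℂ (LinearMap.range (ed D)) = g) (h2 : finrank ℂ (LinearMap.range (ed (-D))) = g)
    {X : End ℂ V} (hX : Bic L g X) : D * X - X * D ∈ L := by
  have h3 := extremal hBr hCR (ed_sq hD) (by rw [ed_two]; exact hDL) h1 hX
  have hD' : (-D) * (-D) = 1 := by rw [neg_mul_neg, hD]
  have h4 := extremal hBr hCR (ed_sq hD') (by rw [ed_two]; exact L.neg_mem hDL) h2 hX
  have h5 : D * X - X * D = (2 : ℂ) • (ed D * X * (1 - ed D) - ed (-D) * X * (1 - ed (-D))) := by
    rw [one_sub_ed, one_sub_ed, neg_neg]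
    have h6 : D = ed D - ed (-D) := by
      unfold ed
      module
    have h7 : ed D + ed (-D) = 1 := by
      rw [← one_sub_ed]
      abel
    have h8 : ed (-D) = 1 - ed D := (one_sub_ed D).symm
    conv_lhs => rw [h6, h8]
    rw [h8]
    have h9 : (ed D - (1 - ed D)) * X - X * (ed D - (1 - ed D)) =
        (2 : ℂ) • (ed D * X - X * ed D) := by
      rw [two_smul]
      noncomm_ring
    rw [h9]
    congr 1
    noncomm_ring
  rw [h5]
  exact L.smul_mem _ (L.sub_mem h3 h4)

variable {S : Set (End ℂ V)}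

/-- `L` is an ideal. -/
theorem ideal (hBr : Br L) (hCR : CR L) (hSL : ∀ D ∈ S, D ∈ L)
    (hgen : ∀ L' : Submodule ℂ (End ℂ V), Br L' → (∀ D ∈ S, D ∈ L') → L ≤ L')
    (hS : ∀ D ∈ S, D * D = 1 ∧ finrank ℂ (LinearMap.range (ed D)) = g ∧
      finrank ℂ (LinearMap.range (ed (-D))) = g) {Y X : End ℂ V} (hY : Y ∈ L)
    (hX : Bic L g X) : Y * X - X * Y ∈ L := by
  let M : Submodule ℂ (End ℂ V) :=
    { carrier := {Y | ∀ X, Bic L g X → Y * X - X * Y ∈ L}
      add_mem' := by
        intro a c ha hc X hX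
        rw [add_mul, mul_add, add_sub_add_comm]
        exact L.add_mem (ha X hX) (hc X hX)
      zero_mem' := by
        intro X _
        rw [zero_mul, mul_zero, sub_zero]
        exact L.zero_mem
      smul_mem' := by
        intro c a ha X hX
        rw [smul_mul_assoc, mul_smul_comm, ← smul_sub]
        exact L.smul_mem c (ha X hX) }
  have hM : ∀ Y, Y ∈ M ↔ ∀ X, Bic L g X → Y * X - X * Y ∈ L := fun _ => Iff.rfl
  have h1 : L ≤ M := by
    refine hgen M (fun A hA B hB => ?_) (fun D hD X hX => ?_)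
    · rw [hM] at hA hB ⊢
      intro X hX
      have h2 := hA _ (bic_of_mem (g := g) (hB X hX))
      have h3 := hB _ (bic_of_mem (g := g) (hA X hX))
      have h4 : (A * B - B * A) * X - X * (A * B - B * A) =
          (A * (B * X - X * B) - (B * X - X * B) * A) -
            (B * (A * X - X * A) - (A * X - X * A) * B) := by noncomm_ring
      rw [h4]
      exact L.sub_mem h2 h3
    · obtain ⟨k1, k2, k3⟩ := hS D hD
      exact inv_bracket hBr hCR k1 (hSL D hD) k2 k3 hX
  exact h1 hY X hX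

/-- An endomorphism which commutes with `L` and with its commutant, and is orthogonal to the
commutant, is zero. -/
theorem zero_of_trace (hCR : CR L) {C : End ℂ V} (h1 : ∀ X ∈ L, C * X = X * C)
    (h2 : ∀ a : End ℂ V, (∀ X ∈ L, a * X = X * a) → C * a = a * C)
    (h3 : ∀ a : End ℂ V, (∀ X ∈ L, a * X = X * a) → LinearMap.trace ℂ V (a * C) = 0) :
    C = 0 := by
  have hss := ss_of_central hCR h1 h2
  rw [Module.End.IsSemisimple.eq_zero_iff_forall_eigenvalue hss]
  intro μ hμ
  obtain ⟨p, p1, p2, p3⟩ := exists_pr hss μ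
  have h4 := h3 p (fun X hX => (p1 X (h1 X hX).symm).symm)
  have h5 : C * p = μ • p := LinearMap.ext p3
  have h6 : p * C = C * p := (p1 C rfl).symm
  rw [h6, h5, map_smul, smul_eq_mul] at h4
  rcases mul_eq_zero.1 h4 with h | h
  · exact h
  exfalso
  have hproj : LinearMap.IsProj (C.eigenspace μ) p := by
    refine ⟨fun x => ?_, fun x hx => ?_⟩
    · rw [Module.End.mem_eigenspace_iff]
      exact p3 x
    · exact p2 x (Module.End.mem_eigenspace_iff.1 hx)
  rw [hproj.trace] at h
  have h7 : 0 < finrank ℂ (C.eigenspace μ) := by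
    rw [Module.finrank_pos_iff]
    exact (Submodule.nontrivial_iff_ne_bot).2 hμ
  have h8 : finrank ℂ (C.eigenspace μ) = 0 := by exact_mod_cast h
  omega

theorem der_ind (hBr : Br L) {p : End ℂ V → Prop} (h0 : p 0)
    (hadd : ∀ a c, p a → p c → p (a + c)) (hsmul : ∀ (r : ℂ) a, p a → p (r • a))
    (hbr : ∀ a ∈ L, ∀ c ∈ L, p (a * c - c * a)) (x : LA L hBr) (hx : x ∈ Der (LA L hBr)) :
    p (x : End ℂ V) := by
  replace hx : x ∈ Submodule.span ℂ {m | ∃ u v : LA L hBr, ⁅u, v⁆ = m} := by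
    rw [← LieSubmodule.mem_toSubmodule, LieSubmodule.lieIdeal_oper_eq_linear_span'] at hx
    simpa using hx
  induction hx using Submodule.span_induction with
  | mem x hx =>
    obtain ⟨u, v, rfl⟩ := hx
    exact hbr u u.2 v v.2
  | zero => exact h0
  | add a c _ _ ha hc => exact hadd _ _ ha hc
  | smul r a _ ha => exact hsmul r _ ha

/-- **The core.** -/
theorem core (hBr : Br L) (hCR : CR L) (hSL : ∀ D ∈ S, D ∈ L)
    (hgen : ∀ L' : Submodule ℂ (End ℂ V), Br L' → (∀ D ∈ S, D ∈ L') → L ≤ L')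
    (hS : ∀ D ∈ S, D * D = 1 ∧ finrank ℂ (LinearMap.range (ed D)) = g ∧
      finrank ℂ (LinearMap.range (ed (-D))) = g) {N D₀ : End ℂ V} (hD₀ : D₀ ∈ S)
    (hN : Bic L g N) (hNc : ∀ a : End ℂ V, (∀ X ∈ L, a * X = X * a) → N * a = a * N)
    (htr : ∀ a : End ℂ V, (∀ X ∈ L, a * X = X * a) →
      LinearMap.trace ℂ V (a * N) = LinearMap.trace ℂ V (a * D₀)) : N ∈ L := by
  obtain ⟨k, hk, hk'⟩ := exists_der hBr hCR (N - D₀)
  have hid : ∀ Y ∈ L, Y * N - N * Y ∈ L := fun Y hY => ideal hBr hCR hSL hgen hS hY hN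
  set C : End ℂ V := N - D₀ - (k : End ℂ V) with hC
  have hDL := hSL D₀ hD₀
  have hCL : ∀ Y ∈ L, C * Y - Y * C ∈ L := by
    intro Y hY
    have h1 : C * Y - Y * C = -(Y * N - N * Y) + (Y * D₀ - D₀ * Y) + (Y * (k : End ℂ V) -
        (k : End ℂ V) * Y) := by
      rw [hC]
      noncomm_ring
    rw [h1]
    exact L.add_mem (L.add_mem (L.neg_mem (hid Y hY)) (hBr Y hY D₀ hDL)) (hBr Y hY _ k.2)
  have hCtr : ∀ y ∈ Der (LA L hBr), LinearMap.trace ℂ V (C * (y : End ℂ V)) = 0 := by
    intro y hy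
    rw [hC, sub_mul, map_sub, hk' y hy, sub_self]
  -- `C` commutes with the commutant of `L`
  have hCc : ∀ a : End ℂ V, (∀ X ∈ L, a * X = X * a) → C * a = a * C := by
    intro a ha
    rw [hC, sub_mul, sub_mul, mul_sub, mul_sub, hNc a ha, ha D₀ hDL, ha _ k.2]
  -- `C` commutes with the derived algebra
  have hCd : ∀ d ∈ Der (LA L hBr), C * (d : End ℂ V) = (d : End ℂ V) * C := by
    intro d hd
    have h1 : C * (d : End ℂ V) - (d : End ℂ V) * C ∈ L := hCL _ d.2
    have h2 : (⟨_, h1⟩ : LA L hBr) ∈ Der (LA L hBr) := by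
      have h3 : ∀ x : End ℂ V, (∃ hx : x ∈ L, (⟨x, hx⟩ : LA L hBr) ∈ Der (LA L hBr)) →
          ∀ h : x ∈ L, (⟨x, h⟩ : LA L hBr) ∈ Der (LA L hBr) := fun x ⟨_, h⟩ _ => h
      refine h3 _ ?_ h1
      refine der_ind hBr (p := fun x => ∃ hx : C * x - x * C ∈ L,
        (⟨C * x - x * C, hx⟩ : LA L hBr) ∈ Der (LA L hBr)) ?_ ?_ ?_ ?_ d hd
      · have h4 : C * 0 - 0 * C = 0 := by rw [mul_zero, zero_mul, sub_zero]
        rw [h4]
        exact ⟨L.zero_mem, zero_mem _⟩
      · rintro a c ⟨h5, h6⟩ ⟨h7, h8⟩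
        have h4 : C * (a + c) - (a + c) * C = (C * a - a * C) + (C * c - c * C) := by noncomm_ring
        rw [h4]
        exact ⟨L.add_mem h5 h7, add_mem h6 h8⟩
      · rintro r a ⟨h5, h6⟩
        have h4 : C * (r • a) - (r • a) * C = r • (C * a - a * C) := by
          rw [mul_smul_comm, smul_mul_assoc, smul_sub]
        rw [h4]
        exact ⟨L.smul_mem r h5, (Der (LA L hBr)).smul_mem r h6⟩
      · intro a ha c hc
        have h4 : C * (a * c - c * a) - (a * c - c * a) * C =
            ((C * a - a * C) * c - c * (C * a - a * C)) +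
              (a * (C * c - c * C) - (C * c - c * C) * a) := by noncomm_ring
        rw [h4]
        refine ⟨L.add_mem (hBr _ (hCL a ha) c hc) (hBr a ha _ (hCL c hc)), ?_⟩
        have h5 : ⁅(⟨_, hCL a ha⟩ : LA L hBr), (⟨c, hc⟩ : LA L hBr)⁆ ∈ Der (LA L hBr) :=
          LieSubmodule.lie_mem_lie (LieSubmodule.mem_top _) (LieSubmodule.mem_top _)
        have h6 : ⁅(⟨a, ha⟩ : LA L hBr), (⟨_, hCL c hc⟩ : LA L hBr)⁆ ∈ Der (LA L hBr) :=
          LieSubmodule.lie_mem_lie (LieSubmodule.mem_top _) (LieSubmodule.mem_top _)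
        exact add_mem h5 h6
    have h3 := der_nondeg hBr hCR h2 fun y hy => by
      change LinearMap.trace ℂ V ((C * (d : End ℂ V) - (d : End ℂ V) * C) * (y : End ℂ V)) = 0
      have h4 : ⁅d, y⁆ ∈ Der (LA L hBr) := lie_mem_right ℂ _ _ d y hy
      have h5 := hCtr _ h4
      rw [trace_lie]
      exact h5
    exact sub_eq_zero.1 (congrArg (fun x : LA L hBr => (x : End ℂ V)) h3)
  have hCX : ∀ X ∈ L, C * X = X * C := by
    intro X hX
    obtain ⟨z, d, hd, hzd, hzc⟩ := center_add_der hBr hCR ⟨X, hX⟩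
    have hX' : X = (z : End ℂ V) + (d : End ℂ V) :=
      congrArg (fun y : LA L hBr => (y : End ℂ V)) hzd
    have hz : ∀ Y ∈ L, (z : End ℂ V) * Y = Y * (z : End ℂ V) := by
      intro Y hY
      have h4 := congrArg (fun y : LA L hBr => (y : End ℂ V)) (hzc ⟨Y, hY⟩)
      exact sub_eq_zero.1 h4
    rw [hX', mul_add, add_mul, hCd d hd, hCc _ hz]
  have hC0 : C = 0 := by
    refine zero_of_trace hCR hCX hCc fun a ha => ?_
    have h1 : LinearMap.trace ℂ V (a * (k : End ℂ V)) = 0 := by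
      refine der_ind hBr (p := fun x => LinearMap.trace ℂ V (a * x) = 0) ?_ ?_ ?_ ?_ k hk
      · rw [mul_zero, map_zero]
      · intro x y hx hy
        rw [mul_add, map_add, hx, hy, add_zero]
      · intro r x hx
        rw [mul_smul_comm, map_smul, hx, smul_zero]
      · intro x hx y hy
        rw [← trace_lie, ha x hx, sub_self, zero_mul, map_zero]
    rw [hC, mul_sub, mul_sub, map_sub, map_sub, htr a ha, h1, sub_self, sub_zero]
  have h1 : N = D₀ + (k : End ℂ V) := by
    have h2 := hC0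
    rw [hC, sub_sub, sub_eq_zero] at h2
    exact h2
  rw [h1]
  exact L.add_mem hDL k.2

end

end Pool.Agent.V7H7.MS
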