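import Mathlib
import Pool.Agent.H204R3.SP.Lie
import Pool.Agent.V7H7.MS.Core

/-!
# Endomorphisms of the middle exterior power and forms in two groups of variables
-/

set_option linter.unusedSectionVars false
set_option linter.deprecated false

namespace Pool.Agent.V7H7.MS

open Module
open Pool.Agent.H204R3.SP (Kills)

noncomputable section

variable {V : Type} [AddCommGroup V] [Module ℂ V] {g : ℕ}

section alt

/-- The alternation. -/
def alt : MF V g →ₗ[ℂ] MF V g where
  toFun f := ∑ σ : Equiv.Perm (Fin g), ((Equiv.Perm.sign σ : ℤ) : ℂ) • f.domDomCongr σ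
  map_add' f f' := by
    rw [← Finset.sum_add_distrib]
    refine Finset.sum_congr rfl fun σ _ => ?_
    rw [← smul_add]
    rfl
  map_smul' c f := by
    rw [RingHom.id_apply, Finset.smul_sum]
    refine Finset.sum_congr rfl fun σ _ => ?_
    rw [smul_comm]
    rfl

theorem alt_apply (f : MF V g) (v : Fin g → V) :
    alt f v = ∑ σ : Equiv.Perm (Fin g), ((Equiv.Perm.sign σ : ℤ) : ℂ) * f (fun i => v (σ i)) := by
  change (∑ σ : Equiv.Perm (Fin g), ((Equiv.Perm.sign σ : ℤ) : ℂ) • f.domDomCongr σ) v = _
  rw [MultilinearMap.sum_apply]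
  rfl

theorem alt_mem (f : MF V g) : alt f ∈ Wg V g := by
  intro τ v
  rw [alt_apply, alt_apply, Finset.mul_sum]
  rw [← Equiv.sum_comp (Equiv.mulLeft τ⁻¹)]
  refine Finset.sum_congr rfl fun σ _ => ?_
  have h1 : (fun i => v (τ ((Equiv.mulLeft τ⁻¹) σ i))) = fun i => v (σ i) := by
    funext i
    rw [Equiv.coe_mulLeft, Equiv.Perm.mul_apply, Equiv.Perm.inv_def, Equiv.apply_symm_apply]
  rw [h1, Equiv.coe_mulLeft, Equiv.Perm.sign_mul, Equiv.Perm.sign_inv]
  push_cast
  ring

theorem alt_of_mem {f : MF V g} (hf : f ∈ Wg V g) :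
    alt f = (Fintype.card (Equiv.Perm (Fin g)) : ℂ) • f := by
  refine MultilinearMap.ext fun v => ?_
  rw [alt_apply, MultilinearMap.smul_apply, smul_eq_mul]
  have h1 : ∀ σ ∈ (Finset.univ : Finset (Equiv.Perm (Fin g))),
      ((Equiv.Perm.sign σ : ℤ) : ℂ) * f (fun i => v (σ i)) = f v := by
    intro σ _
    rw [hf σ v, ← mul_assoc, ← Int.cast_mul, ← Units.val_mul, Int.units_mul_self, Units.val_one,
      Int.cast_one, one_mul]
  rw [Finset.sum_congr rfl h1, Finset.sum_const, nsmul_eq_mul, Finset.card_univ]

theorem der_alt (X : End ℂ V) (f : MF V g) : der X (alt f) = alt (der X f) := by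
  refine MultilinearMap.ext fun v => ?_
  rw [der_apply, alt_apply]
  simp only [alt_apply, der_apply]
  rw [Finset.sum_comm]
  refine Finset.sum_congr rfl fun σ _ => ?_
  rw [Finset.mul_sum, ← Equiv.sum_comp σ]
  refine Finset.sum_congr rfl fun k _ => ?_
  congr 2
  funext l
  by_cases h : l = k
  · subst h
    rw [Function.update_self, Function.update_self]
  · rw [Function.update_of_ne h, Function.update_of_ne (fun h' => h (σ.injective h'))]

end alt

section prod

variable (ω : V →ₗ[ℂ] V →ₗ[ℂ] ℂ)

/-- Products of linear forms. -/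
def pw : MultilinearMap ℂ (fun _ : Fin g => V) (MF V g) where
  toFun x := (MultilinearMap.mkPiAlgebra ℂ (Fin g) ℂ).compLinearMap (fun i => ω (x i))
  map_update_add' := by
    intro inst x i a c
    refine MultilinearMap.ext fun y => ?_
    have h1 : ∀ a : V, (fun l => ω (Function.update x i a l) (y l)) =
        Function.update (fun l => ω (x l) (y l)) i (ω a (y i)) := by
      intro a
      funext l
      by_cases h : l = i
      · subst h
        rw [Function.update_self, Function.update_self]
      · rw [Function.update_of_ne h, Function.update_of_ne h]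
    change (MultilinearMap.mkPiAlgebra ℂ (Fin g) ℂ) (fun l => ω (Function.update x i (a + c) l) (y l)) =
      (MultilinearMap.mkPiAlgebra ℂ (Fin g) ℂ) (fun l => ω (Function.update x i a l) (y l)) +
      (MultilinearMap.mkPiAlgebra ℂ (Fin g) ℂ) (fun l => ω (Function.update x i c l) (y l))
    rw [h1, h1, h1, map_add, LinearMap.add_apply, MultilinearMap.map_update_add]
  map_update_smul' := by
    intro inst x i r a
    refine MultilinearMap.ext fun y => ?_
    have h1 : ∀ a : V, (fun l => ω (Function.update x i a l) (y l)) =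
        Function.update (fun l => ω (x l) (y l)) i (ω a (y i)) := by
      intro a
      funext l
      by_cases h : l = i
      · subst h
        rw [Function.update_self, Function.update_self]
      · rw [Function.update_of_ne h, Function.update_of_ne h]
    change (MultilinearMap.mkPiAlgebra ℂ (Fin g) ℂ) (fun l => ω (Function.update x i (r • a) l) (y l)) =
      r • (MultilinearMap.mkPiAlgebra ℂ (Fin g) ℂ) (fun l => ω (Function.update x i a l) (y l))
    rw [h1, h1, map_smul, LinearMap.smul_apply, MultilinearMap.map_update_smul]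

theorem pw_apply (x y : Fin g → V) : pw ω x y = ∏ i, ω (x i) (y i) := by
  change (MultilinearMap.mkPiAlgebra ℂ (Fin g) ℂ) (fun l => ω (x l) (y l)) = _
  rw [MultilinearMap.mkPiAlgebra_apply]

/-- Skew endomorphisms move to the other variables. -/
theorem pw_der {X : End ℂ V} (hX : ∀ u v, ω (X u) v + ω u (X v) = 0) (x : Fin g → V) :
    ∑ i, pw ω (Function.update x i (X (x i))) = -der X (pw ω x) := by
  refine MultilinearMap.ext fun y => ?_
  rw [MultilinearMap.sum_apply, MultilinearMap.neg_apply, der_apply, ← Finset.sum_neg_distrib]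
  refine Finset.sum_congr rfl fun i _ => ?_
  rw [pw_apply, pw_apply, ← Finset.mul_prod_erase _ _ (Finset.mem_univ i),
    ← Finset.mul_prod_erase _ _ (Finset.mem_univ i), Function.update_self, Function.update_self,
    ← neg_mul]
  have h1 : ω (X (x i)) (y i) = -ω (x i) (X (y i)) := by
    linear_combination hX (x i) (y i)
  rw [h1]
  congr 1
  refine Finset.prod_congr rfl fun l hl => ?_
  rw [Function.update_of_ne (Finset.ne_of_mem_erase hl),
    Function.update_of_ne (Finset.ne_of_mem_erase hl)]

theorem alt_pw_perm (x : Fin g → V) (τ : Equiv.Perm (Fin g)) :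
    alt (pw ω (fun i => x (τ i))) = ((Equiv.Perm.sign τ : ℤ) : ℂ) • alt (pw ω x) := by
  refine MultilinearMap.ext fun y => ?_
  rw [alt_apply, MultilinearMap.smul_apply, alt_apply, smul_eq_mul, Finset.mul_sum,
    ← Equiv.sum_comp (Equiv.mulRight τ)]
  refine Finset.sum_congr rfl fun σ _ => ?_
  rw [pw_apply, pw_apply, Equiv.coe_mulRight, Equiv.Perm.sign_mul]
  have h1 : ∏ i, ω (x (τ i)) (y ((σ * τ) i)) = ∏ i, ω (x i) (y (σ i)) := by
    rw [← Equiv.prod_comp τ (fun i => ω (x i) (y (σ i)))]
    rfl
  rw [h1]
  push_cast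
  ring

/-- The antisymmetric forms are combinations of alternated products. -/
theorem mem_span_alt {ι : Type} [Fintype ι] [DecidableEq ι] (b : Basis ι ℂ V)
    (hω : ∀ i, ∃ x, ∀ y, ω x y = b.repr y i) {f : MF V g} (hf : f ∈ Wg V g) :
    f ∈ Submodule.span ℂ (Set.range fun x : Fin g → V => alt (pw ω x)) := by
  choose x hx using hω
  have h1 : f = ∑ I : Fin g → ι, f (fun k => b (I k)) • pw ω (fun k => x (I k)) := by
    refine MultilinearMap.ext fun y => ?_
    rw [MultilinearMap.sum_apply]
    have h2 : y = fun k => ∑ j, b.repr (y k) j • b j := by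
      funext k
      exact (b.sum_repr (y k)).symm
    conv_lhs => rw [h2]
    rw [MultilinearMap.map_sum]
    refine Finset.sum_congr rfl fun I _ => ?_
    rw [MultilinearMap.map_smul_univ, MultilinearMap.smul_apply, pw_apply, smul_eq_mul,
      smul_eq_mul, mul_comm]
    congr 1
    exact Finset.prod_congr rfl fun k _ => (hx (I k) (y k)).symm
  have h3 : f = (Fintype.card (Equiv.Perm (Fin g)) : ℂ)⁻¹ • alt f := by
    rw [alt_of_mem hf, smul_smul, inv_mul_cancel₀, one_smul]
    exact_mod_cast Fintype.card_ne_zero
  have h4 : alt f = alt (∑ I : Fin g → ι, f (fun k => b (I k)) • pw ω (fun k => x (I k))) :=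
    congrArg alt h1
  rw [h3]
  refine Submodule.smul_mem _ _ ?_
  rw [h4, map_sum]
  refine Submodule.sum_mem _ fun I _ => ?_
  rw [map_smul]
  exact Submodule.smul_mem _ _ (Submodule.subset_span ⟨_, rfl⟩)

end prod

section two

theorem upd00 (v : Fin g × Fin 2 → V) (i : Fin g) (a : V) :
    (fun j => Function.update v (i, 0) a (j, 0)) = Function.update (fun j => v (j, 0)) i a := by
  funext j
  by_cases h : j = i
  · subst h
    rw [Function.update_self, Function.update_self]
  · rw [Function.update_of_ne h, Function.update_of_ne (fun h' => h (congrArg Prod.fst h'))]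

theorem upd01 (v : Fin g × Fin 2 → V) (i : Fin g) (a : V) :
    (fun j => Function.update v (i, 0) a (j, 1)) = fun j => v (j, 1) := by
  funext j
  rw [Function.update_of_ne]
  intro h
  exact absurd (congrArg Prod.snd h) Fin.zero_ne_one.symm

theorem upd10 (v : Fin g × Fin 2 → V) (i : Fin g) (a : V) :
    (fun j => Function.update v (i, 1) a (j, 0)) = fun j => v (j, 0) := by
  funext j
  rw [Function.update_of_ne]
  intro h
  exact absurd (congrArg Prod.snd h) Fin.zero_ne_one

theorem upd11 (v : Fin g × Fin 2 → V) (i : Fin g) (a : V) :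
    (fun j => Function.update v (i, 1) a (j, 1)) = Function.update (fun j => v (j, 1)) i a := by
  funext j
  by_cases h : j = i
  · subst h
    rw [Function.update_self, Function.update_self]
  · rw [Function.update_of_ne h, Function.update_of_ne (fun h' => h (congrArg Prod.fst h'))]

/-- A form in two groups of variables. -/
def mk2 (Q : MultilinearMap ℂ (fun _ : Fin g => V) (MF V g)) :
    MultilinearMap ℂ (fun _ : Fin g × Fin 2 => V) ℂ where
  toFun v := Q (fun i => v (i, 0)) (fun i => v (i, 1))
  map_update_add' := by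
    intro inst v k a c
    obtain rfl : inst = fun a b => instDecidableEqProd a b := Subsingleton.elim _ _
    obtain ⟨i, j⟩ := k
    fin_cases j
    · change Q (fun j => Function.update v (i, 0) (a + c) (j, 0))
        (fun j => Function.update v (i, 0) (a + c) (j, 1)) =
        Q (fun j => Function.update v (i, 0) a (j, 0)) (fun j => Function.update v (i, 0) a (j, 1)) +
        Q (fun j => Function.update v (i, 0) c (j, 0)) (fun j => Function.update v (i, 0) c (j, 1))
      rw [upd00, upd01, upd00, upd01, upd00, upd01, MultilinearMap.map_update_add,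
        MultilinearMap.add_apply]
    · change Q (fun j => Function.update v (i, 1) (a + c) (j, 0))
        (fun j => Function.update v (i, 1) (a + c) (j, 1)) =
        Q (fun j => Function.update v (i, 1) a (j, 0)) (fun j => Function.update v (i, 1) a (j, 1)) +
        Q (fun j => Function.update v (i, 1) c (j, 0)) (fun j => Function.update v (i, 1) c (j, 1))
      rw [upd10, upd11, upd10, upd11, upd10, upd11, MultilinearMap.map_update_add]
  map_update_smul' := by
    intro inst v k r a
    obtain rfl : inst = fun a b => instDecidableEqProd a b := Subsingleton.elim _ _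
    obtain ⟨i, j⟩ := k
    fin_cases j
    · change Q (fun j => Function.update v (i, 0) (r • a) (j, 0))
        (fun j => Function.update v (i, 0) (r • a) (j, 1)) =
        r • Q (fun j => Function.update v (i, 0) a (j, 0))
          (fun j => Function.update v (i, 0) a (j, 1))
      rw [upd00, upd01, upd00, upd01, MultilinearMap.map_update_smul, MultilinearMap.smul_apply]
    · change Q (fun j => Function.update v (i, 1) (r • a) (j, 0))
        (fun j => Function.update v (i, 1) (r • a) (j, 1)) =
        r • Q (fun j => Function.update v (i, 1) a (j, 0))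
          (fun j => Function.update v (i, 1) a (j, 1))
      rw [upd10, upd11, upd10, upd11, MultilinearMap.map_update_smul]

theorem mk2_apply (Q : MultilinearMap ℂ (fun _ : Fin g => V) (MF V g)) (v : Fin g × Fin 2 → V) :
    mk2 Q v = Q (fun i => v (i, 0)) (fun i => v (i, 1)) := rfl

/-- The action of an endomorphism on a form in two groups of variables. -/
theorem mk2_kills (Q : MultilinearMap ℂ (fun _ : Fin g => V) (MF V g)) (X : End ℂ V)
    (v : Fin g × Fin 2 → V) : ∑ k, mk2 Q (Function.update v k (X (v k))) =
      (∑ i, Q (Function.update (fun j => v (j, 0)) i (X (v (i, 0))))) (fun j => v (j, 1)) +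
        der X (Q (fun j => v (j, 0))) (fun j => v (j, 1)) := by
  rw [Fintype.sum_prod_type]
  simp only [Fin.sum_univ_two]
  rw [Finset.sum_add_distrib, der_apply, MultilinearMap.sum_apply]
  congr 1
  · refine Finset.sum_congr rfl fun i _ => ?_
    rw [mk2_apply, upd00, upd01]
  · refine Finset.sum_congr rfl fun i _ => ?_
    rw [mk2_apply, upd10, upd11]

/-- Antisymmetric in both groups of variables. -/
def BiAlt {R : Type} [CommRing R] {M : Type} [AddCommGroup M] [Module R M]
    (Φ : MultilinearMap R (fun _ : Fin g × Fin 2 => M) R) : Prop :=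
  ∀ (j : Fin 2) (σ : Equiv.Perm (Fin g)) (v : Fin g × Fin 2 → M),
    Φ (fun k => if k.2 = j then v (σ k.1, k.2) else v k) = ((Equiv.Perm.sign σ : ℤ) : R) * Φ v

variable (ω : V →ₗ[ℂ] V →ₗ[ℂ] ℂ) {L : Submodule ℂ (End ℂ V)}

/-- Endomorphisms of the middle exterior power as forms. -/
theorem bic_of_mid {ι : Type} [Fintype ι] [DecidableEq ι] (b : Basis ι ℂ V)
    (hω : ∀ i, ∃ x, ∀ y, ω x y = b.repr y i) (hL : ∀ X ∈ L, ∀ u v, ω (X u) v + ω u (X v) = 0)
    {N : End ℂ V} (hN : ∀ u v, ω (N u) v + ω u (N v) = 0)
    (hmid : ∀ Φ : MultilinearMap ℂ (fun _ : Fin g × Fin 2 => V) ℂ, BiAlt Φ →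
      (∀ X ∈ L, Kills X Φ) → Kills N Φ) : Bic L g N := by
  intro T hT hTW
  let Q : MultilinearMap ℂ (fun _ : Fin g => V) (MF V g) :=
    (T ∘ₗ alt).compMultilinearMap (pw ω)
  have hQ : ∀ x, Q x = T (alt (pw ω x)) := fun x => rfl
  have key : ∀ X : End ℂ V, (∀ u v, ω (X u) v + ω u (X v) = 0) → ∀ v : Fin g × Fin 2 → V,
      ∑ k, mk2 Q (Function.update v k (X (v k))) =
        (der X (T (alt (pw ω fun j => v (j, 0)))) - T (der X (alt (pw ω fun j => v (j, 0)))))
          (fun j => v (j, 1)) := by
    intro X hX v
    rw [mk2_kills]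
    have h1 : ∑ i, Q (Function.update (fun j => v (j, 0)) i (X (v (i, 0)))) =
        -T (der X (alt (pw ω fun j => v (j, 0)))) := by
      simp only [hQ]
      rw [← map_sum, ← map_sum, pw_der ω hX (fun j => v (j, 0)), map_neg, map_neg, der_alt]
    rw [h1, hQ, MultilinearMap.neg_apply, MultilinearMap.sub_apply]
    ring
  have hbi : BiAlt (mk2 Q) := by
    intro j σ v
    fin_cases j
    · change Q (fun i => if ((i, 0) : Fin g × Fin 2).2 = 0 then v (σ i, 0) else v (i, 0))
        (fun i => if ((i, 1) : Fin g × Fin 2).2 = 0 then v (σ i, 1) else v (i, 1)) = _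
      have h1 : (fun i : Fin g => if ((i, 0) : Fin g × Fin 2).2 = 0 then v (σ i, 0) else v (i, 0)) =
          fun i => (fun i => v (i, 0)) (σ i) := by
        funext i
        rw [if_pos rfl]
      have h2 : (fun i : Fin g => if ((i, 1) : Fin g × Fin 2).2 = 0 then v (σ i, 1) else v (i, 1)) =
          fun i => v (i, 1) := by
        funext i
        exact if_neg Fin.zero_ne_one.symm
      rw [h1, h2, hQ, alt_pw_perm ω (fun i => v (i, 0)) σ, map_smul, mk2_apply, hQ,
        MultilinearMap.smul_apply, smul_eq_mul]
    · change Q (fun i => if ((i, 0) : Fin g × Fin 2).2 = 1 then v (σ i, 0) else v (i, 0))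
        (fun i => if ((i, 1) : Fin g × Fin 2).2 = 1 then v (σ i, 1) else v (i, 1)) = _
      have h1 : (fun i : Fin g => if ((i, 0) : Fin g × Fin 2).2 = 1 then v (σ i, 0) else v (i, 0)) =
          fun i => v (i, 0) := by
        funext i
        exact if_neg Fin.zero_ne_one
      have h2 : (fun i : Fin g => if ((i, 1) : Fin g × Fin 2).2 = 1 then v (σ i, 1) else v (i, 1)) =
          fun i => (fun i => v (i, 1)) (σ i) := by
        funext i
        rw [if_pos rfl]
      rw [h1, h2, hQ, mk2_apply, hQ]
      exact hTW (alt (pw ω fun i => v (i, 0))) σ (fun i => v (i, 1))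
  have hk := hmid (mk2 Q) hbi (fun X hX v => by
    rw [key X (hL X hX)]
    have h1 := LinearMap.congr_fun (hT X hX) (alt (pw ω fun j => v (j, 0)))
    rw [Module.End.mul_apply, Module.End.mul_apply] at h1
    rw [h1, sub_self, MultilinearMap.zero_apply])
  have h2 : ∀ x : Fin g → V, T (der N (alt (pw ω x))) = der N (T (alt (pw ω x))) := by
    intro x
    refine MultilinearMap.ext fun y => ?_
    have h3 := hk (fun k => if k.2 = 0 then x k.1 else y k.1)
    rw [key N hN] at h3
    have h4 : (fun j : Fin g => if ((j, 0) : Fin g × Fin 2).2 = 0 then x ((j, 0) : Fin g × Fin 2).1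
        else y ((j, 0) : Fin g × Fin 2).1) = x := by
      funext j
      exact if_pos rfl
    have h5 : (fun j : Fin g => if ((j, 1) : Fin g × Fin 2).2 = 0 then x ((j, 1) : Fin g × Fin 2).1
        else y ((j, 1) : Fin g × Fin 2).1) = y := by
      funext j
      exact if_neg Fin.zero_ne_one.symm
    rw [h4, h5, MultilinearMap.sub_apply, sub_eq_zero] at h3
    exact h3.symm
  intro f hf
  have h3 := mem_span_alt ω b hω hf
  clear hf
  induction h3 using Submodule.span_induction with
  | mem f hf =>
    obtain ⟨x, rfl⟩ := hf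
    exact h2 x
  | zero => rw [map_zero, map_zero, map_zero]
  | add a c _ _ ha hc => rw [map_add, map_add, map_add, map_add, ha, hc]
  | smul r a _ ha => rw [map_smul, map_smul, map_smul, map_smul, ha]

end two

end

end Pool.Agent.V7H7.MS
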