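import Mathlib
import Pool.Agent.Y224.TS.D7
import Pool.Agent.Y224.TS.T8
import Pool.Agent.V7H7.MS.Alt

/-!
# The conjugates of the complex structure belong to the Lie algebra of the Hodge–Tate elements
-/

set_option linter.unusedSectionVars false
set_option linter.deprecated false

namespace Pool.Agent.V7H7.MS

open Matrix Module Pool.Agent.W437.HC Pool.Agent.W437.HD Pool.Agent.W548.Odd Pool.Agent.W522.U
open Pool.Agent.H204R3.SP Pool.Agent.H204R3.GP Pool.Agent.Y90 Pool.Agent.Y224.TS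
open Pool.Agent.N183.U8 (Br CR Stb)

noncomputable section

variable {G : ℕ} {Z : Matrix (Fin G) (Fin G) ℂ}
  {S : Set (Matrix (Fin G ⊕ Fin G) (Fin G ⊕ Fin G) ℂ)}

theorem tr_zero {X : Matrix (Fin G ⊕ Fin G) (Fin G ⊕ Fin G) ℂ}
    (h : ∀ u v, om G (X *ᵥ u) v + om G u (X *ᵥ v) = 0) : X.trace = 0 := by
  have h1 : Xᵀ * Om G ℂ + Om G ℂ * X = 0 := by
    ext i j
    have h2 := h (Pi.single i 1) (Pi.single j 1)
    rw [om_apply, om_apply, mulVec_mulVec, ← vecMul_transpose, ← dotProduct_mulVec,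
      mulVec_mulVec, ← dotProduct_add, ← add_mulVec, single_one_dotProduct,
      mulVec_single_one] at h2
    exact h2
  have h3 : X = Om G ℂ * Xᵀ * Om G ℂ := by
    have h4 : Om G ℂ * X = -(Xᵀ * Om G ℂ) := by
      rw [eq_neg_iff_add_eq_zero, add_comm]
      exact h1
    have h5 : Om G ℂ * (Om G ℂ * X) = -X := by
      rw [← mul_assoc, Om_sq, neg_one_mul]
    rw [h4, mul_neg, neg_inj] at h5
    rw [mul_assoc, h5]
  have h6 : X.trace = -X.trace := by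
    conv_lhs => rw [h3, trace_mul_comm, ← mul_assoc, Om_sq, neg_one_mul, trace_neg,
      trace_transpose]
  linear_combination (1 / 2 : ℂ) * h6

theorem finrank_ed {X : Matrix (Fin G ⊕ Fin G) (Fin G ⊕ Fin G) ℂ} (hX : X * X = 1)
    (h : X.trace = 0) : finrank ℂ (LinearMap.range (ed (ph (Fin G ⊕ Fin G) X))) = G := by
  have h1 : ph (Fin G ⊕ Fin G) X * ph (Fin G ⊕ Fin G) X = 1 := by
    rw [← map_mul, hX, map_one]
  have h2 := ed_sq h1
  have hproj : LinearMap.IsProj (LinearMap.range (ed (ph (Fin G ⊕ Fin G) X)))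
      (ed (ph (Fin G ⊕ Fin G) X)) :=
    ⟨fun x => ⟨x, rfl⟩, fun x hx => e_range h2 hx⟩
  have h3 := hproj.trace
  unfold ed at h3
  rw [map_smul, map_add, LinearMap.trace_one] at h3
  have h4 : LinearMap.trace ℂ (Fin G ⊕ Fin G → ℂ) (ph (Fin G ⊕ Fin G) X) = X.trace :=
    Matrix.trace_toLin'_eq X
  rw [h4, h, add_zero, Module.finrank_fintype_fun_eq_card, Fintype.card_sum, Fintype.card_fin,
    smul_eq_mul] at h3
  have h5 : (G : ℂ) = (finrank ℂ (LinearMap.range (ed (ph (Fin G ⊕ Fin G) X))) : ℂ) := by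
    unfold ed
    rw [← h3]
    push_cast
    ring
  exact_mod_cast h5.symm

theorem br_GG (L : Submodule ℂ (Matrix (Fin G ⊕ Fin G) (Fin G ⊕ Fin G) ℂ))
    (h : ∀ X ∈ L, ∀ Y ∈ L, X * Y - Y * X ∈ L) : Br (GG L) := by
  intro A hA B hB
  obtain ⟨X, hX, rfl⟩ := exists_GG hA
  obtain ⟨Y, hY, rfl⟩ := exists_GG hB
  rw [← map_mul, ← map_mul, ← map_sub]
  exact mem_GG.2 (h X hX Y hY)

theorem cr_GG {L : Submodule ℂ (Matrix (Fin G ⊕ Fin G) (Fin G ⊕ Fin G) ℂ)} (h : CRed L) :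
    CR (GG L) := by
  intro U hU
  have hs : Stab L U := fun X hX u hu => hU (ph _ X) (mem_GG.2 hX) u hu
  obtain ⟨π, h1, h2, h3⟩ := h U hs
  refine ⟨LinearMap.ker π, ?_, ?_⟩
  · intro A hA u hu
    obtain ⟨X, hX, rfl⟩ := exists_GG hA
    rw [LinearMap.mem_ker] at hu ⊢
    rw [ph_apply, h1 X hX, hu, mulVec_zero]
  · refine ⟨disjoint_iff.2 ?_, codisjoint_iff.2 ?_⟩
    · rw [eq_bot_iff]
      rintro x ⟨hx, hx'⟩
      rw [Submodule.mem_bot, ← h3 x hx]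
      exact hx'
    · rw [eq_top_iff]
      intro x _
      have h4 : x = π x + (x - π x) := by abel
      rw [h4]
      refine Submodule.add_mem_sup (h2 x) ?_
      rw [LinearMap.mem_ker, map_sub, h3 _ (h2 x), sub_self]

theorem om_surj (F : (Fin G ⊕ Fin G → ℂ) →ₗ[ℂ] ℂ) : ∃ x, ∀ y, om G x y = F y := by
  have hinj : Function.Injective (om G) := by
    rw [injective_iff_map_eq_zero]
    intro u hu
    exact om_nd u fun v => by rw [hu]; rfl
  have hsurj : Function.Surjective (om G) :=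
    (LinearMap.injective_iff_surjective_of_finrank_eq_finrank
      Subspace.dual_finrank_eq.symm).1 hinj
  obtain ⟨x, hx⟩ := hsurj F
  exact ⟨x, fun y => LinearMap.congr_fun hx y⟩

/-- **The Lie algebra of the Hodge–Tate elements contains the conjugates of the complex
structure**, if the latter kill the forms in the middle. -/
theorem ds_mem (hZ : PM Z) (h : TD Z S)
    (hmid : ∀ Φ : MultilinearMap ℂ (fun _ : Fin G × Fin 2 => Fin G ⊕ Fin G → ℂ) ℂ, BiAlt Φ →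
      (∀ D ∈ S, Kills (ph (Fin G ⊕ Fin G) D) Φ) →
        ∀ σ : ℂ ≃+* ℂ, Kills (ph (Fin G ⊕ Fin G) (DS Z σ)) Φ) (σ : ℂ ≃+* ℂ) :
    DS Z σ ∈ Y224.TS.LT S := by
  obtain ⟨D₀, hD₀, htr⟩ := h.ex σ
  rw [← mem_GG]
  have hcomm : ∀ a : End ℂ (Fin G ⊕ Fin G → ℂ), (∀ X ∈ GG (Y224.TS.LT S), a * X = X * a) →
      ∃ P : Matrix (Fin G ⊕ Fin G) (Fin G ⊕ Fin G) ℂ, a = ph _ P ∧
        ∀ X ∈ LZ Z, P * X = X * P := by
    intro a ha
    obtain ⟨P, rfl⟩ := (ph (Fin G ⊕ Fin G)).surjective a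
    refine ⟨P, rfl, (h.comm' P).1 fun X hX => ?_⟩
    have h1 := ha (ph _ X) (mem_GG.2 hX)
    rw [← map_mul, ← map_mul] at h1
    exact (ph (Fin G ⊕ Fin G)).injective h1
  refine core (g := G) (S := (ph (Fin G ⊕ Fin G)) '' S) (D₀ := ph _ D₀)
    (br_GG _ fun X hX Y hY => LT_br hX hY) (cr_GG h.cr) ?_ ?_ ?_ ⟨D₀, hD₀, rfl⟩ ?_ ?_ ?_
  · rintro _ ⟨D, hD, rfl⟩
    exact mem_GG.2 (LT_gen hD)
  · intro L' hL' hS' y hy
    obtain ⟨A, hA, rfl⟩ := exists_GG hy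
    have h3 : Y224.TS.LT S ≤ L'.comap (ph (Fin G ⊕ Fin G)).toLinearMap := by
      refine LT_le (fun D hD => hS' _ ⟨D, hD, rfl⟩) (fun A hA C hC => ?_)
      change ph _ (A * C - C * A) ∈ L'
      rw [map_sub, map_mul, map_mul]
      exact hL' _ hA _ hC
    exact h3 hA
  · rintro _ ⟨D, hD, rfl⟩
    refine ⟨by rw [← map_mul, h.sq D hD, map_one], finrank_ed (h.sq D hD) (tr_zero (h.sp D hD)), ?_⟩
    rw [← map_neg]
    refine finrank_ed (by rw [neg_mul_neg, h.sq D hD]) ?_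
    rw [trace_neg, tr_zero (h.sp D hD), neg_zero]
  · refine bic_of_mid (om G) (Pi.basisFun ℂ (Fin G ⊕ Fin G)) (fun i => ?_) ?_ ?_ ?_
    · obtain ⟨x, hx⟩ := om_surj ((Pi.basisFun ℂ (Fin G ⊕ Fin G)).coord i)
      exact ⟨x, hx⟩
    · intro X hX u v
      obtain ⟨A, hA, rfl⟩ := exists_GG hX
      exact h.sp' hA u v
    · intro u v
      exact hZ.om_sp (DS_mem σ) u v
    · intro Φ hΦ hk
      exact hmid Φ hΦ (fun D hD => hk _ (mem_GG.2 (LT_gen hD))) σ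
  · intro a ha
    obtain ⟨P, rfl, hP⟩ := hcomm a ha
    rw [← map_mul, ← map_mul, hP _ (DS_mem σ)]
  · intro a ha
    obtain ⟨P, rfl, hP⟩ := hcomm a ha
    rw [← map_mul, ← map_mul]
    have h4 : ∀ X : Matrix (Fin G ⊕ Fin G) (Fin G ⊕ Fin G) ℂ,
        LinearMap.trace ℂ (Fin G ⊕ Fin G → ℂ) (ph (Fin G ⊕ Fin G) X) = X.trace := fun X =>
      Matrix.trace_toLin'_eq X
    rw [h4, h4]
    exact (htr P hP).symm

/-- Forms killed by the Hodge–Tate elements are killed by the Lie algebra of the period matrix. -/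
theorem kills_LZ {κ : Type} [Fintype κ] [DecidableEq κ] (hds : ∀ σ : ℂ ≃+* ℂ, DS Z σ ∈ Y224.TS.LT S)
    {φ : MultilinearMap ℂ (fun _ : κ => Fin G ⊕ Fin G → ℂ) ℂ}
    (hφ : ∀ D ∈ S, Kills (ph (Fin G ⊕ Fin G) D) φ) : ∀ X ∈ LZ Z, act X (CF φ) = 0 := by
  have h1 : LZ Z ≤ killL φ := LZ_le (fun σ => act_of_kills (kills_LT hφ (hds σ)))
    (fun A hA C hC => act_bracket hA hC)
  exact fun X hX => h1 hX

end

end Pool.Agent.V7H7.MS
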