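import Mathlib
import Pool.Agent.Y224.TS.Stm

/-!
# Tate classes and Hodge classes on the powers of an abelian variety

Let `X` be an abelian variety over a number field `F ⊆ ℂ` with a polarization over `F`. As in
`Pool.Agent.Y224.TS.Stm` it is described by the rational homology `H = H_1(X, ℚ)`, the tangent space
`T`, the period map `per : H → T`, the Riemann form `E` of the polarization and the representation
`ρ` of the Galois group `Γ` of `F` on the Tate module `V = K ⊗ H`, `K = ℚ_ℓ`; `χ : Γ → K` is the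
cyclotomic character. The first homology of the power `X ^ n` is `H ^ n`, its tangent space is
`T ^ n` and its Tate module is `V ^ n`; the cohomology group `H^(2 m)(X ^ n)` with coefficients in `ℚ`
(or `K`) is the space of the alternating multilinear forms on `H ^ n` (or `V ^ n`) in `2 m` variables. The
`2 m` variables are indexed by `Fin m × Fin 2`.
-/

namespace Pool.Agent.V7H7.MS.St

open Pool.Agent.Y90.St Pool.Agent.Y224.TS.St TensorProduct
open Pool.Agent.H204R3.CM (IsHodge)

variable {H T : Type} [AddCommGroup H] [Module ℚ H] [AddCommGroup T] [Module ℂ T]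
  {K : Type} [Field K] [CharZero K] [Algebra K ℂ] {Γ : Type} [Group Γ]

/-- The known properties of the Tate module (`IsTateModule`), with the theorem of Serre and Pink in full:
the Hodge–Tate elements generate the Lie algebra of the image of `Γ`. So a multilinear form in `2 m`
variables on `ℂ ⊗ V` on which all Hodge–Tate elements act as multiplication by `m` is a Tate tensor: a
subgroup of finite index acts on it through the `m`-th power of the cyclotomic character. -/
structure IsTateModuleSP (per : H →+ T) (E : H → H → ℚ) (ρ : Representation K Γ (K ⊗[ℚ] H))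
    (χ : Γ →* K) : Prop extends IsTateModule per E ρ χ where
  /-- Serre, Pink -/
  pink : ∀ (m : ℕ) (φ : MultilinearMap ℂ (fun _ : Fin m × Fin 2 => ℂ ⊗[K] (K ⊗[ℚ] H)) ℂ),
    (∀ σ h, IsHodgeTate per ρ χ σ h → ∀ v, ∑ k, φ (Function.update v k (h (v k))) = m * φ v) →
      ∃ Δ : Subgroup Γ, Δ.FiniteIndex ∧ ∀ s ∈ Δ, ∀ v,
        φ (fun k => (ρ s).baseChange ℂ (v k)) = algebraMap K ℂ (χ s) ^ m * φ v

/-- The period map of the power `X ^ n`. -/
def perPow (per : H →+ T) (n : ℕ) : (Fin n → H) →+ (Fin n → T) where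
  toFun v := fun i => per (v i)
  map_zero' := by
    funext i
    exact map_zero per
  map_add' v w := by
    funext i
    exact map_add per _ _

/-- The class `φ ∈ H^(2 m)(X ^ n, K)` is a Tate class: a subgroup of finite index of the Galois group
acts on it through the `m`-th power of the cyclotomic character, that is, it fixes the class `φ` in
`H^(2 m)(X ^ n, K)(m)`. -/
def IsTateClass (ρ : Representation K Γ (K ⊗[ℚ] H)) (χ : Γ →* K) {n m : ℕ}
    (φ : (Fin n → K ⊗[ℚ] H) [⋀^Fin m × Fin 2]→ₗ[K] K) : Prop :=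
  ∃ Δ : Subgroup Γ, Δ.FiniteIndex ∧ ∀ s ∈ Δ, ∀ v : Fin m × Fin 2 → Fin n → K ⊗[ℚ] H,
    φ (fun k i => ρ s (v k i)) = χ s ^ m * φ v

/-- The class `φ ∈ H^(2 m)(X ^ n, K)` is a `K`-linear combination of Hodge classes on `X ^ n`, that
is, of rational classes of type `(m, m)` in `H^(2 m)(X ^ n, ℚ)`. -/
def IsHodgeSum (per : H →+ T) {n m : ℕ} (φ : (Fin n → K ⊗[ℚ] H) [⋀^Fin m × Fin 2]→ₗ[K] K) : Prop :=
  (fun v : Fin m × Fin 2 → Fin n → H => φ (fun k i => (1 : K) ⊗ₜ[ℚ] v k i)) ∈
    Submodule.span K {F : (Fin m × Fin 2 → Fin n → H) → K |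
      ∃ f : (Fin n → H) [⋀^Fin m × Fin 2]→ₗ[ℚ] ℚ, IsHodge (perPow per n) f ∧
        F = fun v => ((f v : ℚ) : K)}

/-- The class `φ ∈ H^(2 m)(X ^ 2, K)` belongs to the Künneth component `H^m(X) ⊗ H^m(X)`: the
pull-back of `φ` along the endomorphism `(x, y) ↦ (2 x, y)` of `X ^ 2` is `2 ^ m φ`. -/
def IsMiddle {m : ℕ} (φ : (Fin 2 → K ⊗[ℚ] H) [⋀^Fin m × Fin 2]→ₗ[K] K) : Prop :=
  ∀ v : Fin m × Fin 2 → Fin 2 → K ⊗[ℚ] H, φ (fun k => ![(2 : K) • v k 0, v k 1]) = 2 ^ m * φ v

end Pool.Agent.V7H7.MS.St
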