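import Mathlib
import Pool.Agent.V7H7.MS.Stm
import Pool.Agent.V7H7.MS.Mat

/-!
# Forms in two groups of variables and classes on the square
-/

set_option linter.unusedSectionVars false
set_option linter.deprecated false

namespace Pool.Agent.V7H7.MS

open Module TensorProduct

noncomputable section

section bi

variable {R : Type} [CommRing R] {M : Type} [AddCommGroup M] [Module R M] {a : ℕ}

/-- Permutations which respect the groups. -/
theorem BiAlt.perm {Φ : MultilinearMap R (fun _ : Fin a × Fin 2 => M) R} (hΦ : BiAlt Φ)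
    (σ : Equiv.Perm (Fin a × Fin 2)) (hσ : ∀ k, (σ k).2 = k.2) (v : Fin a × Fin 2 → M) :
    Φ (fun k => v (σ k)) = ((Equiv.Perm.sign σ : ℤ) : R) * Φ v := by
  have hσ' : ∀ k, (σ.symm k).2 = k.2 := by
    intro k
    have h1 := hσ (σ.symm k)
    rw [Equiv.apply_symm_apply] at h1
    exact h1.symm
  let s : Fin 2 → Equiv.Perm (Fin a) := fun j =>
    { toFun := fun i => (σ (i, j)).1
      invFun := fun i => (σ.symm (i, j)).1
      left_inv := fun i => by
        have h1 : ((σ (i, j)).1, j) = σ (i, j) := Prod.ext rfl (hσ (i, j)).symm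
        change (σ.symm ((σ (i, j)).1, j)).1 = i
        rw [h1, Equiv.symm_apply_apply]
      right_inv := fun i => by
        have h1 : ((σ.symm (i, j)).1, j) = σ.symm (i, j) := Prod.ext rfl (hσ' (i, j)).symm
        change (σ ((σ.symm (i, j)).1, j)).1 = i
        rw [h1, Equiv.apply_symm_apply] }
  have hs : ∀ k, σ k = (s k.2 k.1, k.2) := fun k => Prod.ext rfl (hσ k)
  have hs' : σ = Equiv.prodCongrLeft s := by
    ext k
    · rw [hs]
      rfl
    · rw [hs]
      rfl
  have h1 := hΦ 1 (s 1) v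
  have h0 := hΦ 0 (s 0) (fun k => if k.2 = 1 then v (s 1 k.1, k.2) else v k)
  rw [h1] at h0
  have h2 : (fun k : Fin a × Fin 2 => if k.2 = 0 then
      (fun k : Fin a × Fin 2 => if k.2 = 1 then v (s 1 k.1, k.2) else v k) (s 0 k.1, k.2) else
      (fun k : Fin a × Fin 2 => if k.2 = 1 then v (s 1 k.1, k.2) else v k) k) =
        fun k => v (σ k) := by
    funext k
    obtain ⟨i, j⟩ := k
    rw [hs]
    fin_cases j
    · exact (if_pos rfl).trans (if_neg Fin.zero_ne_one)
    · exact (if_neg Fin.zero_ne_one.symm).trans (if_pos rfl)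
  rw [h2] at h0
  rw [h0, hs', Equiv.Perm.sign_prodCongrLeft, Fin.prod_univ_two, Units.val_mul, Int.cast_mul,
    mul_assoc]

/-- A form in two groups of variables as a form on pairs. -/
def prc (Φ : MultilinearMap R (fun _ : Fin a × Fin 2 => M) R) :
    MultilinearMap R (fun _ : Fin a × Fin 2 => Fin 2 → M) R :=
  Φ.compLinearMap (fun k => LinearMap.proj k.2)

theorem prc_apply (Φ : MultilinearMap R (fun _ : Fin a × Fin 2 => M) R)
    (v : Fin a × Fin 2 → Fin 2 → M) : prc Φ v = Φ (fun k => v k k.2) := rfl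

/-- The restriction of the alternation. -/
theorem alt_prc {Φ : MultilinearMap R (fun _ : Fin a × Fin 2 => M) R} (hΦ : BiAlt Φ) :
    ∃ N : ℕ, N ≠ 0 ∧ ∀ v : Fin a × Fin 2 → M, MultilinearMap.alternatization (prc Φ)
      (fun k => (Pi.single k.2 (v k) : Fin 2 → M)) = N * Φ v := by
  classical
  refine ⟨(Finset.univ.filter fun σ : Equiv.Perm (Fin a × Fin 2) => ∀ k, (σ k).2 = k.2).card,
    ?_, fun v => ?_⟩
  · rw [Finset.card_ne_zero]
    exact ⟨1, Finset.mem_filter.2 ⟨Finset.mem_univ _, fun k => rfl⟩⟩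
  rw [MultilinearMap.alternatization_apply, ← nsmul_eq_mul, ← Finset.sum_const, Finset.sum_filter]
  refine Finset.sum_congr rfl fun σ _ => ?_
  rw [MultilinearMap.domDomCongr_apply, prc_apply, Units.smul_def, zsmul_eq_mul]
  by_cases h : ∀ k, (σ k).2 = k.2
  · rw [if_pos h]
    have h1 : (fun k => (Pi.single (σ k).2 (v (σ k)) : Fin 2 → M) k.2) = fun k => v (σ k) := by
      funext k
      rw [h k, Pi.single_eq_same]
    rw [h1, hΦ.perm σ h, ← mul_assoc, ← Int.cast_mul, ← Units.val_mul, Int.units_mul_self,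
      Units.val_one, Int.cast_one, one_mul]
  · rw [if_neg h]
    push Not at h
    obtain ⟨k, hk⟩ := h
    have h1 : Φ (fun k => (Pi.single (σ k).2 (v (σ k)) : Fin 2 → M) k.2) = 0 := by
      refine Φ.map_coord_zero k ?_
      exact Pi.single_eq_of_ne (Ne.symm hk) _
    rw [h1, mul_zero]

theorem prod_two (a : ℕ) (r : R) : ∏ k : Fin a × Fin 2, (if k.2 = 0 then r else 1) = r ^ a := by
  rw [Fintype.prod_prod_type]
  simp only [Fin.prod_univ_two, if_pos]
  simp

theorem alt_mid (Φ : MultilinearMap R (fun _ : Fin a × Fin 2 => M) R) (r : R)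
    (v : Fin a × Fin 2 → Fin 2 → M) :
    MultilinearMap.alternatization (prc Φ) (fun k => ![r • v k 0, v k 1]) =
      r ^ a * MultilinearMap.alternatization (prc Φ) v := by
  rw [MultilinearMap.alternatization_apply, MultilinearMap.alternatization_apply, Finset.mul_sum]
  refine Finset.sum_congr rfl fun σ _ => ?_
  rw [MultilinearMap.domDomCongr_apply, MultilinearMap.domDomCongr_apply, prc_apply, prc_apply,
    mul_smul_comm]
  congr 1
  have h1 : (fun k : Fin a × Fin 2 => (![r • v (σ k) 0, v (σ k) 1] : Fin 2 → M) k.2) =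
      fun k => (if k.2 = 0 then r else 1) • v (σ k) k.2 := by
    funext k
    obtain ⟨i, j⟩ := k
    fin_cases j
    · exact (congrArg (fun c : R => c • v (σ (i, 0)) 0) (if_pos rfl)).symm
    · refine Eq.trans ?_ (congrArg (fun c : R => c • v (σ (i, 1)) 1)
        (if_neg Fin.zero_ne_one.symm)).symm
      rw [one_smul]
      rfl
  rw [h1, MultilinearMap.map_smul_univ, prod_two, smul_eq_mul]

end bi

end

end Pool.Agent.V7H7.MS
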