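import Mathlib
import Pool.Agent.Y224.TS.D8
import Pool.Agent.H204R3.GP.MTDefs
import Pool.Agent.V7H7.MS.Bi

/-!
# Tate classes on the powers of an abelian variety
-/

set_option linter.unusedSectionVars false
set_option linter.deprecated false

namespace Pool.Agent.V7H7.MS

open Matrix Module Pool.Agent.W437.HC Pool.Agent.W437.HD Pool.Agent.W548.Odd
open Pool.Agent.H204R3.SP Pool.Agent.H204R3.GP Pool.Agent.Y90 Pool.Agent.Y224.TS TensorProduct
open Pool.Agent.Y224.TS.St (IsHodgeTate IsTateModule)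
open Pool.Agent.H204R3.CM (IsHodge)
open Pool.Agent.TH504.CB

noncomputable section

section hodge

variable {G : ℕ} {Z : Matrix (Fin G) (Fin G) ℂ} {T : Type} [AddCommGroup T] [Module ℂ T]
  {per : (Fin G ⊕ Fin G → ℚ) →+ T} {κ : Type} [Fintype κ] [DecidableEq κ]

/-- Hodge tensors are killed by the complex structure. -/
theorem isH_ml (h : Cht per (JR Z)) {f : MultilinearMap ℚ (fun _ : κ => Fin G ⊕ Fin G → ℚ) ℚ}
    {ψ : MultilinearMap ℝ (fun _ : κ => T) ℝ} (hψ1 : ∀ v, ψ (fun l => per (v l)) = f v)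
    (hψ2 : ∀ z : ℂ, ‖z‖ = 1 → ∀ u : κ → T, ψ (fun l => z • u l) = ψ u) :
    IsH (DZ Z) (CF f) := by
  obtain ⟨P, I, hP1, hP2, -, -⟩ := h.ex
  rw [show DZ Z = DJ (JR Z) from rfl]
  rw [act_real (J := JR Z) (D := DJ (JR Z)) rfl]
  have h1 : ∀ x : κ → (Fin G ⊕ Fin G) → ℝ, ψ (fun k => P (x k)) =
      evalF (cst ℝ (CF f)) x := by
    intro x
    rw [show ψ (fun k => P (x k)) = ψ.compLinearMap (fun _ => P) x from rfl,
      Pool.Agent.TH504.CB.multi_eq]
    congr 1
    funext I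
    change ψ (fun k => P (Pi.single (I k) 1)) = ((f (fun k => Pi.single (I k) 1) : ℚ) : ℝ)
    rw [← hψ1]
    congr 1
    funext k
    rw [← hP1, single_castR]
  apply act_of_rotate
  intro θ x
  rw [← h1, ← h1]
  refine Eq.trans ?_ (hψ2 (Complex.cos θ + Complex.sin θ * Complex.I) (by
    rw [← Complex.exp_mul_I, Complex.norm_exp_ofReal_mul_I]) _)
  congr 1
  funext k
  rw [map_add, map_smul, map_smul, hP2, smul_rot, Complex.ofReal_cos, Complex.ofReal_sin]

theorem LZ_le_lieM : LZ Z ≤ lieM (DZ Z) ℂ :=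
  LA_le_lieM fun d' hd' => by
    rw [Set.mem_singleton_iff.1 hd']
    exact D_mem _

/-- Forms killed by the complex structure are Hodge tensors. -/
theorem hodge_ml (h : Cht per (JR Z)) {c : (κ → Fin G ⊕ Fin G) → ℚ} (hc : IsH (DZ Z) c) :
    ∃ ψ : MultilinearMap ℝ (fun _ : κ => T) ℝ,
      (∀ v, ψ (fun l => per (v l)) = ((evalF c v : ℚ) : ℝ)) ∧
      ∀ z : ℂ, ‖z‖ = 1 → ∀ u : κ → T, ψ (fun l => z • u l) = ψ u := by
  obtain ⟨P, I, hP1, hP2, hI1, hI2⟩ := h.ex
  refine ⟨(evalM (cst ℝ c)).compLinearMap (fun _ => I), fun v => ?_, fun z hz u => ?_⟩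
  · rw [MultilinearMap.compLinearMap_apply, evalM_apply, evalF_castK]
    congr 1
    funext k
    rw [← hP1, hI1]
  · rw [MultilinearMap.compLinearMap_apply, MultilinearMap.compLinearMap_apply, evalM_apply,
      evalM_apply]
    have h1 : z.re = Real.cos z.arg ∧ z.im = Real.sin z.arg := by
      have h2 := Complex.norm_mul_cos_arg z
      have h3 := Complex.norm_mul_sin_arg z
      rw [hz, one_mul] at h2 h3
      exact ⟨h2.symm, h3.symm⟩
    have h2 : (fun k => I (z • u k)) = fun k => Real.cos z.arg • I (u k) +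
        Real.sin z.arg • (JR Z *ᵥ I (u k)) := by
      funext k
      rw [← hI1 (Real.cos z.arg • I (u k) + Real.sin z.arg • (JR Z *ᵥ I (u k))), map_add P,
        map_smul P, map_smul P, hP2, hI2, smul_rot, ← h1.1, ← h1.2, Complex.re_add_im]
    rw [h2]
    exact rot_of_act h.sq ((act_real (J := JR Z) (D := DJ (JR Z)) rfl).1 hc) z.arg _

end hodge

section main

variable {H : Type} [AddCommGroup H] [Module ℚ H] {K : Type} [Field K] [CharZero K] [Algebra K ℂ]
  {T : Type} [AddCommGroup T] [Module ℂ T] {per : H →+ T} {Γ : Type} [Group Γ]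
  {ρ : Representation K Γ (K ⊗[ℚ] H)} {χ : Γ →* K} {G : ℕ} {Z : Matrix (Fin G) (Fin G) ℂ}
  {E : H → H → ℚ} (b : Basis (Fin G ⊕ Fin G) ℚ H)

/-- The components over the smaller field of a complex form. -/
def lform {m : ℕ} (Φ : MultilinearMap ℂ (fun _ : Fin m × Fin 2 => ℂ ⊗[K] (K ⊗[ℚ] H)) ℂ)
    (l : ℂ →ₗ[K] K) : MultilinearMap K (fun _ : Fin m × Fin 2 => K ⊗[ℚ] H) K :=
  l.compMultilinearMap ((Φ.restrictScalars K).compLinearMap
    (fun _ => TensorProduct.mk K ℂ (K ⊗[ℚ] H) 1))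

theorem lform_apply {m : ℕ} (Φ : MultilinearMap ℂ (fun _ : Fin m × Fin 2 => ℂ ⊗[K] (K ⊗[ℚ] H)) ℂ)
    (l : ℂ →ₗ[K] K) (v : Fin m × Fin 2 → K ⊗[ℚ] H) :
    lform Φ l v = l (Φ (fun k => (1 : ℂ) ⊗ₜ[K] v k)) := rfl

/-- **The forms in the middle.** -/
theorem mid_of (hρ : St.IsTateModuleSP per E ρ χ)
    (hC : Cht (per.comp b.equivFun.symm.toLinearMap.toAddMonoidHom) (JR Z))
    (hyp : ∀ φ : (Fin 2 → K ⊗[ℚ] H) [⋀^Fin G × Fin 2]→ₗ[K] K, St.IsTateClass ρ χ φ →
      St.IsMiddle φ → St.IsHodgeSum per φ)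
    (Φ : MultilinearMap ℂ (fun _ : Fin G × Fin 2 => Fin G ⊕ Fin G → ℂ) ℂ) (hΦ : BiAlt Φ)
    (hk : ∀ D ∈ SH per ρ χ b, Kills (ph (Fin G ⊕ Fin G) D) Φ) (σ : ℂ ≃+* ℂ) :
    Kills (ph (Fin G ⊕ Fin G) (DS Z σ)) Φ := by
  classical
  -- the form on the Tate module
  let Φ' : MultilinearMap ℂ (fun _ : Fin G × Fin 2 => ℂ ⊗[K] (K ⊗[ℚ] H)) ℂ :=
    Φ.compLinearMap (fun _ => (eY K b).toLinearMap)
  have hΦ' : ∀ w, Φ' w = Φ (fun k => eY K b (w k)) := fun _ => rfl
  have h1 : ∀ τ h, IsHodgeTate per ρ χ τ h → ∀ v,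
      ∑ k, Φ' (Function.update v k (h (v k))) = (G : ℂ) * Φ' v := by
    intro τ h hh v
    have h2 := hk _ ⟨τ, h, hh, rfl⟩ (fun k => eY K b (v k))
    have h3 := kills_iff Φ' h v
    have h4 : ∑ k, Φ' (Function.update v k (((2 : ℂ) • h - 1) (v k))) =
        ∑ k, Φ (Function.update (fun k => eY K b (v k)) k
          (ph (Fin G ⊕ Fin G) (mt b ((2 : ℂ) • h - 1)) (eY K b (v k)))) := by
      refine Finset.sum_congr rfl fun k _ => ?_
      rw [hΦ']
      congr 1
      funext l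
      by_cases hl : l = k
      · subst hl
        rw [Function.update_self, Function.update_self]
        exact (mt_mulVec b _ (v l)).symm
      · rw [Function.update_of_ne hl, Function.update_of_ne hl]
    rw [← h4, h3] at h2
    exact sub_eq_zero.1 ((mul_eq_zero.1 h2).resolve_left two_ne_zero)
  obtain ⟨Δ, hΔ, hT⟩ := hρ.pink G Φ' h1
  -- the components
  have hbi : ∀ l : ℂ →ₗ[K] K, BiAlt (lform Φ' l) := by
    intro l j τ v
    rw [lform_apply, lform_apply, hΦ', hΦ']
    have h2 := hΦ j τ (fun k => eY K b ((1 : ℂ) ⊗ₜ[K] v k))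
    have h3 : (fun k : Fin G × Fin 2 => eY K b ((1 : ℂ) ⊗ₜ[K]
        (if k.2 = j then v (τ k.1, k.2) else v k))) = fun k : Fin G × Fin 2 =>
        if k.2 = j then eY K b ((1 : ℂ) ⊗ₜ[K] v (τ k.1, k.2)) else
          eY K b ((1 : ℂ) ⊗ₜ[K] v k) := by
      funext k
      by_cases hj : k.2 = j
      · rw [if_pos hj, if_pos hj]
      · rw [if_neg hj, if_neg hj]
    rw [h3, h2]
    have h4 : (((Equiv.Perm.sign τ : ℤ) : ℂ)) = algebraMap K ℂ ((Equiv.Perm.sign τ : ℤ) : K) := by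
      rw [map_intCast]
    rw [h4, ← Algebra.smul_def, map_smul, smul_eq_mul]
  have htate : ∀ (l : ℂ →ₗ[K] K), ∀ s ∈ Δ, ∀ v,
      lform Φ' l (fun k => ρ s (v k)) = χ s ^ G * lform Φ' l v := by
    intro l s hs v
    rw [lform_apply, lform_apply]
    have h2 := hT s hs (fun k => (1 : ℂ) ⊗ₜ[K] v k)
    have h3 : (fun k => (ρ s).baseChange ℂ ((1 : ℂ) ⊗ₜ[K] v k)) =
        fun k => (1 : ℂ) ⊗ₜ[K] ρ s (v k) := rfl
    rw [h3] at h2
    rw [h2, ← map_pow, ← Algebra.smul_def, map_smul, smul_eq_mul]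
  -- the classes on the square
  have hsum : ∀ l : ℂ →ₗ[K] K, (fun v : Fin G × Fin 2 → H => lform Φ' l (fun k => 1 ⊗ₜ[ℚ] v k)) ∈
      Submodule.span K {F : (Fin G × Fin 2 → H) → K |
        ∃ f : MultilinearMap ℚ (fun _ : Fin G × Fin 2 => H) ℚ, IsHodgeTensor per f ∧
          F = fun v => ((f v : ℚ) : K)} := by
    intro l
    obtain ⟨N, hN, hNv⟩ := alt_prc (hbi l)
    have h2 := hyp (MultilinearMap.alternatization (prc (lform Φ' l))) ?_ ?_
    · unfold St.IsHodgeSum at h2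
      -- restriction to the two factors
      let R : ((Fin G × Fin 2 → Fin 2 → H) → K) →ₗ[K] ((Fin G × Fin 2 → H) → K) :=
        LinearMap.funLeft K K (fun v k => (Pi.single k.2 (v k) : Fin 2 → H))
      have h3 := Submodule.mem_map_of_mem (f := R) h2
      rw [Submodule.map_span] at h3
      have h4 : (fun v : Fin G × Fin 2 → H => lform Φ' l (fun k => 1 ⊗ₜ[ℚ] v k)) =
          (N : K)⁻¹ • R (fun v : Fin G × Fin 2 → Fin 2 → H =>
            MultilinearMap.alternatization (prc (lform Φ' l))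
              (fun k i => (1 : K) ⊗ₜ[ℚ] v k i)) := by
        funext v
        rw [Pi.smul_apply, LinearMap.funLeft_apply, smul_eq_mul]
        have h5 : (fun (k : Fin G × Fin 2) i => (1 : K) ⊗ₜ[ℚ]
            (Pi.single k.2 (v k) : Fin 2 → H) i) =
            fun k => (Pi.single k.2 ((1 : K) ⊗ₜ[ℚ] v k) : Fin 2 → K ⊗[ℚ] H) := by
          funext k i
          by_cases hi : i = k.2
          · subst hi
            rw [Pi.single_eq_same, Pi.single_eq_same]
          · rw [Pi.single_eq_of_ne hi, Pi.single_eq_of_ne hi, TensorProduct.tmul_zero]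
        rw [h5, hNv, ← mul_assoc, inv_mul_cancel₀ (by exact_mod_cast hN), one_mul]
      rw [h4]
      refine Submodule.smul_mem _ _ (Submodule.span_mono ?_ h3)
      rintro _ ⟨_, ⟨f, ⟨ψ, hψ1, hψ2⟩, rfl⟩, rfl⟩
      refine ⟨f.toMultilinearMap.compLinearMap (fun k => LinearMap.single ℚ (fun _ : Fin 2 => H)
        k.2), ⟨ψ.compLinearMap (fun k => LinearMap.single ℝ (fun _ : Fin 2 => T) k.2),
          fun v => ?_, fun z hz u => ?_⟩, rfl⟩
      · rw [MultilinearMap.compLinearMap_apply, MultilinearMap.compLinearMap_apply]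
        refine Eq.trans ?_ (hψ1 _)
        congr 1
        funext k i
        change (Pi.single k.2 (per (v k)) : Fin 2 → T) i =
          per ((Pi.single k.2 (v k) : Fin 2 → H) i)
        by_cases hi : i = k.2
        · subst hi
          rw [Pi.single_eq_same, Pi.single_eq_same]
        · rw [Pi.single_eq_of_ne hi, Pi.single_eq_of_ne hi, map_zero]
      · rw [MultilinearMap.compLinearMap_apply, MultilinearMap.compLinearMap_apply]
        refine Eq.trans ?_ (hψ2 z hz _)
        congr 1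
        funext k i
        change (Pi.single k.2 (z • u k) : Fin 2 → T) i = z • (Pi.single k.2 (u k) : Fin 2 → T) i
        by_cases hi : i = k.2
        · subst hi
          rw [Pi.single_eq_same, Pi.single_eq_same]
        · rw [Pi.single_eq_of_ne hi, Pi.single_eq_of_ne hi, smul_zero]
    · refine ⟨Δ, hΔ, fun s hs v => ?_⟩
      rw [MultilinearMap.alternatization_apply, MultilinearMap.alternatization_apply,
        Finset.mul_sum]
      refine Finset.sum_congr rfl fun τ _ => ?_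
      rw [MultilinearMap.domDomCongr_apply, MultilinearMap.domDomCongr_apply, prc_apply, prc_apply,
        mul_smul_comm]
      congr 1
      exact htate l s hs (fun k => v (τ k) k.2)
    · intro v
      exact alt_mid _ 2 v
  -- the complex form in coordinates
  let W : Submodule K ℂ := Submodule.span K (Set.range (CF Φ))
  have : FiniteDimensional K W := FiniteDimensional.span_of_finite K (Set.finite_range _)
  obtain ⟨m, c, l, hl⟩ := exists_coordF W
  have hCF : ∀ I, CF Φ I = Φ' (fun k => (1 : ℂ) ⊗ₜ[K] ((1 : K) ⊗ₜ[ℚ] b (I k))) := by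
    intro I
    rw [hΦ']
    change Φ (fun k => Pi.single (I k) 1) = _
    congr 1
    funext k
    rw [← bY_apply]
    change _ = (bY K b).equivFun (bY K b (I k))
    funext j
    rw [Basis.equivFun_self, Pi.single_apply]
    by_cases h : I k = j
    · rw [if_pos h, if_pos h.symm]
    · rw [if_neg h, if_neg (Ne.symm h)]
  -- the span of the rational coefficient functions of Hodge tensors
  let Sp : Submodule ℂ ((Fin G × Fin 2 → Fin G ⊕ Fin G) → ℂ) := Submodule.span ℂ
    {C | ∃ f : MultilinearMap ℚ (fun _ : Fin G × Fin 2 => H) ℚ, IsHodgeTensor per f ∧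
      C = fun I => ((f (fun k => b (I k)) : ℚ) : ℂ)}
  have hmem : ∀ F ∈ Submodule.span K {F : (Fin G × Fin 2 → H) → K |
        ∃ f : MultilinearMap ℚ (fun _ : Fin G × Fin 2 => H) ℚ, IsHodgeTensor per f ∧
          F = fun v => ((f v : ℚ) : K)}, (fun I => algebraMap K ℂ (F (fun k => b (I k)))) ∈ Sp := by
    intro F hF
    induction hF using Submodule.span_induction with
    | mem F hF =>
      obtain ⟨f, hf, rfl⟩ := hF
      refine Submodule.subset_span ⟨f, hf, ?_⟩
      funext I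
      rw [map_ratCast]
    | zero =>
      have h2 : (fun I : Fin G × Fin 2 → Fin G ⊕ Fin G =>
          algebraMap K ℂ ((0 : (Fin G × Fin 2 → H) → K) (fun k => b (I k)))) = 0 := by
        funext I
        rw [Pi.zero_apply, map_zero]
        rfl
      rw [h2]
      exact Submodule.zero_mem _
    | add x y _ _ hx hy =>
      have h2 := Submodule.add_mem _ hx hy
      refine (congrArg (fun C => C ∈ Sp) ?_).mp h2
      funext I
      rw [Pi.add_apply, Pi.add_apply, map_add]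
    | smul r x _ hx =>
      have h2 := Submodule.smul_mem _ (algebraMap K ℂ r) hx
      refine (congrArg (fun C => C ∈ Sp) ?_).mp h2
      funext I
      rw [Pi.smul_apply, Pi.smul_apply, smul_eq_mul, smul_eq_mul, map_mul]
  have hCFm : CF Φ ∈ Sp := by
    have h2 : CF Φ = ∑ j, c j • fun I => algebraMap K ℂ
        ((fun v : Fin G × Fin 2 → H => lform Φ' (l j) (fun k => 1 ⊗ₜ[ℚ] v k))
          (fun k => b (I k))) := by
      funext I
      rw [Finset.sum_apply]
      have h3 := hl (CF Φ I) (Submodule.subset_span ⟨I, rfl⟩)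
      refine h3.trans (Finset.sum_congr rfl fun j _ => ?_)
      rw [Pi.smul_apply, smul_eq_mul, hCF]
      rfl
    rw [h2]
    exact Submodule.sum_mem _ fun j _ => Submodule.smul_mem _ _ (hmem _ (hsum (l j)))
  have hkill : ∀ C ∈ Sp, act (DS Z σ) C = 0 := by
    intro C hC'
    induction hC' using Submodule.span_induction with
    | mem C hC' =>
      obtain ⟨f, ⟨ψ, hψ1, hψ2⟩, rfl⟩ := hC'
      let f' : MultilinearMap ℚ (fun _ : Fin G × Fin 2 => Fin G ⊕ Fin G → ℚ) ℚ :=
        f.compLinearMap (fun _ => b.equivFun.symm.toLinearMap)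
      have h2 : IsH (DZ Z) (CF f') := isH_ml hC (ψ := ψ) (fun v => hψ1 _) hψ2
      have h3 : (fun I : Fin G × Fin 2 → Fin G ⊕ Fin G => ((f (fun k => b (I k)) : ℚ) : ℂ)) =
          cst ℂ (CF f') := by
        funext I
        rw [cst_apply]
        change _ = ((f (fun k => b.equivFun.symm (Pi.single (I k) 1)) : ℚ) : ℂ)
        congr 2
        funext k
        rw [Basis.equivFun_symm_apply, Finset.sum_eq_single (I k)]
        · rw [Pi.single_eq_same, one_smul]
        · intro j _ hj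
          rw [Pi.single_eq_of_ne hj, zero_smul]
        · intro h
          exact absurd (Finset.mem_univ _) h
      rw [h3]
      exact lieM_kills _ (LZ_le_lieM (DS_mem σ)) h2
    | zero => exact act_zero_right _
    | add x y _ _ hx hy => rw [act_add_right, hx, hy, add_zero]
    | smul r x _ hx => rw [act_smul_right, hx, smul_zero]
  exact kills_of_act (hkill _ hCFm)

/-- The components of a class on a power. -/
def compF {n m : ℕ} (φ : (Fin n → K ⊗[ℚ] H) [⋀^Fin m × Fin 2]→ₗ[K] K)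
    (t : Fin m × Fin 2 → Fin n) : MultilinearMap K (fun _ : Fin m × Fin 2 => K ⊗[ℚ] H) K :=
  φ.toMultilinearMap.compLinearMap (fun k => LinearMap.single K (fun _ : Fin n => K ⊗[ℚ] H) (t k))

theorem compF_apply {n m : ℕ} (φ : (Fin n → K ⊗[ℚ] H) [⋀^Fin m × Fin 2]→ₗ[K] K)
    (t : Fin m × Fin 2 → Fin n) (w : Fin m × Fin 2 → K ⊗[ℚ] H) :
    compF φ t w = φ (fun k => (Pi.single (t k) (w k) : Fin n → K ⊗[ℚ] H)) := rfl

theorem compF_sum {n m : ℕ} (φ : (Fin n → K ⊗[ℚ] H) [⋀^Fin m × Fin 2]→ₗ[K] K)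
    (v : Fin m × Fin 2 → Fin n → K ⊗[ℚ] H) :
    φ v = ∑ t : Fin m × Fin 2 → Fin n, compF φ t (fun k => v k (t k)) := by
  have h1 : v = fun k => ∑ i : Fin n, (Pi.single i (v k i) : Fin n → K ⊗[ℚ] H) := by
    funext k
    exact (Finset.univ_sum_single (v k)).symm
  have h2 := φ.toMultilinearMap.map_sum (fun k i => (Pi.single i (v k i) : Fin n → K ⊗[ℚ] H))
  conv_lhs => rw [h1]
  exact h2

theorem compF_tate {n m : ℕ} {φ : (Fin n → K ⊗[ℚ] H) [⋀^Fin m × Fin 2]→ₗ[K] K}
    (hφ : St.IsTateClass ρ χ φ) (t : Fin m × Fin 2 → Fin n) : IsTate ρ χ m (compF φ t) := by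
  obtain ⟨Δ, hΔ, h⟩ := hφ
  refine ⟨Δ, hΔ, fun s hs v => ?_⟩
  rw [compF_apply, compF_apply, ← h s hs]
  congr 1
  funext k i
  by_cases hi : i = t k
  · subst hi
    rw [Pi.single_eq_same, Pi.single_eq_same]
  · rw [Pi.single_eq_of_ne hi, Pi.single_eq_of_ne hi, map_zero]

/-- Tate tensors are combinations of Hodge tensors. -/
theorem tensor_of (hC : Cht (per.comp b.equivFun.symm.toLinearMap.toAddMonoidHom) (JR Z))
    (hds : ∀ σ : ℂ ≃+* ℂ, DS Z σ ∈ Y224.TS.LT (SH per ρ χ b)) {m : ℕ}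
    (φ : MultilinearMap K (fun _ : Fin m × Fin 2 => K ⊗[ℚ] H) K) (hφ : IsTate ρ χ m φ) :
    (fun v : Fin m × Fin 2 → H => φ (fun k => (1 : K) ⊗ₜ[ℚ] v k)) ∈
      Submodule.span K {F : (Fin m × Fin 2 → H) → K |
        ∃ f : MultilinearMap ℚ (fun _ : Fin m × Fin 2 => H) ℚ, IsHodgeTensor per f ∧
          F = fun v => ((f v : ℚ) : K)} := by
  classical
  have hk := kills_LZ hds (FC_kills b φ hφ)
  -- the coefficients
  let c₀ : (Fin m × Fin 2 → Fin G ⊕ Fin G) → K := fun I => φ (fun k => (1 : K) ⊗ₜ[ℚ] b (I k))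
  have hbs : ∀ i, b.equivFun.symm (Pi.single i 1) = b i := by
    intro i
    rw [Basis.equivFun_symm_apply, Finset.sum_eq_single i]
    · rw [Pi.single_eq_same, one_smul]
    · intro j _ hj
      rw [Pi.single_eq_of_ne hj, zero_smul]
    · intro h
      exact absurd (Finset.mem_univ _) h
  have hc₀ : ∀ I, CF (FC b φ) I = algebraMap K ℂ (c₀ I) := by
    intro I
    have h1 := FC_rat b φ (fun k => Pi.single (I k) 1)
    have h2 : (fun k => Pool.Agent.Y90.cv (Pi.single (I k) 1 : Fin G ⊕ Fin G → ℚ)) =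
        fun k => (Pi.single (I k) 1 : Fin G ⊕ Fin G → ℂ) := by
      funext k
      exact single_cv (I k)
    rw [h2] at h1
    refine h1.trans ?_
    congr 2
    funext k
    rw [hbs]
  let W : Submodule ℚ K := Submodule.span ℚ (Set.range c₀)
  have : FiniteDimensional ℚ W := FiniteDimensional.span_of_finite ℚ (Set.finite_range _)
  obtain ⟨r, c, l, hl⟩ := exists_coordF W
  -- the rational parts
  have hrat : ∀ j, IsH (DZ Z) (fun I => l j (c₀ I)) := by
    intro j
    let inc : K →ₗ[ℚ] ℂ := (Algebra.linearMap K ℂ).restrictScalars ℚ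
    have hinj : LinearMap.ker inc = ⊥ := LinearMap.ker_eq_bot.2 (algebraMap K ℂ).injective
    obtain ⟨q, hq⟩ := LinearMap.exists_leftInverse_of_injective inc hinj
    have h1 := kill_lam gal_LZ hk ((l j).comp q) _ DZ_mem
    have h2 : (fun I => ((l j).comp q) (CF (FC b φ) I)) = fun I => l j (c₀ I) := by
      funext I
      rw [hc₀, LinearMap.comp_apply]
      congr 1
      exact LinearMap.congr_fun hq (c₀ I)
    rw [h2] at h1
    exact h1
  have key : (fun v : Fin m × Fin 2 → H => φ (fun k => (1 : K) ⊗ₜ[ℚ] v k)) =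
      ∑ j, c j • fun v : Fin m × Fin 2 → H =>
        ((evalF (fun I => l j (c₀ I)) (fun k => b.equivFun (v k)) : ℚ) : K) := by
    funext v
    rw [Finset.sum_apply]
    have h1 : (fun k => (1 : K) ⊗ₜ[ℚ] v k) = fun k => ∑ i, ((b.equivFun (v k) i : ℚ) : K) •
        ((1 : K) ⊗ₜ[ℚ] b i) := by
      funext k
      conv_lhs => rw [← b.sum_equivFun (v k), tmul_sum]
      refine Finset.sum_congr rfl fun i _ => ?_
      rw [TensorProduct.tmul_smul, ← algebraMap_smul K (b.equivFun (v k) i) ((1 : K) ⊗ₜ[ℚ] b i)]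
      rfl
    rw [h1, MultilinearMap.map_sum]
    have h2 : ∀ I : Fin m × Fin 2 → Fin G ⊕ Fin G,
        φ (fun k => ((b.equivFun (v k) (I k) : ℚ) : K) • ((1 : K) ⊗ₜ[ℚ] b (I k))) =
          ∑ j, c j * (((l j (c₀ I) * ∏ k, b.equivFun (v k) (I k) : ℚ)) : K) := by
      intro I
      rw [MultilinearMap.map_smul_univ, smul_eq_mul]
      have h3 : φ (fun k => (1 : K) ⊗ₜ[ℚ] b (I k)) = _ :=
        hl (c₀ I) (Submodule.subset_span ⟨I, rfl⟩)
      rw [h3, Finset.mul_sum]
      refine Finset.sum_congr rfl fun j _ => ?_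
      rw [Rat.cast_mul, Rat.cast_prod, eq_ratCast]
      ring
    rw [Finset.sum_congr rfl fun I _ => h2 I, Finset.sum_comm]
    refine Finset.sum_congr rfl fun j _ => ?_
    rw [Pi.smul_apply, smul_eq_mul, ← Finset.mul_sum]
    congr 1
    unfold evalF
    rw [Rat.cast_sum]
  rw [key]
  refine Submodule.sum_mem _ fun j _ => Submodule.smul_mem _ _ (Submodule.subset_span ?_)
  obtain ⟨ψ, hψ1, hψ2⟩ := hodge_ml hC (hrat j)
  refine ⟨(evalM (fun I => l j (c₀ I))).compLinearMap (fun _ => b.equivFun.toLinearMap),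
    ⟨ψ, fun v => ?_, hψ2⟩, rfl⟩
  rw [MultilinearMap.compLinearMap_apply]
  have h4 := hψ1 (fun k => b.equivFun (v k))
  have h5 : (fun k => (per.comp b.equivFun.symm.toLinearMap.toAddMonoidHom) (b.equivFun (v k))) =
      fun k => per (v k) := by
    funext k
    change per (b.equivFun.symm (b.equivFun (v k))) = per (v k)
    rw [LinearEquiv.symm_apply_apply]
  rw [h5] at h4
  exact h4

/-- Classes on powers from tensors. -/
theorem sum_of {n m : ℕ} (φ : (Fin n → K ⊗[ℚ] H) [⋀^Fin m × Fin 2]→ₗ[K] K)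
    (h : ∀ t : Fin m × Fin 2 → Fin n,
      (fun v : Fin m × Fin 2 → H => compF φ t (fun k => (1 : K) ⊗ₜ[ℚ] v k)) ∈
        Submodule.span K {F : (Fin m × Fin 2 → H) → K |
          ∃ f : MultilinearMap ℚ (fun _ : Fin m × Fin 2 => H) ℚ, IsHodgeTensor per f ∧
            F = fun v => ((f v : ℚ) : K)}) : St.IsHodgeSum per φ := by
  classical
  unfold St.IsHodgeSum
  -- alternation of the components
  let A : ∀ t : Fin m × Fin 2 → Fin n, ((Fin m × Fin 2 → H) → K) →ₗ[K]
      ((Fin m × Fin 2 → Fin n → H) → K) := fun t =>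
    ∑ σ : Equiv.Perm (Fin m × Fin 2), ((Equiv.Perm.sign σ : ℤ) : K) •
      LinearMap.funLeft K K (fun v k => v (σ k) (t k))
  have hA : ∀ t F v, A t F v = ∑ σ : Equiv.Perm (Fin m × Fin 2), ((Equiv.Perm.sign σ : ℤ) : K) *
      F (fun k => v (σ k) (t k)) := by
    intro t F v
    rw [LinearMap.sum_apply, Finset.sum_apply]
    rfl
  have h1 : (fun v : Fin m × Fin 2 → Fin n → H => φ (fun k i => (1 : K) ⊗ₜ[ℚ] v k i)) =
      (Fintype.card (Equiv.Perm (Fin m × Fin 2)) : K)⁻¹ • ∑ t, A t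
        (fun v : Fin m × Fin 2 → H => compF φ t (fun k => (1 : K) ⊗ₜ[ℚ] v k)) := by
    funext v
    rw [Pi.smul_apply, Finset.sum_apply, smul_eq_mul]
    have h2 : ∑ t, A t (fun v : Fin m × Fin 2 → H => compF φ t (fun k => (1 : K) ⊗ₜ[ℚ] v k)) v =
        (Fintype.card (Equiv.Perm (Fin m × Fin 2)) : K) * φ (fun k i => (1 : K) ⊗ₜ[ℚ] v k i) := by
      simp only [hA]
      rw [Finset.sum_comm]
      have h3 : ∀ σ ∈ (Finset.univ : Finset (Equiv.Perm (Fin m × Fin 2))),
          ∑ t : Fin m × Fin 2 → Fin n, ((Equiv.Perm.sign σ : ℤ) : K) *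
            compF φ t (fun k => (1 : K) ⊗ₜ[ℚ] v (σ k) (t k)) =
              φ (fun k i => (1 : K) ⊗ₜ[ℚ] v k i) := by
        intro σ _
        rw [← Finset.mul_sum, ← compF_sum φ (fun k i => (1 : K) ⊗ₜ[ℚ] v (σ k) i)]
        have h4 := φ.map_perm (fun k i => (1 : K) ⊗ₜ[ℚ] v k i) σ
        rw [Units.smul_def, zsmul_eq_mul] at h4
        have h5 : φ (fun k i => (1 : K) ⊗ₜ[ℚ] v (σ k) i) = _ := h4
        rw [h5, ← mul_assoc, ← Int.cast_mul, ← Units.val_mul, Int.units_mul_self, Units.val_one,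
          Int.cast_one, one_mul]
      rw [Finset.sum_congr rfl h3, Finset.sum_const, nsmul_eq_mul, Finset.card_univ]
    rw [h2, ← mul_assoc, inv_mul_cancel₀, one_mul]
    exact_mod_cast Fintype.card_ne_zero
  rw [h1]
  refine Submodule.smul_mem _ _ (Submodule.sum_mem _ fun t _ => ?_)
  have h2 := Submodule.mem_map_of_mem (f := A t) (h t)
  rw [Submodule.map_span] at h2
  refine Submodule.span_mono ?_ h2
  rintro _ ⟨_, ⟨f, ⟨ψ, hψ1, hψ2⟩, rfl⟩, rfl⟩
  refine ⟨MultilinearMap.alternatization (f.compLinearMap (fun k => LinearMap.proj (t k))), ?_, ?_⟩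
  · refine isHodge_alt (ψ.compLinearMap (fun k => LinearMap.proj (t k))) (fun v => ?_)
      (fun z hz u => ?_)
    · exact hψ1 (fun k => v k (t k))
    · exact hψ2 z hz (fun k => u k (t k))
  · funext v
    rw [hA, MultilinearMap.alternatization_apply, Rat.cast_sum]
    refine Finset.sum_congr rfl fun σ _ => ?_
    rw [MultilinearMap.domDomCongr_apply, Units.smul_def, zsmul_eq_mul, Rat.cast_mul,
      Rat.cast_intCast]
    rfl

end main

/-- **The theorem.** -/
theorem middle_square {H : Type} [AddCommGroup H] [Module ℚ H] {K : Type} [Field K] [CharZero K]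
    [Algebra K ℂ] [Algebra.IsAlgebraic K ℂ] {T : Type} [AddCommGroup T] [Module ℂ T] {per : H →+ T}
    {Γ : Type} [Group Γ] {ρ : Representation K Γ (K ⊗[ℚ] H)} {χ : Γ →* K} {E : H → H → ℚ}
    (hX : Pool.Agent.Y90.St.IsAV per) (hE : Pool.Agent.Y90.St.IsPolarization per E)
    (hρ : St.IsTateModuleSP per E ρ χ)
    (hyp : ∀ φ : (Fin 2 → K ⊗[ℚ] H) [⋀^Fin (finrank ℂ T) × Fin 2]→ₗ[K] K,
      St.IsTateClass ρ χ φ → St.IsMiddle φ → St.IsHodgeSum per φ)
    {n m : ℕ} (φ : (Fin n → K ⊗[ℚ] H) [⋀^Fin m × Fin 2]→ₗ[K] K) (hφ : St.IsTateClass ρ χ φ) :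
    St.IsHodgeSum per φ := by
  obtain ⟨a, Z, hZ, b, hC, hb⟩ := exists_ppav' hX hE
  have ha : finrank ℂ T = a := by
    have h1 := hX.2.2.2.1
    rw [finrank_eq_card_basis b, Fintype.card_sum, Fintype.card_fin] at h1
    omega
  have hTD : TD Z (SH per ρ χ b) := td_of b hb hC hρ.toIsTateModule
  rw [ha] at hyp
  have hds : ∀ σ : ℂ ≃+* ℂ, DS Z σ ∈ Y224.TS.LT (SH per ρ χ b) := fun σ =>
    ds_mem hZ hTD (fun Φ hΦ hk τ => mid_of b hρ hC hyp Φ hΦ hk τ) σ
  exact sum_of φ fun t => tensor_of b hC hds (compF φ t) (compF_tate hφ t)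

end

end Pool.Agent.V7H7.MS
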