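import Mathlib
import Pool.Agent.H204R3.SP.Lie
import Pool.Agent.V7H7.MS.Core

/-!
# The projector to the derived algebra as a form in four variables
-/

set_option linter.unusedSectionVars false
set_option linter.deprecated false

namespace Pool.Agent.V7H7.MS

open Module LieAlgebra LieModule Pool.Agent.N183.U8 Pool.Agent.N865.GSA
open Pool.Agent.H204R3.SP (Kills)

attribute [local instance 100] LieRing.ofAssociativeRing

noncomputable section

variable {V : Type} [AddCommGroup V] [Module ℂ V] [FiniteDimensional ℂ V]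
  {L : Submodule ℂ (End ℂ V)}

/-- The derived algebra as a space of endomorphisms. -/
def DE (hBr : Br L) : Submodule ℂ (End ℂ V) :=
  (Der (LA L hBr)).toSubmodule.map (LA L hBr).toSubmodule.subtype

theorem mem_DE {hBr : Br L} {X : End ℂ V} :
    X ∈ DE hBr ↔ ∃ x ∈ Der (LA L hBr), (x : End ℂ V) = X := Iff.rfl

theorem DE_le {hBr : Br L} {X : End ℂ V} (hX : X ∈ DE hBr) : X ∈ L := by
  obtain ⟨x, -, rfl⟩ := mem_DE.1 hX
  exact x.2

theorem DE_br {hBr : Br L} {X d : End ℂ V} (hX : X ∈ L) (hd : d ∈ DE hBr) :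
    X * d - d * X ∈ DE hBr := by
  obtain ⟨d, h, rfl⟩ := mem_DE.1 hd
  exact mem_DE.2 ⟨⁅(⟨X, hX⟩ : LA L hBr), d⁆, lie_mem_right ℂ _ _ _ d h, rfl⟩

/-- The trace form on the derived algebra. -/
def tf (hBr : Br L) : LinearMap.BilinForm ℂ (DE hBr) :=
  LinearMap.mk₂ ℂ (fun x y => LinearMap.trace ℂ V ((x : End ℂ V) * (y : End ℂ V)))
    (fun x x' y => by
      rw [← map_add, ← add_mul]
      rfl)
    (fun c x y => by
      rw [← map_smul, ← smul_mul_assoc]
      rfl)
    (fun x y y' => by
      rw [← map_add, ← mul_add]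
      rfl)
    (fun c x y => by
      rw [← map_smul, ← mul_smul_comm]
      rfl)

theorem tf_apply (hBr : Br L) (x y : DE hBr) :
    tf hBr x y = LinearMap.trace ℂ V ((x : End ℂ V) * (y : End ℂ V)) := rfl

theorem tf_symm (hBr : Br L) (x y : DE hBr) : tf hBr x y = tf hBr y x :=
  LinearMap.trace_mul_comm ℂ _ _

theorem tf_zero {hBr : Br L} (hCR : CR L) {x : DE hBr} (h : ∀ y, tf hBr x y = 0) : x = 0 := by
  obtain ⟨x', hx', hx⟩ := mem_DE.1 x.2
  have h1 : x' = 0 := der_nondeg hBr hCR hx' fun y hy => by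
    have h2 := h ⟨_, mem_DE.2 ⟨y, hy, rfl⟩⟩
    rw [tf_apply, ← hx] at h2
    exact h2
  apply Subtype.ext
  rw [← hx, h1]
  rfl

theorem tf_nondeg {hBr : Br L} (hCR : CR L) : (tf hBr).Nondegenerate := by
  refine ⟨?_, ?_⟩
  · intro x hx
    exact tf_zero hCR hx
  · intro x hx
    exact tf_zero hCR fun y => (tf_symm hBr x y).trans (hx y)

/-- An endomorphism which normalises the derived algebra, commutes with the commutant and has the
traces of an element of `L` on the commutant, belongs to `L`. -/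
theorem core2 (hBr : Br L) (hCR : CR L) {N D₀ : End ℂ V} (hD₀ : D₀ ∈ L)
    (hN : ∀ d ∈ DE hBr, N * d - d * N ∈ DE hBr)
    (hNc : ∀ a : End ℂ V, (∀ X ∈ L, a * X = X * a) → N * a = a * N)
    (htr : ∀ a : End ℂ V, (∀ X ∈ L, a * X = X * a) →
      LinearMap.trace ℂ V (a * N) = LinearMap.trace ℂ V (a * D₀)) : N ∈ L := by
  obtain ⟨k, hk, hk'⟩ := exists_der hBr hCR (N - D₀)
  set C : End ℂ V := N - D₀ - (k : End ℂ V) with hC
  have hkD : (k : End ℂ V) ∈ DE hBr := mem_DE.2 ⟨k, hk, rfl⟩
  have hCtr : ∀ y ∈ DE hBr, LinearMap.trace ℂ V (C * y) = 0 := by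
    intro y hy
    obtain ⟨y', hy', rfl⟩ := mem_DE.1 hy
    rw [hC, sub_mul, map_sub, hk' y' hy', sub_self]
  have hCc : ∀ a : End ℂ V, (∀ X ∈ L, a * X = X * a) → C * a = a * C := by
    intro a ha
    rw [hC, sub_mul, sub_mul, mul_sub, mul_sub, hNc a ha, ha D₀ hD₀, ha _ k.2]
  have hCd : ∀ d ∈ DE hBr, C * d = d * C := by
    intro d hd
    have h1 : C * d - d * C ∈ DE hBr := by
      have h2 : C * d - d * C = (N * d - d * N) - (D₀ * d - d * D₀) -
          ((k : End ℂ V) * d - d * (k : End ℂ V)) := by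
        rw [hC]
        noncomm_ring
      rw [h2]
      exact Submodule.sub_mem _ (Submodule.sub_mem _ (hN d hd) (DE_br hD₀ hd)) (DE_br k.2 hd)
    have h3 : (⟨_, h1⟩ : DE hBr) = 0 := tf_zero hCR fun y => by
      rw [tf_apply]
      change LinearMap.trace ℂ V ((C * d - d * C) * (y : End ℂ V)) = 0
      rw [trace_lie]
      exact hCtr _ (DE_br (DE_le hd) y.2)
    exact sub_eq_zero.1 (congrArg (fun x : DE hBr => (x : End ℂ V)) h3)
  have hCX : ∀ X ∈ L, C * X = X * C := by
    intro X hX
    obtain ⟨z, d, hd, hzd, hzc⟩ := center_add_der hBr hCR ⟨X, hX⟩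
    have hX' : X = (z : End ℂ V) + (d : End ℂ V) :=
      congrArg (fun y : LA L hBr => (y : End ℂ V)) hzd
    have hz : ∀ Y ∈ L, (z : End ℂ V) * Y = Y * (z : End ℂ V) := by
      intro Y hY
      have h4 := congrArg (fun y : LA L hBr => (y : End ℂ V)) (hzc ⟨Y, hY⟩)
      exact sub_eq_zero.1 h4
    rw [hX', mul_add, add_mul, hCd _ (mem_DE.2 ⟨d, hd, rfl⟩), hCc _ hz]
  have hC0 : C = 0 := by
    refine zero_of_trace hCR hCX hCc fun a ha => ?_
    have h1 : LinearMap.trace ℂ V (a * (k : End ℂ V)) = 0 := by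
      refine der_ind hBr (p := fun x => LinearMap.trace ℂ V (a * x) = 0) ?_ ?_ ?_ ?_ k hk
      · rw [mul_zero, map_zero]
      · intro x y hx hy
        rw [mul_add, map_add, hx, hy, add_zero]
      · intro r x hx
        rw [mul_smul_comm, map_smul, hx, smul_zero]
      · intro x hx y hy
        rw [← trace_lie, ha x hx, sub_self, zero_mul, map_zero]
    rw [hC, mul_sub, mul_sub, map_sub, map_sub, htr a ha, h1, sub_self, sub_zero]
  have h1 : N = D₀ + (k : End ℂ V) := by
    have h2 := hC0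
    rw [hC, sub_sub, sub_eq_zero] at h2
    exact h2
  rw [h1]
  exact L.add_mem hD₀ k.2

section form

variable (ω : V →ₗ[ℂ] V →ₗ[ℂ] ℂ)

/-- The product of the bilinear forms defined by two endomorphisms. -/
def f4 (x y : End ℂ V) : MultilinearMap ℂ (fun _ : Fin 2 × Fin 2 => V) ℂ where
  toFun v := ω (v (0, 1)) (x (v (0, 0))) * ω (v (1, 1)) (y (v (1, 0)))
  map_update_add' := by
    intro inst v k a c
    obtain rfl : inst = fun a b => instDecidableEqProd a b := Subsingleton.elim _ _
    obtain ⟨i, j⟩ := k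
    have e01 : ((0 : Fin 2), (1 : Fin 2)) ≠ (0, 0) := by decide
    have e10 : ((1 : Fin 2), (0 : Fin 2)) ≠ (0, 0) := by decide
    have e11 : ((1 : Fin 2), (1 : Fin 2)) ≠ (0, 0) := by decide
    have f00 : ((0 : Fin 2), (0 : Fin 2)) ≠ (0, 1) := by decide
    have f10 : ((1 : Fin 2), (0 : Fin 2)) ≠ (0, 1) := by decide
    have f11 : ((1 : Fin 2), (1 : Fin 2)) ≠ (0, 1) := by decide
    have g00 : ((0 : Fin 2), (0 : Fin 2)) ≠ (1, 0) := by decide
    have g01 : ((0 : Fin 2), (1 : Fin 2)) ≠ (1, 0) := by decide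
    have g11 : ((1 : Fin 2), (1 : Fin 2)) ≠ (1, 0) := by decide
    have h00 : ((0 : Fin 2), (0 : Fin 2)) ≠ (1, 1) := by decide
    have h01 : ((0 : Fin 2), (1 : Fin 2)) ≠ (1, 1) := by decide
    have h10 : ((1 : Fin 2), (0 : Fin 2)) ≠ (1, 1) := by decide
    fin_cases i <;> fin_cases j
    · simp only [Fin.zero_eta, Function.update_self, Function.update_of_ne e01,
        Function.update_of_ne e10, Function.update_of_ne e11, map_add]
      ring
    · simp only [Fin.zero_eta, Fin.mk_one, Function.update_self, Function.update_of_ne f00,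
        Function.update_of_ne f10, Function.update_of_ne f11, map_add, LinearMap.add_apply]
      ring
    · simp only [Fin.zero_eta, Fin.mk_one, Function.update_self, Function.update_of_ne g00,
        Function.update_of_ne g01, Function.update_of_ne g11, map_add]
      ring
    · simp only [Fin.mk_one, Function.update_self, Function.update_of_ne h00,
        Function.update_of_ne h01, Function.update_of_ne h10, map_add, LinearMap.add_apply]
      ring
  map_update_smul' := by
    intro inst v k r a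
    obtain rfl : inst = fun a b => instDecidableEqProd a b := Subsingleton.elim _ _
    obtain ⟨i, j⟩ := k
    have e01 : ((0 : Fin 2), (1 : Fin 2)) ≠ (0, 0) := by decide
    have e10 : ((1 : Fin 2), (0 : Fin 2)) ≠ (0, 0) := by decide
    have e11 : ((1 : Fin 2), (1 : Fin 2)) ≠ (0, 0) := by decide
    have f00 : ((0 : Fin 2), (0 : Fin 2)) ≠ (0, 1) := by decide
    have f10 : ((1 : Fin 2), (0 : Fin 2)) ≠ (0, 1) := by decide
    have f11 : ((1 : Fin 2), (1 : Fin 2)) ≠ (0, 1) := by decide
    have g00 : ((0 : Fin 2), (0 : Fin 2)) ≠ (1, 0) := by decide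
    have g01 : ((0 : Fin 2), (1 : Fin 2)) ≠ (1, 0) := by decide
    have g11 : ((1 : Fin 2), (1 : Fin 2)) ≠ (1, 0) := by decide
    have h00 : ((0 : Fin 2), (0 : Fin 2)) ≠ (1, 1) := by decide
    have h01 : ((0 : Fin 2), (1 : Fin 2)) ≠ (1, 1) := by decide
    have h10 : ((1 : Fin 2), (0 : Fin 2)) ≠ (1, 1) := by decide
    fin_cases i <;> fin_cases j
    · simp only [Fin.zero_eta, Function.update_self, Function.update_of_ne e01,
        Function.update_of_ne e10, Function.update_of_ne e11, map_smul, smul_eq_mul]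
      ring
    · simp only [Fin.zero_eta, Fin.mk_one, Function.update_self, Function.update_of_ne f00,
        Function.update_of_ne f10, Function.update_of_ne f11, map_smul, LinearMap.smul_apply,
        smul_eq_mul]
      ring
    · simp only [Fin.zero_eta, Fin.mk_one, Function.update_self, Function.update_of_ne g00,
        Function.update_of_ne g01, Function.update_of_ne g11, map_smul, smul_eq_mul]
      ring
    · simp only [Fin.mk_one, Function.update_self, Function.update_of_ne h00,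
        Function.update_of_ne h01, Function.update_of_ne h10, map_smul, LinearMap.smul_apply,
        smul_eq_mul]
      ring

theorem f4_apply (x y : End ℂ V) (v : Fin 2 × Fin 2 → V) :
    f4 ω x y v = ω (v (0, 1)) (x (v (0, 0))) * ω (v (1, 1)) (y (v (1, 0))) := rfl

/-- The action of a skew endomorphism. -/
theorem f4_act {X : End ℂ V} (hX : ∀ u v, ω (X u) v + ω u (X v) = 0) (x y : End ℂ V)
    (v : Fin 2 × Fin 2 → V) : ∑ k, f4 ω x y (Function.update v k (X (v k))) =
      -(f4 ω (X * x - x * X) y v + f4 ω x (X * y - y * X) v) := by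
  have e01 : ((0 : Fin 2), (1 : Fin 2)) ≠ (0, 0) := by decide
  have e10 : ((1 : Fin 2), (0 : Fin 2)) ≠ (0, 0) := by decide
  have e11 : ((1 : Fin 2), (1 : Fin 2)) ≠ (0, 0) := by decide
  have f00 : ((0 : Fin 2), (0 : Fin 2)) ≠ (0, 1) := by decide
  have f10 : ((1 : Fin 2), (0 : Fin 2)) ≠ (0, 1) := by decide
  have f11 : ((1 : Fin 2), (1 : Fin 2)) ≠ (0, 1) := by decide
  have g00 : ((0 : Fin 2), (0 : Fin 2)) ≠ (1, 0) := by decide
  have g01 : ((0 : Fin 2), (1 : Fin 2)) ≠ (1, 0) := by decide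
  have g11 : ((1 : Fin 2), (1 : Fin 2)) ≠ (1, 0) := by decide
  have h00 : ((0 : Fin 2), (0 : Fin 2)) ≠ (1, 1) := by decide
  have h01 : ((0 : Fin 2), (1 : Fin 2)) ≠ (1, 1) := by decide
  have h10 : ((1 : Fin 2), (0 : Fin 2)) ≠ (1, 1) := by decide
  rw [Fintype.sum_prod_type]
  simp only [Fin.sum_univ_two, f4_apply, Function.update_self, Function.update_of_ne e01,
    Function.update_of_ne e10, Function.update_of_ne e11, Function.update_of_ne f00,
    Function.update_of_ne f10, Function.update_of_ne f11, Function.update_of_ne g00,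
    Function.update_of_ne g01, Function.update_of_ne g11, Function.update_of_ne h00,
    Function.update_of_ne h01, Function.update_of_ne h10, LinearMap.sub_apply,
    Module.End.mul_apply, map_sub]
  linear_combination (ω (v (1, 1)) (y (v (1, 0)))) * hX (v (0, 1)) (x (v (0, 0))) +
    (ω (v (0, 1)) (x (v (0, 0)))) * hX (v (1, 1)) (y (v (1, 0)))

/-- The trace in coordinates. -/
theorem trace_coord {ι : Type} [Fintype ι] [DecidableEq ι] (b : Basis ι ℂ V) {x : ι → V}
    (hx : ∀ i y, ω (x i) y = b.repr y i) (A y : End ℂ V) :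
    LinearMap.trace ℂ V (A * y) = ∑ i, ω (x i) (A (y (b i))) := by
  rw [LinearMap.trace_eq_matrix_trace ℂ b]
  unfold Matrix.trace
  refine Finset.sum_congr rfl fun i _ => ?_
  rw [Matrix.diag_apply, LinearMap.toMatrix_apply, hx]
  rfl

/-- **The form of the projector.** If all forms in four variables which are killed by `L` are
killed by `N`, then `N` normalises the derived algebra of `L`. -/
theorem normalises {ι : Type} [Fintype ι] [DecidableEq ι] (b : Basis ι ℂ V)
    (hω : ∀ i, ∃ x, ∀ y, ω x y = b.repr y i) (hBr : Br L) (hCR : CR L)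
    (hL : ∀ X ∈ L, ∀ u v, ω (X u) v + ω u (X v) = 0)
    {N : End ℂ V} (hN : ∀ u v, ω (N u) v + ω u (N v) = 0)
    (h4 : ∀ Φ : MultilinearMap ℂ (fun _ : Fin 2 × Fin 2 => V) ℂ,
      (∀ X ∈ L, Kills X Φ) → Kills N Φ) : ∀ d ∈ DE hBr, N * d - d * N ∈ DE hBr := by
  classical
  choose x hx using hω
  let e := Module.finBasis ℂ (DE hBr)
  let e' := (tf hBr).dualBasis (tf_nondeg hCR) e
  have he1 : ∀ y : DE hBr, y = ∑ i, tf hBr (e' i) y • e i := by
    intro y
    conv_lhs => rw [← e.sum_repr y]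
    refine Finset.sum_congr rfl fun i _ => ?_
    congr 1
    conv_rhs => rw [← e.sum_repr y]
    rw [map_sum, Finset.sum_eq_single i]
    · rw [map_smul, LinearMap.BilinForm.apply_dualBasis_left, if_pos rfl, smul_eq_mul, mul_one]
    · intro j _ hj
      rw [map_smul, LinearMap.BilinForm.apply_dualBasis_left, if_neg hj, smul_zero]
    · intro h
      exact absurd (Finset.mem_univ _) h
  have he2 : ∀ y : DE hBr, y = ∑ i, tf hBr y (e i) • e' i := by
    intro y
    conv_lhs => rw [← e'.sum_repr y]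
    refine Finset.sum_congr rfl fun i _ => ?_
    congr 1
    conv_rhs => rw [← e'.sum_repr y]
    rw [map_sum, LinearMap.sum_apply, Finset.sum_eq_single i]
    · rw [map_smul, LinearMap.smul_apply, LinearMap.BilinForm.apply_dualBasis_left, if_pos rfl,
        smul_eq_mul, mul_one]
    · intro j _ hj
      rw [map_smul, LinearMap.smul_apply, LinearMap.BilinForm.apply_dualBasis_left,
        if_neg (Ne.symm hj), smul_zero]
    · intro h
      exact absurd (Finset.mem_univ _) h
  let Φ : MultilinearMap ℂ (fun _ : Fin 2 × Fin 2 => V) ℂ := ∑ i, f4 ω (e i : End ℂ V) (e' i)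
  have hΦ : ∀ v, Φ v = ∑ i, f4 ω (e i : End ℂ V) (e' i) v := fun v =>
    MultilinearMap.sum_apply _ _ _
  have hact : ∀ X : End ℂ V, (∀ u v, ω (X u) v + ω u (X v) = 0) → ∀ v : Fin 2 × Fin 2 → V,
      ∑ k, Φ (Function.update v k (X (v k))) =
        -∑ i, (f4 ω (X * (e i : End ℂ V) - (e i : End ℂ V) * X) (e' i) v +
          f4 ω (e i : End ℂ V) (X * (e' i : End ℂ V) - (e' i : End ℂ V) * X) v) := by
    intro X hX v
    simp only [hΦ]
    rw [Finset.sum_comm, ← Finset.sum_neg_distrib]
    exact Finset.sum_congr rfl fun i _ => f4_act ω hX _ _ v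
  have hkL : ∀ X ∈ L, Kills X Φ := by
    intro X hX v
    rw [hact X (hL X hX), neg_eq_zero]
    let p : End ℂ V →ₗ[ℂ] ℂ := (ω (v (0, 1))) ∘ₗ (LinearMap.applyₗ (v (0, 0)))
    let q : End ℂ V →ₗ[ℂ] ℂ := (ω (v (1, 1))) ∘ₗ (LinearMap.applyₗ (v (1, 0)))
    have hpq : ∀ a c : End ℂ V, f4 ω a c v = p a * q c := fun _ _ => rfl
    have h1 : ∀ i, X * (e i : End ℂ V) - (e i : End ℂ V) * X =
        ∑ j, tf hBr (e' j) ⟨_, DE_br hX (e i).2⟩ • (e j : End ℂ V) := by
      intro i
      have h2 := congrArg (fun y : DE hBr => (y : End ℂ V)) (he1 ⟨_, DE_br hX (e i).2⟩)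
      refine h2.trans ?_
      rw [Submodule.coe_sum]
      rfl
    have h2 : ∀ i, X * (e' i : End ℂ V) - (e' i : End ℂ V) * X =
        ∑ j, tf hBr ⟨_, DE_br hX (e' i).2⟩ (e j) • (e' j : End ℂ V) := by
      intro i
      have h2 := congrArg (fun y : DE hBr => (y : End ℂ V)) (he2 ⟨_, DE_br hX (e' i).2⟩)
      refine h2.trans ?_
      rw [Submodule.coe_sum]
      rfl
    have h3 : ∀ i, p (X * (e i : End ℂ V) - (e i : End ℂ V) * X) =
        ∑ j, tf hBr (e' j) ⟨_, DE_br hX (e i).2⟩ * p (e j : End ℂ V) := by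
      intro i
      refine (congrArg p (h1 i)).trans ?_
      rw [map_sum]
      exact Finset.sum_congr rfl fun j _ => by rw [map_smul, smul_eq_mul]
    have h4' : ∀ i, q (X * (e' i : End ℂ V) - (e' i : End ℂ V) * X) =
        ∑ j, tf hBr ⟨_, DE_br hX (e' i).2⟩ (e j) * q (e' j : End ℂ V) := by
      intro i
      refine (congrArg q (h2 i)).trans ?_
      rw [map_sum]
      exact Finset.sum_congr rfl fun j _ => by rw [map_smul, smul_eq_mul]
    simp only [hpq]
    rw [Finset.sum_add_distrib]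
    have h5 : ∑ i, p (X * (e i : End ℂ V) - (e i : End ℂ V) * X) * q (e' i : End ℂ V) =
        ∑ i, ∑ j, tf hBr (e' j) ⟨_, DE_br hX (e i).2⟩ * p (e j : End ℂ V) * q (e' i : End ℂ V) := by
      refine Finset.sum_congr rfl fun i _ => ?_
      rw [h3 i, Finset.sum_mul]
    have h6 : ∑ i, p (e i : End ℂ V) * q (X * (e' i : End ℂ V) - (e' i : End ℂ V) * X) =
        ∑ i, ∑ j, tf hBr ⟨_, DE_br hX (e' j).2⟩ (e i) * p (e j : End ℂ V) * q (e' i : End ℂ V) := by
      rw [Finset.sum_comm]
      refine Finset.sum_congr rfl fun i _ => ?_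
      rw [h4' i, Finset.mul_sum]
      refine Finset.sum_congr rfl fun j _ => ?_
      ring
    rw [h5, h6, ← Finset.sum_add_distrib]
    refine Finset.sum_eq_zero fun i _ => ?_
    rw [← Finset.sum_add_distrib]
    refine Finset.sum_eq_zero fun j _ => ?_
    have h7 : tf hBr (e' j) ⟨_, DE_br hX (e i).2⟩ + tf hBr ⟨_, DE_br hX (e' j).2⟩ (e i) = 0 := by
      rw [tf_apply, tf_apply]
      change LinearMap.trace ℂ V ((e' j : End ℂ V) * (X * (e i : End ℂ V) - (e i : End ℂ V) * X)) +
        LinearMap.trace ℂ V ((X * (e' j : End ℂ V) - (e' j : End ℂ V) * X) * (e i : End ℂ V)) = 0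
      rw [← trace_lie, ← map_add, ← add_mul]
      have h8 : (e' j : End ℂ V) * X - X * (e' j : End ℂ V) + (X * (e' j : End ℂ V) -
          (e' j : End ℂ V) * X) = 0 := by abel
      rw [h8, zero_mul, map_zero]
    linear_combination (p (e j : End ℂ V) * q (e' i : End ℂ V)) * h7
  have hkN := h4 Φ hkL
  intro d hd
  -- the contraction with `d`
  have h1 : ∀ u z : V, ω z ((∑ i, (LinearMap.trace ℂ V ((e' i : End ℂ V) * d) •
      (N * (e i : End ℂ V) - (e i : End ℂ V) * N) +
      LinearMap.trace ℂ V ((N * (e' i : End ℂ V) - (e' i : End ℂ V) * N) * d) •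
        (e i : End ℂ V))) u) = 0 := by
    intro u z
    have h2 : ∀ j, ∑ i, (ω z ((N * (e i : End ℂ V) - (e i : End ℂ V) * N) u) *
        ω (x j) ((e' i : End ℂ V) (d (b j))) + ω z ((e i : End ℂ V) u) *
          ω (x j) ((N * (e' i : End ℂ V) - (e' i : End ℂ V) * N) (d (b j)))) = 0 := by
      intro j
      have h3 := hkN (fun k => if k = (0, 0) then u else if k = (0, 1) then z else
        if k = (1, 0) then d (b j) else x j)
      rw [hact N hN, neg_eq_zero] at h3
      exact h3
    have h3 : ∑ j, ∑ i, (ω z ((N * (e i : End ℂ V) - (e i : End ℂ V) * N) u) *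
        ω (x j) ((e' i : End ℂ V) (d (b j))) + ω z ((e i : End ℂ V) u) *
          ω (x j) ((N * (e' i : End ℂ V) - (e' i : End ℂ V) * N) (d (b j)))) = 0 :=
      Finset.sum_eq_zero fun j _ => h2 j
    rw [Finset.sum_comm] at h3
    rw [LinearMap.sum_apply, map_sum]
    rw [← h3]
    refine Finset.sum_congr rfl fun i _ => ?_
    rw [Finset.sum_add_distrib, ← Finset.mul_sum, ← Finset.mul_sum, ← trace_coord ω b hx,
      ← trace_coord ω b hx, LinearMap.add_apply, LinearMap.smul_apply, LinearMap.smul_apply,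
      map_add, map_smul, map_smul, smul_eq_mul, smul_eq_mul]
    ring
  have h2 : ∑ i, (LinearMap.trace ℂ V ((e' i : End ℂ V) * d) •
      (N * (e i : End ℂ V) - (e i : End ℂ V) * N) +
      LinearMap.trace ℂ V ((N * (e' i : End ℂ V) - (e' i : End ℂ V) * N) * d) •
        (e i : End ℂ V)) = 0 := by
    refine LinearMap.ext fun u => ?_
    rw [LinearMap.zero_apply]
    apply b.repr.injective
    ext i
    rw [← hx, h1, map_zero]
    rfl
  have h3 : d = ∑ i, LinearMap.trace ℂ V ((e' i : End ℂ V) * d) • (e i : End ℂ V) := by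
    have h4 := congrArg (fun y : DE hBr => (y : End ℂ V)) (he1 ⟨d, hd⟩)
    refine h4.trans ?_
    rw [Submodule.coe_sum]
    rfl
  have h5 : N * d - d * N = -∑ i, LinearMap.trace ℂ V ((N * (e' i : End ℂ V) -
      (e' i : End ℂ V) * N) * d) • (e i : End ℂ V) := by
    rw [Finset.sum_add_distrib, add_eq_zero_iff_eq_neg] at h2
    rw [← h2]
    conv_lhs => rw [h3, Finset.mul_sum, Finset.sum_mul, ← Finset.sum_sub_distrib]
    refine Finset.sum_congr rfl fun i _ => ?_
    rw [mul_smul_comm, smul_mul_assoc, ← smul_sub]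
  rw [h5]
  exact Submodule.neg_mem _ (Submodule.sum_mem _ fun i _ => Submodule.smul_mem _ _ (e i).2)

end form

end

end Pool.Agent.V7H7.MS
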