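import Mathlib
import Pool.Agent.V7H7.MS.Proj
import Pool.Agent.V7H7.MS.Fin

/-!
# Tate classes in `H^1 ⊗ H^1 ⊗ H^1 ⊗ H^1`
-/

set_option linter.unusedSectionVars false
set_option linter.deprecated false

namespace Pool.Agent.V7H7.MS

open Matrix Module Pool.Agent.W437.HC Pool.Agent.W437.HD Pool.Agent.W548.Odd Pool.Agent.W522.U
open Pool.Agent.H204R3.SP Pool.Agent.H204R3.GP Pool.Agent.Y90 Pool.Agent.Y224.TS TensorProduct
open Pool.Agent.Y224.TS.St (IsHodgeTate IsTateModule)
open Pool.Agent.H204R3.CM (IsHodge)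
open Pool.Agent.TH504.CB
open Pool.Agent.N183.U8 (Br CR Stb)

noncomputable section

section mat

variable {G : ℕ} {Z : Matrix (Fin G) (Fin G) ℂ}
  {S : Set (Matrix (Fin G ⊕ Fin G) (Fin G ⊕ Fin G) ℂ)}

/-- **The Lie algebra of the Hodge–Tate elements contains the conjugates of the complex
structure**, if the latter kill the forms in four variables. -/
theorem ds_mem4 (hZ : PM Z) (h : TD Z S)
    (h4 : ∀ Φ : MultilinearMap ℂ (fun _ : Fin 2 × Fin 2 => Fin G ⊕ Fin G → ℂ) ℂ,
      (∀ D ∈ S, Kills (ph (Fin G ⊕ Fin G) D) Φ) →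
        ∀ σ : ℂ ≃+* ℂ, Kills (ph (Fin G ⊕ Fin G) (DS Z σ)) Φ) (σ : ℂ ≃+* ℂ) :
    DS Z σ ∈ Y224.TS.LT S := by
  obtain ⟨D₀, hD₀, htr⟩ := h.ex σ
  rw [← mem_GG]
  have hcomm : ∀ a : End ℂ (Fin G ⊕ Fin G → ℂ), (∀ X ∈ GG (Y224.TS.LT S), a * X = X * a) →
      ∃ P : Matrix (Fin G ⊕ Fin G) (Fin G ⊕ Fin G) ℂ, a = ph _ P ∧
        ∀ X ∈ LZ Z, P * X = X * P := by
    intro a ha
    obtain ⟨P, rfl⟩ := (ph (Fin G ⊕ Fin G)).surjective a
    refine ⟨P, rfl, (h.comm' P).1 fun X hX => ?_⟩
    have h1 := ha (ph _ X) (mem_GG.2 hX)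
    rw [← map_mul, ← map_mul] at h1
    exact (ph (Fin G ⊕ Fin G)).injective h1
  have hBr : Br (GG (Y224.TS.LT S)) := br_GG _ fun X hX Y hY => LT_br hX hY
  refine core2 (D₀ := ph _ D₀) hBr (cr_GG h.cr) (mem_GG.2 (LT_gen hD₀)) ?_ ?_ ?_
  · refine normalises (om G) (Pi.basisFun ℂ (Fin G ⊕ Fin G)) (fun i => ?_) hBr (cr_GG h.cr)
      ?_ ?_ ?_
    · obtain ⟨x, hx⟩ := om_surj ((Pi.basisFun ℂ (Fin G ⊕ Fin G)).coord i)
      exact ⟨x, hx⟩
    · intro X hX u v
      obtain ⟨A, hA, rfl⟩ := exists_GG hX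
      exact h.sp' hA u v
    · intro u v
      exact hZ.om_sp (DS_mem σ) u v
    · intro Φ hk
      exact h4 Φ (fun D hD => hk _ (mem_GG.2 (LT_gen hD))) σ
  · intro a ha
    obtain ⟨P, rfl, hP⟩ := hcomm a ha
    rw [← map_mul, ← map_mul, hP _ (DS_mem σ)]
  · intro a ha
    obtain ⟨P, rfl, hP⟩ := hcomm a ha
    rw [← map_mul, ← map_mul]
    have h4 : ∀ X : Matrix (Fin G ⊕ Fin G) (Fin G ⊕ Fin G) ℂ,
        LinearMap.trace ℂ (Fin G ⊕ Fin G → ℂ) (ph (Fin G ⊕ Fin G) X) = X.trace := fun X =>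
      Matrix.trace_toLin'_eq X
    rw [h4, h4]
    exact (htr P hP).symm

end mat

section inj

variable {R : Type} [CommRing R] {M : Type} [AddCommGroup M] [Module R M] {κ : Type} [Fintype κ]
  [DecidableEq κ] {n : ℕ} (t : κ → Fin n)

/-- A form as a form on the power, with the variables in the factors `t k`. -/
def pt (Φ : MultilinearMap R (fun _ : κ => M) R) :
    MultilinearMap R (fun _ : κ => Fin n → M) R :=
  Φ.compLinearMap (fun k => LinearMap.proj (t k))

theorem pt_apply (Φ : MultilinearMap R (fun _ : κ => M) R) (v : κ → Fin n → M) :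
    pt t Φ v = Φ (fun k => v k (t k)) := rfl

/-- The restriction of the alternation. -/
theorem alt_pt (ht : Function.Injective t) (Φ : MultilinearMap R (fun _ : κ => M) R) (v : κ → M) :
    MultilinearMap.alternatization (pt t Φ) (fun k => (Pi.single (t k) (v k) : Fin n → M)) =
      Φ v := by
  rw [MultilinearMap.alternatization_apply, Finset.sum_eq_single 1]
  · rw [Equiv.Perm.sign_one, one_smul, MultilinearMap.domDomCongr_apply, pt_apply]
    congr 1
    funext k
    rw [Equiv.Perm.one_apply, Pi.single_eq_same]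
  · intro σ _ hσ
    have h1 : ∃ k, σ k ≠ k := by
      by_contra h
      push Not at h
      exact hσ (Equiv.ext h)
    obtain ⟨k, hk⟩ := h1
    rw [MultilinearMap.domDomCongr_apply, pt_apply]
    have h2 : Φ (fun k => (Pi.single (t (σ k)) (v (σ k)) : Fin n → M) (t k)) = 0 := by
      refine Φ.map_coord_zero k ?_
      exact Pi.single_eq_of_ne (fun h => hk (ht h.symm)) _
    rw [h2, smul_zero]
  · intro h
    exact absurd (Finset.mem_univ _) h

theorem alt_scale (ht : Function.Bijective t) (Φ : MultilinearMap R (fun _ : κ => M) R) (r : R)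
    (i : Fin n) (v : κ → Fin n → M) :
    MultilinearMap.alternatization (pt t Φ) (fun k => Function.update (v k) i (r • v k i)) =
      r * MultilinearMap.alternatization (pt t Φ) v := by
  rw [MultilinearMap.alternatization_apply, MultilinearMap.alternatization_apply, Finset.mul_sum]
  refine Finset.sum_congr rfl fun σ _ => ?_
  rw [MultilinearMap.domDomCongr_apply, MultilinearMap.domDomCongr_apply, pt_apply, pt_apply,
    mul_smul_comm]
  congr 1
  obtain ⟨j, hj⟩ := ht.2 i
  have h1 : (fun k => Function.update (v (σ k)) i (r • v (σ k) i) (t k)) =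
      Function.update (fun k => v (σ k) (t k)) j (r • v (σ j) (t j)) := by
    funext k
    by_cases h : k = j
    · subst h
      rw [Function.update_self, hj, Function.update_self]
    · rw [Function.update_of_ne h, Function.update_of_ne]
      intro h'
      exact h (ht.1 (h'.trans hj.symm))
  rw [h1, MultilinearMap.map_update_smul, Function.update_eq_self, smul_eq_mul]

end inj

end

end Pool.Agent.V7H7.MS
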