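import Mathlib
import Pool.Agent.V7H7.MS.Stm

/-!
# The Künneth component `H^1 ⊗ ... ⊗ H^1`
-/

namespace Pool.Agent.V7H7.MS.St

open TensorProduct

variable {H : Type} [AddCommGroup H] [Module ℚ H] {K : Type} [Field K] [CharZero K]

/-- The class `φ ∈ H^(2 m)(X ^ n, K)` has degree one on each of the `n` factors, that is, it belongs to
the Künneth component `H^1(X) ⊗ ... ⊗ H^1(X)` (and `n = 2 m`, or it is zero): for each `i` the
pull-back of `φ` along the endomorphism of `X ^ n` which multiplies the `i`-th coordinate by `2` is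
`2 φ`. -/
def IsOneEach {n m : ℕ} (φ : (Fin n → K ⊗[ℚ] H) [⋀^Fin m × Fin 2]→ₗ[K] K) : Prop :=
  ∀ (i : Fin n) (v : Fin m × Fin 2 → Fin n → K ⊗[ℚ] H),
    φ (fun k => Function.update (v k) i ((2 : K) • v k i)) = 2 * φ v

end Pool.Agent.V7H7.MS.St
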