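import Mathlib
import Pool.Agent.V7H7.MS.Stm4
import Pool.Agent.V7H7.MS.Four

/-!
# Codimension two on the fourth power
-/

set_option linter.unusedSectionVars false
set_option linter.deprecated false

namespace Pool.Agent.V7H7.MS

open Matrix Module Pool.Agent.W437.HC Pool.Agent.W437.HD Pool.Agent.W548.Odd
open Pool.Agent.H204R3.SP Pool.Agent.H204R3.GP Pool.Agent.Y90 Pool.Agent.Y224.TS TensorProduct
open Pool.Agent.Y224.TS.St (IsHodgeTate IsTateModule)
open Pool.Agent.H204R3.CM (IsHodge)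
open Pool.Agent.TH504.CB

noncomputable section

/-- The four variables. -/
def t4 (k : Fin 2 × Fin 2) : Fin 4 := finProdFinEquiv k

theorem t4_bij : Function.Bijective t4 := finProdFinEquiv.bijective

section main

variable {H : Type} [AddCommGroup H] [Module ℚ H] {K : Type} [Field K] [CharZero K] [Algebra K ℂ]
  {T : Type} [AddCommGroup T] [Module ℂ T] {per : H →+ T} {Γ : Type} [Group Γ]
  {ρ : Representation K Γ (K ⊗[ℚ] H)} {χ : Γ →* K} {G : ℕ} {Z : Matrix (Fin G) (Fin G) ℂ}
  {E : H → H → ℚ} (b : Basis (Fin G ⊕ Fin G) ℚ H)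

/-- **The forms in four variables.** -/
theorem four_of (hρ : St.IsTateModuleSP per E ρ χ)
    (hC : Cht (per.comp b.equivFun.symm.toLinearMap.toAddMonoidHom) (JR Z))
    (hyp : ∀ φ : (Fin 4 → K ⊗[ℚ] H) [⋀^Fin 2 × Fin 2]→ₗ[K] K, St.IsTateClass ρ χ φ →
      St.IsOneEach φ → St.IsHodgeSum per φ)
    (Φ : MultilinearMap ℂ (fun _ : Fin 2 × Fin 2 => Fin G ⊕ Fin G → ℂ) ℂ)
    (hk : ∀ D ∈ SH per ρ χ b, Kills (ph (Fin G ⊕ Fin G) D) Φ) (σ : ℂ ≃+* ℂ) :
    Kills (ph (Fin G ⊕ Fin G) (DS Z σ)) Φ := by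
  classical
  -- the form on the Tate module
  let Φ' : MultilinearMap ℂ (fun _ : Fin 2 × Fin 2 => ℂ ⊗[K] (K ⊗[ℚ] H)) ℂ :=
    Φ.compLinearMap (fun _ => (eY K b).toLinearMap)
  have hΦ' : ∀ w, Φ' w = Φ (fun k => eY K b (w k)) := fun _ => rfl
  have h1 : ∀ τ h, IsHodgeTate per ρ χ τ h → ∀ v,
      ∑ k, Φ' (Function.update v k (h (v k))) = ((2 : ℕ) : ℂ) * Φ' v := by
    intro τ h hh v
    have h2 := hk _ ⟨τ, h, hh, rfl⟩ (fun k => eY K b (v k))
    have h3 := kills_iff Φ' h v
    have h4 : ∑ k, Φ' (Function.update v k (((2 : ℂ) • h - 1) (v k))) =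
        ∑ k, Φ (Function.update (fun k => eY K b (v k)) k
          (ph (Fin G ⊕ Fin G) (mt b ((2 : ℂ) • h - 1)) (eY K b (v k)))) := by
      refine Finset.sum_congr rfl fun k _ => ?_
      rw [hΦ']
      congr 1
      funext l
      by_cases hl : l = k
      · subst hl
        rw [Function.update_self, Function.update_self]
        exact (mt_mulVec b _ (v l)).symm
      · rw [Function.update_of_ne hl, Function.update_of_ne hl]
    rw [← h4, h3] at h2
    exact sub_eq_zero.1 ((mul_eq_zero.1 h2).resolve_left two_ne_zero)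
  obtain ⟨Δ, hΔ, hT⟩ := hρ.pink 2 Φ' h1
  -- the components
  have htate : ∀ (l : ℂ →ₗ[K] K), ∀ s ∈ Δ, ∀ v,
      lform Φ' l (fun k => ρ s (v k)) = χ s ^ 2 * lform Φ' l v := by
    intro l s hs v
    rw [lform_apply, lform_apply]
    have h2 := hT s hs (fun k => (1 : ℂ) ⊗ₜ[K] v k)
    have h3 : (fun k => (ρ s).baseChange ℂ ((1 : ℂ) ⊗ₜ[K] v k)) =
        fun k => (1 : ℂ) ⊗ₜ[K] ρ s (v k) := rfl
    rw [h3] at h2
    rw [h2, ← map_pow, ← Algebra.smul_def, map_smul, smul_eq_mul]
  -- the classes on the square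
  have hsum : ∀ l : ℂ →ₗ[K] K, (fun v : Fin 2 × Fin 2 → H => lform Φ' l (fun k => 1 ⊗ₜ[ℚ] v k)) ∈
      Submodule.span K {F : (Fin 2 × Fin 2 → H) → K |
        ∃ f : MultilinearMap ℚ (fun _ : Fin 2 × Fin 2 => H) ℚ, IsHodgeTensor per f ∧
          F = fun v => ((f v : ℚ) : K)} := by
    intro l
    have h2 := hyp (MultilinearMap.alternatization (pt t4 (lform Φ' l))) ?_ ?_
    · unfold St.IsHodgeSum at h2
      -- restriction to the two factors
      let R : ((Fin 2 × Fin 2 → Fin 4 → H) → K) →ₗ[K] ((Fin 2 × Fin 2 → H) → K) :=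
        LinearMap.funLeft K K (fun v k => (Pi.single (t4 k) (v k) : Fin 4 → H))
      have h3 := Submodule.mem_map_of_mem (f := R) h2
      rw [Submodule.map_span] at h3
      have h4 : (fun v : Fin 2 × Fin 2 → H => lform Φ' l (fun k => 1 ⊗ₜ[ℚ] v k)) =
          R (fun v : Fin 2 × Fin 2 → Fin 4 → H =>
            MultilinearMap.alternatization (pt t4 (lform Φ' l))
              (fun k i => (1 : K) ⊗ₜ[ℚ] v k i)) := by
        funext v
        rw [LinearMap.funLeft_apply]
        have h5 : (fun (k : Fin 2 × Fin 2) i => (1 : K) ⊗ₜ[ℚ]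
            (Pi.single (t4 k) (v k) : Fin 4 → H) i) =
            fun k => (Pi.single (t4 k) ((1 : K) ⊗ₜ[ℚ] v k) : Fin 4 → K ⊗[ℚ] H) := by
          funext k i
          by_cases hi : i = (t4 k)
          · subst hi
            rw [Pi.single_eq_same, Pi.single_eq_same]
          · rw [Pi.single_eq_of_ne hi, Pi.single_eq_of_ne hi, TensorProduct.tmul_zero]
        rw [h5, alt_pt t4 t4_bij.1]
      rw [h4]
      refine Submodule.span_mono ?_ h3
      rintro _ ⟨_, ⟨f, ⟨ψ, hψ1, hψ2⟩, rfl⟩, rfl⟩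
      refine ⟨f.toMultilinearMap.compLinearMap (fun k => LinearMap.single ℚ (fun _ : Fin 4 => H)
        (t4 k)), ⟨ψ.compLinearMap (fun k => LinearMap.single ℝ (fun _ : Fin 4 => T) (t4 k)),
          fun v => ?_, fun z hz u => ?_⟩, rfl⟩
      · rw [MultilinearMap.compLinearMap_apply, MultilinearMap.compLinearMap_apply]
        refine Eq.trans ?_ (hψ1 _)
        congr 1
        funext k i
        change (Pi.single (t4 k) (per (v k)) : Fin 4 → T) i =
          per ((Pi.single (t4 k) (v k) : Fin 4 → H) i)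
        by_cases hi : i = (t4 k)
        · subst hi
          rw [Pi.single_eq_same, Pi.single_eq_same]
        · rw [Pi.single_eq_of_ne hi, Pi.single_eq_of_ne hi, map_zero]
      · rw [MultilinearMap.compLinearMap_apply, MultilinearMap.compLinearMap_apply]
        refine Eq.trans ?_ (hψ2 z hz _)
        congr 1
        funext k i
        change (Pi.single (t4 k) (z • u k) : Fin 4 → T) i = z • (Pi.single (t4 k) (u k) : Fin 4 → T) i
        by_cases hi : i = (t4 k)
        · subst hi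
          rw [Pi.single_eq_same, Pi.single_eq_same]
        · rw [Pi.single_eq_of_ne hi, Pi.single_eq_of_ne hi, smul_zero]
    · refine ⟨Δ, hΔ, fun s hs v => ?_⟩
      rw [MultilinearMap.alternatization_apply, MultilinearMap.alternatization_apply,
        Finset.mul_sum]
      refine Finset.sum_congr rfl fun τ _ => ?_
      rw [MultilinearMap.domDomCongr_apply, MultilinearMap.domDomCongr_apply, pt_apply, pt_apply,
        mul_smul_comm]
      congr 1
      exact htate l s hs (fun k => v (τ k) (t4 k))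
    · intro i v
      exact alt_scale t4 t4_bij _ 2 i v
  -- the complex form in coordinates
  let W : Submodule K ℂ := Submodule.span K (Set.range (CF Φ))
  have : FiniteDimensional K W := FiniteDimensional.span_of_finite K (Set.finite_range _)
  obtain ⟨m, c, l, hl⟩ := exists_coordF W
  have hCF : ∀ I, CF Φ I = Φ' (fun k => (1 : ℂ) ⊗ₜ[K] ((1 : K) ⊗ₜ[ℚ] b (I k))) := by
    intro I
    rw [hΦ']
    change Φ (fun k => Pi.single (I k) 1) = _
    congr 1
    funext k
    rw [← bY_apply]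
    change _ = (bY K b).equivFun (bY K b (I k))
    funext j
    rw [Basis.equivFun_self, Pi.single_apply]
    by_cases h : I k = j
    · rw [if_pos h, if_pos h.symm]
    · rw [if_neg h, if_neg (Ne.symm h)]
  -- the span of the rational coefficient functions of Hodge tensors
  let Sp : Submodule ℂ ((Fin 2 × Fin 2 → Fin G ⊕ Fin G) → ℂ) := Submodule.span ℂ
    {C | ∃ f : MultilinearMap ℚ (fun _ : Fin 2 × Fin 2 => H) ℚ, IsHodgeTensor per f ∧
      C = fun I => ((f (fun k => b (I k)) : ℚ) : ℂ)}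
  have hmem : ∀ F ∈ Submodule.span K {F : (Fin 2 × Fin 2 → H) → K |
        ∃ f : MultilinearMap ℚ (fun _ : Fin 2 × Fin 2 => H) ℚ, IsHodgeTensor per f ∧
          F = fun v => ((f v : ℚ) : K)}, (fun I => algebraMap K ℂ (F (fun k => b (I k)))) ∈ Sp := by
    intro F hF
    induction hF using Submodule.span_induction with
    | mem F hF =>
      obtain ⟨f, hf, rfl⟩ := hF
      refine Submodule.subset_span ⟨f, hf, ?_⟩
      funext I
      rw [map_ratCast]
    | zero =>
      have h2 : (fun I : Fin 2 × Fin 2 → Fin G ⊕ Fin G =>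
          algebraMap K ℂ ((0 : (Fin 2 × Fin 2 → H) → K) (fun k => b (I k)))) = 0 := by
        funext I
        rw [Pi.zero_apply, map_zero]
        rfl
      rw [h2]
      exact Submodule.zero_mem _
    | add x y _ _ hx hy =>
      have h2 := Submodule.add_mem _ hx hy
      refine (congrArg (fun C => C ∈ Sp) ?_).mp h2
      funext I
      rw [Pi.add_apply, Pi.add_apply, map_add]
    | smul r x _ hx =>
      have h2 := Submodule.smul_mem _ (algebraMap K ℂ r) hx
      refine (congrArg (fun C => C ∈ Sp) ?_).mp h2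
      funext I
      rw [Pi.smul_apply, Pi.smul_apply, smul_eq_mul, smul_eq_mul, map_mul]
  have hCFm : CF Φ ∈ Sp := by
    have h2 : CF Φ = ∑ j, c j • fun I => algebraMap K ℂ
        ((fun v : Fin 2 × Fin 2 → H => lform Φ' (l j) (fun k => 1 ⊗ₜ[ℚ] v k))
          (fun k => b (I k))) := by
      funext I
      rw [Finset.sum_apply]
      have h3 := hl (CF Φ I) (Submodule.subset_span ⟨I, rfl⟩)
      refine h3.trans (Finset.sum_congr rfl fun j _ => ?_)
      rw [Pi.smul_apply, smul_eq_mul, hCF]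
      rfl
    rw [h2]
    exact Submodule.sum_mem _ fun j _ => Submodule.smul_mem _ _ (hmem _ (hsum (l j)))
  have hkill : ∀ C ∈ Sp, act (DS Z σ) C = 0 := by
    intro C hC'
    induction hC' using Submodule.span_induction with
    | mem C hC' =>
      obtain ⟨f, ⟨ψ, hψ1, hψ2⟩, rfl⟩ := hC'
      let f' : MultilinearMap ℚ (fun _ : Fin 2 × Fin 2 => Fin G ⊕ Fin G → ℚ) ℚ :=
        f.compLinearMap (fun _ => b.equivFun.symm.toLinearMap)
      have h2 : IsH (DZ Z) (CF f') := isH_ml hC (ψ := ψ) (fun v => hψ1 _) hψ2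
      have h3 : (fun I : Fin 2 × Fin 2 → Fin G ⊕ Fin G => ((f (fun k => b (I k)) : ℚ) : ℂ)) =
          cst ℂ (CF f') := by
        funext I
        rw [cst_apply]
        change _ = ((f (fun k => b.equivFun.symm (Pi.single (I k) 1)) : ℚ) : ℂ)
        congr 2
        funext k
        rw [Basis.equivFun_symm_apply, Finset.sum_eq_single (I k)]
        · rw [Pi.single_eq_same, one_smul]
        · intro j _ hj
          rw [Pi.single_eq_of_ne hj, zero_smul]
        · intro h
          exact absurd (Finset.mem_univ _) h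
      rw [h3]
      exact lieM_kills _ (LZ_le_lieM (DS_mem σ)) h2
    | zero => exact act_zero_right _
    | add x y _ _ hx hy => rw [act_add_right, hx, hy, add_zero]
    | smul r x _ hx => rw [act_smul_right, hx, smul_zero]
  exact kills_of_act (hkill _ hCFm)

end main

/-- **The theorem.** -/
theorem one_power {H : Type} [AddCommGroup H] [Module ℚ H] {K : Type} [Field K] [CharZero K]
    [Algebra K ℂ] [Algebra.IsAlgebraic K ℂ] {T : Type} [AddCommGroup T] [Module ℂ T] {per : H →+ T}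
    {Γ : Type} [Group Γ] {ρ : Representation K Γ (K ⊗[ℚ] H)} {χ : Γ →* K} {E : H → H → ℚ}
    (hX : Pool.Agent.Y90.St.IsAV per) (hE : Pool.Agent.Y90.St.IsPolarization per E)
    (hρ : St.IsTateModuleSP per E ρ χ)
    (hyp : (∀ φ : (Fin 4 → K ⊗[ℚ] H) [⋀^Fin 2 × Fin 2]→ₗ[K] K,
        St.IsTateClass ρ χ φ → St.IsOneEach φ → St.IsHodgeSum per φ) ∨
      ∀ φ : (Fin 2 → K ⊗[ℚ] H) [⋀^Fin (finrank ℂ T) × Fin 2]→ₗ[K] K,
        St.IsTateClass ρ χ φ → St.IsMiddle φ → St.IsHodgeSum per φ)
    {n m : ℕ} (φ : (Fin n → K ⊗[ℚ] H) [⋀^Fin m × Fin 2]→ₗ[K] K) (hφ : St.IsTateClass ρ χ φ) :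
    St.IsHodgeSum per φ := by
  rcases hyp with hyp | hyp
  · obtain ⟨a, Z, hZ, b, hC, hb⟩ := exists_ppav' hX hE
    have hTD : TD Z (SH per ρ χ b) := td_of b hb hC hρ.toIsTateModule
    have hds : ∀ σ : ℂ ≃+* ℂ, DS Z σ ∈ Y224.TS.LT (SH per ρ χ b) := fun σ =>
      ds_mem4 hZ hTD (fun Φ hk τ => four_of b hρ hC hyp Φ hk τ) σ
    exact sum_of φ fun t => tensor_of b hC hds (compF φ t) (compF_tate hφ t)
  · exact middle_square hX hE hρ hyp φ hφ

end

end Pool.Agent.V7H7.MS
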